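import Pool.Agent.MUG.Dim
import Pool.Agent.MUG.Inj

/-!
# Row EOa: the dimension of the non-projective part (helper8)

`injective_of_projective`: in a rigid abelian category projective objects are injective.
`exists_n`: in a finite tensor category with a dimension function `d` every object is `T ⊞ N`
with `T` projective and `N` without projective summands; `n V = d N`.
-/

open CategoryTheory MonoidalCategory Limits Abelian ZeroObject

universe v v' u u'

set_option linter.unusedSectionVars false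

namespace Pool.Agent.RC40

open Pool.Agent.MUG

section PI

variable {C : Type u} [Category.{v} C] [Abelian C] [MonoidalCategory C] [MonoidalPreadditive C]
  [RigidCategory C]

/-- The right dual of a projective object is projective. -/
theorem projective_rdual (P : C) [Projective P] : Projective (Pᘁ : C) := by
  refine ⟨fun {E X} f e he => ?_⟩
  have hX : Projective (P ⊗ X) := projective_tensorRight P X
  have he' : Epi (P ◁ e) := inferInstanceAs (Epi ((tensorLeft P).map e))
  -- a section of `P ◁ e`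
  let s : P ⊗ X ⟶ P ⊗ E := Projective.factorThru (𝟙 _) (P ◁ e)
  have hs : s ≫ P ◁ e = 𝟙 _ := Projective.factorThru_comp _ _
  let f' : 𝟙_ C ⟶ P ⊗ X := tensorLeftHomEquiv (𝟙_ C) P (Pᘁ) X ((ρ_ _).hom ≫ f)
  refine ⟨(ρ_ _).inv ≫ (tensorLeftHomEquiv (𝟙_ C) P (Pᘁ) E).symm (f' ≫ s), ?_⟩
  have h1 : (tensorLeftHomEquiv (𝟙_ C) P (Pᘁ) E).symm (f' ≫ s) ≫ e =
      (tensorLeftHomEquiv (𝟙_ C) P (Pᘁ) X).symm (f' ≫ s ≫ P ◁ e) := by
    simp only [tensorLeftHomEquiv, Equiv.coe_fn_symm_mk]
    simp only [whiskerLeft_comp, Category.assoc]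
    congr 2
    rw [← leftUnitor_naturality, ← whisker_exchange_assoc,
      associator_inv_naturality_right_assoc]
  rw [Category.assoc, h1, hs, Category.comp_id, Equiv.symm_apply_apply, Iso.inv_hom_id_assoc]

/-- Projective objects are injective. -/
theorem injective_of_projective (P : C) [Projective P] : Injective P := by
  have := projective_rdual P
  have h1 := injective_ldual (P := (Pᘁ : C))
  exact Injective.of_iso (leftDualIso (LeftRigidCategory.leftDual (Pᘁ)).exact
    (inferInstance : ExactPairing P (Pᘁ))) h1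

end PI

section Frob

variable {k : Type*} [Field k] {C : Type u} [Category.{v} C] [Abelian C] [Linear k C]

/-- The socles of the projective covers `F.P j`, when these are injective. -/
structure Soc (F : Fam C) where
  S : Fin F.n → C
  i : ∀ j, S j ⟶ F.P j
  simple : ∀ j, Simple (S j)
  hull : ∀ j, IsHull (S j) (F.P j) (i j)

theorem Fam.P_not_isZero (F : Fam C) (j : Fin F.n) : ¬ IsZero (F.P j) := by
  intro h0
  have := F.simple j
  have := (F.cov j).epi
  have h3 : F.e j = 0 := h0.eq_of_src _ _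
  have h4 : 𝟙 (F.T j) = 0 := by
    rw [← cancel_epi (F.e j), h3]
    simp
  exact id_nonzero _ h4

theorem exists_soc [IsAlgClosed k] (hC : FinCat k C) (F : Fam C)
    (hinj : ∀ j, Injective (F.P j)) : Nonempty (Soc F) := by
  have h0 := fun j => Fam.P_not_isZero F j
  have := hC.artinian
  refine ⟨⟨fun j => simpleSubobject (h0 j), fun j => simpleSubobjectArrow (h0 j),
    fun j => inferInstance, fun j => ⟨hinj j, inferInstance, fun g hg => ?_⟩⟩⟩
  set i := simpleSubobjectArrow (h0 j) with hi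
  have hi0 : i ≠ 0 := by
    intro h
    have h1 : 𝟙 (simpleSubobject (h0 j)) = 0 := by
      rw [← cancel_mono i, h, comp_zero, comp_zero]
    exact id_nonzero _ h1
  have h1 : i ≫ (𝟙 _ - g) = 0 := by rw [Preadditive.comp_sub, hg, Category.comp_id, sub_self]
  have h2 : ¬ IsIso (𝟙 _ - g) := by
    intro h
    exact hi0 (by rw [← cancel_mono (𝟙 _ - g), h1, zero_comp])
  have := F.simple j
  have := (F.cov j).epi
  have he : F.e j ≠ 0 := by
    intro h3
    have h4 : 𝟙 (F.T j) = 0 := by
      rw [← cancel_epi (F.e j), h3]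
      simp
    exact id_nonzero _ h4
  have h3 : Module.finrank k (F.P j ⟶ F.T j) = 1 := by
    have := F.m_simple hC j j
    rwa [if_pos rfl] at this
  obtain ⟨c, hc⟩ := (finrank_eq_one_iff_of_nonzero' (F.e j) he).1 h3 ((𝟙 _ - g) ≫ F.e j)
  by_cases hc0 : c = 0
  · rw [hc0, zero_smul] at hc
    refine (F.cov j).iso g ?_
    rw [Preadditive.sub_comp, Category.id_comp] at hc
    exact (sub_eq_zero.1 hc.symm).symm
  · exfalso
    apply h2
    have h4 : IsIso (c⁻¹ • (𝟙 _ - g)) := (F.cov j).iso _ (by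
      rw [Linear.smul_comp, ← hc, smul_smul, inv_mul_cancel₀ hc0, one_smul])
    have h5 : 𝟙 _ - g = (c • 𝟙 _) ≫ (c⁻¹ • (𝟙 _ - g)) := by
      rw [Linear.smul_comp, Category.id_comp, smul_smul, mul_inv_cancel₀ hc0, one_smul]
    rw [h5]
    have h6 : IsIso (c • 𝟙 (F.P j)) := ⟨c⁻¹ • 𝟙 _, by
      rw [Linear.smul_comp, Category.id_comp, smul_smul, mul_inv_cancel₀ hc0, one_smul], by
      rw [Linear.smul_comp, Category.id_comp, smul_smul, inv_mul_cancel₀ hc0, one_smul]⟩
    infer_instance

namespace Soc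

variable {F : Fam C} (D : Soc F)

/-- The multiplicity of `F.P j` as a direct summand of `V`. -/
noncomputable def t (k : Type*) [Field k] [Linear k C] (j : Fin F.n) (V : C) : ℕ :=
  Module.finrank k (LinearMap.range (Linear.leftComp k V (D.i j)))

theorem t_iso (j : Fin F.n) {V W : C} (f : V ≅ W) : D.t k j V = D.t k j W := by
  have h1 : LinearMap.range (Linear.leftComp k W (D.i j)) =
      (LinearMap.range (Linear.leftComp k V (D.i j))).map
        (Linear.homCongr k (Iso.refl (D.S j)) f).toLinearMap := by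
    ext x
    constructor
    · rintro ⟨y, rfl⟩
      refine ⟨D.i j ≫ y ≫ f.inv, ⟨y ≫ f.inv, rfl⟩, ?_⟩
      simp [Linear.homCongr, Linear.leftComp, Linear.rightComp]
    · rintro ⟨_, ⟨y, rfl⟩, rfl⟩
      refine ⟨y ≫ f.hom, ?_⟩
      simp [Linear.homCongr, Linear.leftComp, Linear.rightComp]
  rw [t, t, h1]
  exact (LinearEquiv.finrank_map_eq _ _).symm

theorem t_biprod (hfin : ∀ X Y : C, Module.Finite k (X ⟶ Y)) (j : Fin F.n) (V W : C) :
    D.t k j (V ⊞ W) = D.t k j V + D.t k j W := by
  have := hfin (D.S j) V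
  have := hfin (D.S j) W
  let φ : (D.S j ⟶ V ⊞ W) ≃ₗ[k] (D.S j ⟶ V) × (D.S j ⟶ W) :=
    { toFun := fun f => (f ≫ biprod.fst, f ≫ biprod.snd)
      map_add' := fun f g => by simp
      map_smul' := fun c f => by simp
      invFun := fun p => biprod.lift p.1 p.2
      left_inv := fun f => by
        apply biprod.hom_ext <;> simp
      right_inv := fun p => by simp }
  let A := LinearMap.range (Linear.leftComp k V (D.i j))
  let B := LinearMap.range (Linear.leftComp k W (D.i j))
  have h1 : (LinearMap.range (Linear.leftComp k (V ⊞ W) (D.i j))).map φ.toLinearMap =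
      A.prod B := by
    ext ⟨x, y⟩
    constructor
    · rintro ⟨_, ⟨z, rfl⟩, hz⟩
      have hx : D.i j ≫ z ≫ biprod.fst = x := by
        have := congrArg Prod.fst hz
        simpa [φ, Linear.leftComp] using this
      have hy : D.i j ≫ z ≫ biprod.snd = y := by
        have := congrArg Prod.snd hz
        simpa [φ, Linear.leftComp] using this
      exact ⟨⟨z ≫ biprod.fst, hx⟩, ⟨z ≫ biprod.snd, hy⟩⟩
    · rintro ⟨⟨a, ha⟩, ⟨b, hb⟩⟩
      have ha : D.i j ≫ a = x := ha
      have hb : D.i j ≫ b = y := hb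
      refine ⟨D.i j ≫ biprod.lift a b, ⟨biprod.lift a b, rfl⟩, ?_⟩
      simp [φ, ha, hb]
  let ψ : (A.prod B) ≃ₗ[k] A × B :=
    { toFun := fun x => (⟨x.1.1, x.2.1⟩, ⟨x.1.2, x.2.2⟩)
      map_add' := fun x y => rfl
      map_smul' := fun c x => rfl
      invFun := fun x => ⟨(x.1.1, x.2.1), ⟨x.1.2, x.2.2⟩⟩
      left_inv := fun x => rfl
      right_inv := fun x => rfl }
  have h2 : D.t k j (V ⊞ W) = Module.finrank k (A.prod B) := by
    rw [← h1]
    exact (LinearEquiv.finrank_map_eq φ _).symm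
  rw [h2, ψ.finrank_eq, Module.finrank_prod]
  rfl

theorem t_eq_zero_iff (hfin : ∀ X Y : C, Module.Finite k (X ⟶ Y)) (j : Fin F.n) (V : C) :
    D.t k j V = 0 ↔ ∀ f : F.P j ⟶ V, D.i j ≫ f = 0 := by
  have := hfin (D.S j) V
  rw [t, Submodule.finrank_eq_zero, LinearMap.range_eq_bot]
  constructor
  · intro h f
    exact LinearMap.congr_fun h f
  · intro h
    exact LinearMap.ext h

theorem i_ne_zero (j : Fin F.n) : D.i j ≠ 0 := by
  intro h
  have := D.simple j
  have := (D.hull j).mono
  have h1 : 𝟙 (D.S j) = 0 := by rw [← cancel_mono (D.i j), h, comp_zero, comp_zero]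
  exact id_nonzero _ h1

/-- A map `P j ⟶ V` which is not zero on the socle exhibits `P j` as a direct summand. -/
theorem split_of_ne {j : Fin F.n} {V : C} (f : F.P j ⟶ V) (hf : D.i j ≫ f ≠ 0) :
    Mono f ∧ Nonempty (V ≅ F.P j ⊞ cokernel f) := by
  have := D.simple j
  have hm : Mono f := (D.hull j).mono_of f hf
  have := (D.hull j).inj
  refine ⟨hm, ?_⟩
  let S := ShortComplex.mk f (cokernel.π f) (cokernel.condition f)
  have hS : S.Exact := ShortComplex.exact_cokernel f
  let sp : S.Splitting := ShortComplex.Splitting.ofExactOfRetraction S hS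
    (Injective.factorThru (𝟙 _) f) (Injective.comp_factorThru _ _)
    (inferInstanceAs (Epi (cokernel.π f)))
  exact ⟨sp.isoBinaryBiproduct⟩

theorem t_P [IsAlgClosed k] (hC : FinCat k C) (i j : Fin F.n) :
    D.t k j (F.P i) = if i = j then 1 else 0 := by
  have := hC.hom_finite
  by_cases hij : i = j
  · subst hij
    rw [if_pos rfl]
    have := D.simple i
    have h1 : Module.finrank k (D.S i ⟶ F.P i) = 1 := by
      classical
      rw [(D.hull i).finrank_simple hC.hom_finite, if_pos ⟨Iso.refl _⟩]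
    have h2 : D.t k i (F.P i) ≤ 1 := by
      rw [← h1]
      exact Submodule.finrank_le _
    have h3 : D.t k i (F.P i) ≠ 0 := by
      rw [Ne, D.t_eq_zero_iff hC.hom_finite]
      intro h
      have := h (𝟙 _)
      rw [Category.comp_id] at this
      exact D.i_ne_zero i this
    omega
  · rw [if_neg hij, D.t_eq_zero_iff hC.hom_finite]
    intro f
    by_contra hf
    obtain ⟨hm, ⟨e⟩⟩ := D.split_of_ne f hf
    apply hij
    -- `P j` is a summand of `P i`
    let r : F.P i ⟶ F.P j := e.hom ≫ biprod.fst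
    let s : F.P j ⟶ F.P i := biprod.inl ≫ e.inv
    have hsr : s ≫ r = 𝟙 _ := by simp [s, r]
    have := F.simple i
    have := F.simple j
    have := (F.cov j).epi
    have h1 : r ≫ F.e j ≠ 0 := by
      intro h
      have h2 : F.e j = 0 := by
        rw [← Category.id_comp (F.e j), ← hsr, Category.assoc, h, comp_zero]
      have h4 : 𝟙 (F.T j) = 0 := by
        rw [← cancel_epi (F.e j), h2]
        simp
      exact id_nonzero _ h4
    have h2 : F.m k i (F.T j) ≠ 0 := by
      have := F.m_pos hC i (r ≫ F.e j) h1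
      omega
    by_contra h3
    apply h2
    rw [F.m_simple hC i j, if_neg h3]

theorem exists_dec [IsAlgClosed k] (hC : FinCat k C) (V : C) :
    ∃ (T N : C), Projective T ∧ Nonempty (V ≅ T ⊞ N) ∧ ∀ j, D.t k j N = 0 := by
  induction hn : F.len k V using Nat.strong_induction_on generalizing V with
  | _ n ih =>
    by_cases h : ∀ j, D.t k j V = 0
    · refine ⟨0, V, inferInstance, ⟨?_⟩, h⟩
      exact
        { hom := biprod.inr
          inv := biprod.snd
          hom_inv_id := by simp
          inv_hom_id := by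
            apply biprod.hom_ext'
            · exact (isZero_zero C).eq_of_src _ _
            · simp }
    · push Not at h
      obtain ⟨j, hj⟩ := h
      rw [Ne, D.t_eq_zero_iff hC.hom_finite] at hj
      push Not at hj
      obtain ⟨f, hf⟩ := hj
      obtain ⟨hm, ⟨e⟩⟩ := D.split_of_ne f hf
      have h1 := F.len_add hC (Fam.ses_mono f)
      have h2 : 0 < F.len k (F.P j) := F.len_pos hC (Fam.P_not_isZero F j)
      simp only at h1
      obtain ⟨T, N, hT, ⟨g⟩, hN⟩ := ih (F.len k (cokernel f)) (by omega) (cokernel f) rfl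
      have := (F.cov j).proj
      refine ⟨F.P j ⊞ T, N, inferInstance, ⟨?_⟩, hN⟩
      exact e ≪≫ biprod.mapIso (Iso.refl _) g ≪≫ (biprod.associator _ _ _).symm

end Soc

end Frob

section Dimension

variable {k : Type*} [Field k] {R : Type u} [Category.{v} R] [Abelian R] [Linear k R]
  [MonoidalCategory R] [MonoidalPreadditive R] [MonoidalLinear k R] [RigidCategory R]

/-- The dimension of the part of `V` without projective direct summands. -/
noncomputable def Soc.nn (k : Type*) [Field k] [Linear k R] {F : Fam R} (D : Soc F) (d : R → ℝ)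
    (V : R) : ℝ := d V - ∑ j, (D.t k j V : ℝ) * d (F.P j)

theorem DimFun.biprod {d : R → ℝ} (hd : DimFun d) (V W : R) : d (V ⊞ W) = d V + d W :=
  hd.add (ses_biprod V W)

namespace Soc

variable {F : Fam R} (D : Soc F) {d : R → ℝ} (hd : DimFun d)

include hd

theorem nn_iso {V W : R} (e : V ≅ W) : D.nn k d V = D.nn k d W := by
  rw [nn, nn, hd.iso e]
  simp only [D.t_iso _ e]

theorem nn_biprod (hfin : ∀ X Y : R, Module.Finite k (X ⟶ Y)) (V W : R) :
    D.nn k d (V ⊞ W) = D.nn k d V + D.nn k d W := by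
  rw [nn, nn, nn, DimFun.biprod hd]
  simp only [D.t_biprod hfin, Nat.cast_add, add_mul, Finset.sum_add_distrib]
  ring

theorem nn_P [IsAlgClosed k] (hR : FinCat k R) (i : Fin F.n) : D.nn k d (F.P i) = 0 := by
  rw [nn, Finset.sum_eq_single i]
  · rw [D.t_P hR, if_pos rfl, Nat.cast_one, one_mul, sub_self]
  · intro j _ hj
    rw [D.t_P hR, if_neg (fun h => hj h.symm), Nat.cast_zero, zero_mul]
  · intro h
    exact absurd (Finset.mem_univ i) h

theorem nn_proj [IsAlgClosed k] (hR : FinCat k R) (V : R) (hV : Projective V) :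
    D.nn k d V = 0 := by
  rw [F.proj_dec hR (D.nn k d) (fun X Y ⟨e⟩ => D.nn_iso hd e)
    (D.nn_biprod hd hR.hom_finite) V hV]
  exact Finset.sum_eq_zero fun i _ => by rw [D.nn_P hd hR, mul_zero]

theorem nn_le [IsAlgClosed k] (hR : FinCat k R) (V : R) : D.nn k d V ≤ d V := by
  have : 0 ≤ ∑ j, (D.t k j V : ℝ) * d (F.P j) :=
    Finset.sum_nonneg fun j _ => mul_nonneg (Nat.cast_nonneg _) (hd.nonneg hR _)
  rw [nn]
  linarith

omit hd in
theorem nn_of_t {V : R} (h : ∀ j, D.t k j V = 0) : D.nn k d V = d V := by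
  rw [nn, Finset.sum_eq_zero fun j _ => ?_, sub_zero]
  rw [h, Nat.cast_zero, zero_mul]

/-- Every object is `T ⊞ N` with `T` projective and `nn (T ⊞ N) = d N`. -/
theorem exists_dec_nn [IsAlgClosed k] (hR : FinCat k R) (V : R) :
    ∃ (T N : R), Projective T ∧ Nonempty (V ≅ T ⊞ N) ∧ D.nn k d V = d N ∧
      D.nn k d N = d N := by
  obtain ⟨T, N, hT, ⟨e⟩, hN⟩ := D.exists_dec (k := k) hR V
  refine ⟨T, N, hT, ⟨e⟩, ?_, D.nn_of_t hN⟩
  rw [D.nn_iso hd e, D.nn_biprod hd hR.hom_finite, D.nn_proj hd hR T hT, zero_add,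
    D.nn_of_t hN]

theorem nn_nonneg [IsAlgClosed k] (hR : FinCat k R) (V : R) : 0 ≤ D.nn k d V := by
  obtain ⟨T, N, -, -, h, -⟩ := D.exists_dec_nn (k := k) hd hR V
  rw [h]
  exact hd.nonneg hR N

theorem proj_of_nn [IsAlgClosed k] (hR : FinCat k R) (V : R) (h : D.nn k d V = 0) :
    Projective V := by
  obtain ⟨T, N, hT, ⟨e⟩, h1, -⟩ := D.exists_dec_nn (k := k) hd hR V
  have hN : IsZero N := by
    by_contra hN
    have := hd.pos hN
    linarith
  have : Projective N := ⟨fun {E X} f g hg => ⟨0, by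
    rw [zero_comp]
    exact hN.eq_of_src _ _⟩⟩
  exact Projective.of_iso e.symm inferInstance

theorem nn_tensor_le [IsAlgClosed k] (hR : FinCat k R) (V W : R) :
    D.nn k d (V ⊗ W) ≤ D.nn k d V * D.nn k d W := by
  obtain ⟨T, N, hT, ⟨e⟩, h1, -⟩ := D.exists_dec_nn (k := k) hd hR V
  obtain ⟨T', N', hT', ⟨e'⟩, h1', -⟩ := D.exists_dec_nn (k := k) hd hR W
  have hTW : Projective (T ⊗ W) := projective_tensorRight T W
  have hNT : Projective (N ⊗ T') := by
    have : Projective ((tensorLeft N).obj T') :=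
      (tensorLeftAdjunction (ᘁN) N).map_projective T' hT'
    exact this
  have : PreservesBinaryBiproducts (tensorRight W) :=
    preservesBinaryBiproducts_of_preservesBiproducts _
  have : PreservesBinaryBiproducts (tensorLeft N) :=
    preservesBinaryBiproducts_of_preservesBiproducts _
  let a : V ⊗ W ≅ (T ⊗ W) ⊞ (N ⊗ W) :=
    whiskerRightIso e W ≪≫ (tensorRight W).mapBiprod T N
  let b : N ⊗ W ≅ (N ⊗ T') ⊞ (N ⊗ N') :=
    whiskerLeftIso N e' ≪≫ (tensorLeft N).mapBiprod T' N'
  rw [D.nn_iso hd a, D.nn_biprod hd hR.hom_finite, D.nn_proj hd hR _ hTW, zero_add,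
    D.nn_iso hd b, D.nn_biprod hd hR.hom_finite, D.nn_proj hd hR _ hNT, zero_add, h1, h1',
    ← hd.mul]
  exact D.nn_le hd hR _

theorem isZero_of_mono [IsAlgClosed k] (hR : FinCat k R)
    (hinj : ∀ P : R, Projective P → Injective P) (V : R) (h : d V ≤ D.nn k d V)
    (Q : R) (hQ : Projective Q) (f : Q ⟶ V) (hf : Mono f) : IsZero Q := by
  -- `V ≅ Q ⊞ W`
  have := hinj Q hQ
  let S := ShortComplex.mk f (cokernel.π f) (cokernel.condition f)
  have hS : S.Exact := ShortComplex.exact_cokernel f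
  let sp : S.Splitting := ShortComplex.Splitting.ofExactOfRetraction S hS
    (Injective.factorThru (𝟙 _) f) (Injective.comp_factorThru _ _)
    (inferInstanceAs (Epi (cokernel.π f)))
  have e : V ≅ Q ⊞ cokernel f := sp.isoBinaryBiproduct
  by_contra hZ
  have h1 := hd.pos hZ
  rw [hd.iso e, DimFun.biprod hd, D.nn_iso hd e, D.nn_biprod hd hR.hom_finite,
    D.nn_proj hd hR Q hQ, zero_add] at h
  have h2 := D.nn_le (k := k) hd hR (cokernel f)
  linarith

end Soc

/-- Row EOa: the dimension of the non-projective part. -/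
theorem exists_n [IsAlgClosed k] (hR : IsFinite k R) {d : R → ℝ} (hd : DimFun d) :
    ∃ n : R → ℝ, (∀ V W : R, Nonempty (V ≅ W) → n V = n W) ∧
      (∀ V W : R, n (V ⊞ W) = n V + n W) ∧ (∀ V, 0 ≤ n V) ∧ (∀ V, n V ≤ d V) ∧
      (∀ V W, n (V ⊗ W) ≤ n V * n W) ∧ (∀ V, n V = 0 → Projective V) ∧
      (∀ V, Projective V → n V = 0) ∧
      (∀ V, d V ≤ n V → ∀ Q : R, Projective Q → ∀ f : Q ⟶ V, Mono f → IsZero Q) := by
  have hR' := hR.finCat
  obtain ⟨F⟩ := exists_fam hR'
  have hinj : ∀ P : R, Projective P → Injective P := fun P _ => injective_of_projective P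
  obtain ⟨D⟩ := exists_soc hR' F (fun j => hinj _ (F.cov j).proj)
  exact ⟨D.nn k d, fun V W ⟨e⟩ => D.nn_iso hd e, D.nn_biprod hd hR'.hom_finite,
    D.nn_nonneg hd hR', D.nn_le hd hR', D.nn_tensor_le hd hR', D.proj_of_nn hd hR',
    D.nn_proj hd hR', D.isZero_of_mono hd hR' hinj⟩

end Dimension

end Pool.Agent.RC40
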