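import Pool.Agent.MUG.CF2

/-!
# Right exact functors of finite abelian categories have right adjoints (row ADJ, helper78)
-/

open CategoryTheory Limits ZeroObject

universe v u v₁ u₁

set_option linter.unusedSectionVars false

noncomputable section

namespace Pool.Agent.RC40

open Pool.Agent.MUG

section Adj

variable {k : Type*} [Field k] {X : Type u} [Category.{v} X] [Abelian X] [Linear k X]
  {R : Type u₁} [Category.{v₁} R] [Abelian R] [Linear k R]

/-- `e` detects zero morphisms. -/
def Fth (U : X ⥤ R) {N : X} {M : R} (e : U.obj N ⟶ M) : Prop :=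
  ∀ {V : X} (v : V ⟶ N), U.map v ≫ e = 0 → v = 0

theorem exists_fth (hX : FinCat k X) (U : X ⥤ R) [U.Additive] [PreservesFiniteColimits U]
    {N : X} {M : R} (e : U.obj N ⟶ M) :
    ∃ (N' : X) (p : N ⟶ N') (e' : U.obj N' ⟶ M), U.map p ≫ e' = e ∧ Fth U e' := by
  classical
  obtain ⟨F⟩ := exists_fam hX
  let S : Set ℕ := {n | ∃ (N' : X) (p : N ⟶ N') (e' : U.obj N' ⟶ M),
    U.map p ≫ e' = e ∧ F.len k N' = n}
  have hne : S.Nonempty := ⟨_, N, 𝟙 N, e, by simp, rfl⟩
  obtain ⟨N', p, e', h1, h2⟩ : sInf S ∈ S := Nat.sInf_mem hne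
  refine ⟨N', p, e', h1, ?_⟩
  intro V v hv
  by_contra hne'
  let e2 : U.obj (cokernel v) ⟶ M :=
    (PreservesCokernel.iso U v).hom ≫ cokernel.desc (U.map v) e' hv
  have h3 : U.map (cokernel.π v) ≫ e2 = e' := by
    change U.map (cokernel.π v) ≫ (PreservesCokernel.iso U v).hom ≫ _ = _
    rw [PreservesCokernel.π_iso_hom_assoc, cokernel.π_desc]
  have h4 : sInf S ≤ F.len k (cokernel v) := by
    apply Nat.sInf_le
    refine ⟨cokernel v, p ≫ cokernel.π v, e2, ?_, rfl⟩
    rw [U.map_comp, Category.assoc, h3, h1]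
  have h5 := F.len_add hX (Fam.ses_epi (cokernel.π v))
  simp only at h5
  have h6 : F.len k (kernel (cokernel.π v)) = 0 := by omega
  have h7 : Mono (cokernel.π v) :=
    Preadditive.mono_of_isZero_kernel _ ((F.len_eq_zero_iff hX _).1 h6)
  apply hne'
  rw [← cancel_mono (cokernel.π v), cokernel.condition, zero_comp]

theorem exists_univ (hX : FinCat k X) (hR : ∀ A B : R, Module.Finite k (A ⟶ B))
    (U : X ⥤ R) [U.Additive] [U.Linear k] [PreservesFiniteColimits U] (M : R) :
    ∃ (N : X) (e : U.obj N ⟶ M), Fth U e ∧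
      ∀ (V : X) (f : U.obj V ⟶ M), ∃ t : V ⟶ N, U.map t ≫ e = f := by
  classical
  obtain ⟨F⟩ := exists_fam hX
  let S : Set ℕ := {n | ∃ (N : X) (e : U.obj N ⟶ M), Fth U e ∧ F.len k N = n}
  have hbdd : ∀ n ∈ S, n ≤ ∑ i, Module.finrank k (U.obj (F.P i) ⟶ M) := by
    rintro n ⟨N, e, he, rfl⟩
    refine Finset.sum_le_sum fun i _ => ?_
    let φ : (F.P i ⟶ N) →ₗ[k] (U.obj (F.P i) ⟶ M) :=
      { toFun := fun v => U.map v ≫ e
        map_add' := fun v w => by rw [U.map_add, Preadditive.add_comp]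
        map_smul' := fun c v => by
          rw [Functor.map_smul, Linear.smul_comp]; rfl }
    have hφ : Function.Injective φ := by
      rw [← LinearMap.ker_eq_bot, LinearMap.ker_eq_bot']
      exact fun v hv => he v hv
    have := hR (U.obj (F.P i)) M
    exact LinearMap.finrank_le_finrank_of_injective hφ
  have hne : S.Nonempty := by
    obtain ⟨N', -, e', -, h⟩ := exists_fth hX U (N := (0 : X)) (M := M) 0
    exact ⟨_, N', e', h, rfl⟩
  have hB : BddAbove S := ⟨_, fun n hn => hbdd n hn⟩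
  obtain ⟨N, e, he, hlen⟩ : sSup S ∈ S := Nat.sSup_mem hne hB
  refine ⟨N, e, he, fun V f => ?_⟩
  let g : U.obj (N ⊞ V) ⟶ M := U.map biprod.fst ≫ e + U.map biprod.snd ≫ f
  obtain ⟨N', p, e', h1, h2⟩ := exists_fth hX U g
  have g1 : U.map (biprod.inl : N ⟶ N ⊞ V) ≫ g = e := by
    simp only [g, Preadditive.comp_add, ← Category.assoc, ← U.map_comp]
    simp
  have g2 : U.map (biprod.inr : V ⟶ N ⊞ V) ≫ g = f := by
    simp only [g, Preadditive.comp_add, ← Category.assoc, ← U.map_comp]
    simp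
  let j : N ⟶ N' := biprod.inl ≫ p
  have hj : U.map j ≫ e' = e := by
    rw [U.map_comp, Category.assoc, h1, g1]
  have hjm : Mono j := by
    refine Preadditive.mono_of_cancel_zero _ fun {G} v hv => he v ?_
    rw [← hj, ← Category.assoc, ← U.map_comp, hv, U.map_zero, zero_comp]
  have hlen2 : F.len k N' ≤ F.len k N := by
    rw [hlen]
    exact le_csSup hB ⟨N', e', h2, rfl⟩
  have hje : Epi j := by
    have h3 := F.len_add hX (Fam.ses_mono j)
    simp only at h3
    have h4 : F.len k (cokernel j) = 0 := by omega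
    exact Preadditive.epi_of_isZero_cokernel _ ((F.len_eq_zero_iff hX _).1 h4)
  have hji : IsIso j := isIso_of_mono_of_epi _
  refine ⟨biprod.inr ≫ p ≫ inv j, ?_⟩
  have h5 : U.map (inv j) ≫ e = e' := by
    rw [← hj, ← Category.assoc, ← U.map_comp, IsIso.inv_hom_id, U.map_id, Category.id_comp]
  rw [U.map_comp, U.map_comp, Category.assoc, Category.assoc, h5, h1, g2]

/-- Row ADJ. -/
theorem isLeftAdjoint_of_exact (hX : FinCat k X) (hR : ∀ A B : R, Module.Finite k (A ⟶ B))
    (U : X ⥤ R) [U.Additive] [U.Linear k] [PreservesFiniteColimits U] : U.IsLeftAdjoint := by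
  have : ∀ M : R, HasTerminal (CostructuredArrow U M) := by
    intro M
    obtain ⟨N, e, he, hu⟩ := exists_univ hX hR U M
    refine IsTerminal.hasTerminal (X := CostructuredArrow.mk e) ?_
    refine IsTerminal.ofUniqueHom
      (fun Y => CostructuredArrow.homMk (hu Y.left Y.hom).choose (hu Y.left Y.hom).choose_spec) ?_
    intro Y m
    ext
    rw [← sub_eq_zero]
    apply he
    rw [U.map_sub, Preadditive.sub_comp, sub_eq_zero]
    exact (CostructuredArrow.w m).trans (hu Y.left Y.hom).choose_spec.symm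
  exact isLeftAdjoint_of_costructuredArrowTerminals U

end Adj

end Pool.Agent.RC40
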