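import Pool.Agent.MUG.Conv

/-!
# FGC passes along an exact monoidal functor that preserves projectives
(MP_388894, row TRF, helper45)
-/

open CategoryTheory MonoidalCategory Limits Abelian

universe w w' v u v₁ u₁

set_option backward.isDefEq.respectTransparency.types false
set_option linter.unusedSectionVars false

noncomputable section

namespace Pool.Agent.RC40

open Pool.Agent.MUG Pool.Agent.MUG.Tr
open Pool.Agent.MUE79 (adjTo adjFrom adjFrom_adjTo adjTo_comp adjTo_map_comp)

section Right

variable {X : Type u} [Category.{v} X] [Abelian X]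
  {R : Type u₁} [Category.{v₁} R] [Abelian R]

/-- The right adjoint of a functor preserving projectives preserves epimorphisms. -/
theorem rightAdjoint_epi [EnoughProjectives X] {U : X ⥤ R} {G : R ⥤ X} (adj : U ⊣ G)
    (hproj : ∀ P : X, Projective P → Projective (U.obj P)) : G.PreservesEpimorphisms where
  preserves {M N} f hf := by
    have h1 : Projective (Projective.over (G.obj N)) := inferInstance
    have h2 : Projective (U.obj (Projective.over (G.obj N))) := hproj _ h1
    let a : U.obj (Projective.over (G.obj N)) ⟶ N :=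
      (adj.homEquiv _ _).symm (Projective.π (G.obj N))
    let b : U.obj (Projective.over (G.obj N)) ⟶ M := Projective.factorThru a f
    have h3 : b ≫ f = a := Projective.factorThru_comp a f
    have h4 : (adj.homEquiv _ _) b ≫ G.map f = Projective.π (G.obj N) := by
      rw [← Adjunction.homEquiv_naturality_right, h3]
      exact Equiv.apply_symm_apply _ _
    have h5 : Epi ((adj.homEquiv _ _) b ≫ G.map f) := by
      rw [h4]
      infer_instance
    exact epi_of_epi ((adj.homEquiv _ _) b) (G.map f)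

/-- The right adjoint of an exact functor preserving projectives is right exact. -/
theorem rightAdjoint_pfc [EnoughProjectives X] {U : X ⥤ R} {G : R ⥤ X} (adj : U ⊣ G)
    [G.Additive] [PreservesFiniteLimits G]
    (hproj : ∀ P : X, Projective P → Projective (U.obj P)) : PreservesFiniteColimits G := by
  have := rightAdjoint_epi adj hproj
  have h : G.PreservesHomology := by
    apply Functor.preservesHomology_of_preservesEpis_and_kernels
  exact Functor.preservesFiniteColimits_of_preservesHomology G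

end Right

section Trf

variable {k : Type*} [Field k] {X : Type u} [Category.{v} X] [Abelian X] [Linear k X]
  [MonoidalCategory X] [MonoidalPreadditive X] [MonoidalLinear k X] [RigidCategory X]
  {R : Type u₁} [Category.{v₁} R] [Abelian R] [Linear k R]
  [MonoidalCategory R] [MonoidalPreadditive R] [MonoidalLinear k R] [RigidCategory R]

section Phi

variable [HasExt.{w} X] [HasExt.{w'} R] [EnoughProjectives X] [EnoughProjectives R]
  {U : X ⥤ R} [U.Additive] [U.Monoidal] [PreservesFiniteLimits U] [PreservesFiniteColimits U]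
  {G : R ⥤ X} (adj : U ⊣ G) [G.Additive] [PreservesFiniteLimits G] [PreservesFiniteColimits G]

variable (k) in
/-- `Ext(1, G M) → Ext(1, M)`. -/
def phiL [U.Linear k] (M : R) (n : ℕ) :
    Ext.{w} (𝟙_ X) (G.obj M) n →ₗ[k] Ext.{w'} (𝟙_ R) M n where
  toFun β := pre (Functor.LaxMonoidal.ε U) (adjFrom adj (X := 𝟙_ X) (Y := M) β)
  map_add' β γ := by
    unfold adjFrom pre
    rw [Ext.mapExactFunctor_add, Ext.add_comp, Ext.comp_add]
  map_smul' c β := by
    unfold adjFrom pre
    rw [Functor.mapExactFunctor_smul, Ext.smul_comp, Ext.comp_smul]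
    rfl

variable (k) in
theorem phiL_surjective [U.Linear k] (M : R) (n : ℕ) :
    Function.Surjective (phiL.{w, w'} k adj M n) := by
  intro γ
  refine ⟨adjTo adj (X := 𝟙_ X) (Y := M) (pre (Functor.OplaxMonoidal.η U) γ), ?_⟩
  change pre (Functor.LaxMonoidal.ε U) (adjFrom adj (X := 𝟙_ X) (Y := M)
    (adjTo adj (X := 𝟙_ X) (Y := M) (pre (Functor.OplaxMonoidal.η U) γ))) = γ
  rw [adjFrom_adjTo, pre_pre, Functor.Monoidal.ε_η, pre_id]

variable (k) in
theorem phiL_comp [U.Linear k] (M : R) {m n c : ℕ} (h : m + n = c)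
    (ζ : Ext.{w} (𝟙_ X) (𝟙_ X) m) (β : Ext.{w} (𝟙_ X) (G.obj M) n) :
    phiL.{w, w'} k adj M c (ζ.comp β h) =
      (hat U ζ : Ext.{w'} (𝟙_ R) (𝟙_ R) m).comp (phiL.{w, w'} k adj M n β) h := by
  change pre (Functor.LaxMonoidal.ε U) (adjFrom adj (X := 𝟙_ X) (Y := M) (ζ.comp β h)) =
    (pre (Functor.LaxMonoidal.ε U) (post (ζ.mapExactFunctor U)
      (Functor.OplaxMonoidal.η U))).comp
      (pre (Functor.LaxMonoidal.ε U) (adjFrom adj (X := 𝟙_ X) (Y := M) β)) h
  rw [← pre_comp, post_comp, pre_pre, Functor.Monoidal.η_ε, pre_id]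
  congr 1
  unfold adjFrom
  rw [Ext.mapExactFunctor_comp]
  exact Ext.comp_assoc_of_third_deg_zero _ _ _ _

include adj in
/-- `Ext(1, M)` is finitely generated over the image of `Ext(1,1)`. -/
theorem star_of_adj [U.Linear k] (hF : FGC.{w} k X) (M : R) :
    ∃ (r : ℕ) (D : Fin r → ℕ) (g : ∀ a, Ext.{w'} (𝟙_ R) M (D a)),
      ∀ A : ∀ n, Submodule k (Ext.{w'} (𝟙_ R) M n),
        (∀ (m : ℕ) (z : Ext.{w} (𝟙_ X) (𝟙_ X) m) (n c : ℕ) (h : m + n = c)
          (β : Ext.{w'} (𝟙_ R) M n), β ∈ A n →
            (hat U z : Ext.{w'} (𝟙_ R) (𝟙_ R) m).comp β h ∈ A c) →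
        (∀ a, g a ∈ A (D a)) → ∀ n, A n = ⊤ := by
  obtain ⟨r, D, y, hy⟩ := hF.mod (𝟙_ X) (G.obj M)
  refine ⟨r, D, fun a => phiL.{w, w'} k adj M (D a) (y a), fun A h1 h2 n => ?_⟩
  have h3 := hy (fun n => (A n).comap (phiL.{w, w'} k adj M n)) h2 ?_ n
  · rw [eq_top_iff]
    intro γ _
    obtain ⟨β, rfl⟩ := phiL_surjective.{w, w'} k adj M n γ
    have h4 : β ∈ (A n).comap (phiL.{w, w'} k adj M n) := by
      rw [h3]
      trivial
    exact h4
  · intro m n ζ b hb
    rw [act_unit]
    change phiL.{w, w'} k adj M (m + n) (ζ.comp b rfl) ∈ A (m + n)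
    rw [phiL_comp]
    exact h1 m ζ n (m + n) rfl _ hb

end Phi

/-- Row TRF (file RC40/TRF.lean); `U.IsLeftAdjoint` from row ADJ. -/
theorem fgc_of_map_projective [HasExt.{w} X] [HasExt.{w'} R] (hX : IsFinite k X)
    (hR : IsFinite k R) (U : X ⥤ R) [U.Additive] [U.Linear k] [U.Monoidal]
    [PreservesFiniteLimits U] [PreservesFiniteColimits U] (hadj : U.IsLeftAdjoint)
    (hproj : ∀ P : X, Projective P → Projective (U.obj P)) (hF : FGC.{w} k X) :
    FGC.{w'} k R := by
  have := hX.enough
  have := hR.enough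
  obtain ⟨G, ⟨adj⟩⟩ := hadj
  have hadd : G.Additive := adj.right_adjoint_additive
  have hfl : PreservesFiniteLimits G := by
    have : G.IsRightAdjoint := ⟨_, ⟨adj⟩⟩
    exact ⟨fun _ _ _ => inferInstance⟩
  have hfc : PreservesFiniteColimits G := rightAdjoint_pfc adj hproj
  have hstar := star_of_adj.{w, w'} (k := k) adj hF
  constructor
  · obtain ⟨r, d, x, hx⟩ := hF.alg
    obtain ⟨R', D, g, hG⟩ := hstar (𝟙_ R)
    obtain ⟨s, d', y, hy⟩ := exists_fin (ι := Fin r ⊕ Fin R')
      (M := fun n => Ext.{w'} (𝟙_ R) (𝟙_ R) n)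
      (Sum.elim d D)
      (fun p => match p with
        | Sum.inl l => hat U (x l)
        | Sum.inr a => g a)
    refine ⟨s, d', y, ?_⟩
    intro B h1 h2 h3
    have h4 := hy (fun n x => x ∈ B n) h2
    have h5 : ∀ n, (B n).comap (hatL.{w', w} (k := k) U n) = ⊤ := by
      refine hx (fun n => (B n).comap (hatL.{w', w} (k := k) U n)) ?_ ?_ ?_
      · change hat U _ ∈ B 0
        rw [hat_one]
        exact h1
      · intro l
        exact h4 (Sum.inl l)
      · intro m n a c ha hc
        change hat U _ ∈ B (m + n)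
        rw [hat_comp]
        exact h3 m n _ _ ha hc
    refine hG B ?_ ?_
    · intro m z n c h β hβ
      obtain rfl : m + n = c := h
      have h6 : z ∈ (B m).comap (hatL.{w', w} (k := k) U m) := by
        rw [h5]
        trivial
      exact h3 m n _ _ h6 hβ
    · intro a
      exact h4 (Sum.inr a)
  · intro M N
    obtain ⟨R', D, g, hG⟩ := hstar (N ⊗ Mᘁ)
    -- generators
    have hsurj : ∀ a, ∃ y : Ext.{w'} M N (D a), psi k M N (D a) y = g a := by
      intro a
      refine ⟨pre (λ_ M).inv
        (adjFrom (tensorRightAdjunction M (Mᘁ)) (X := 𝟙_ R) (Y := N) (g a)), ?_⟩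
      rw [psi_apply]
      have h1 : pre (X := (tensorRight M).obj (𝟙_ R)) (λ_ M).hom (pre (λ_ M).inv
          (adjFrom (tensorRightAdjunction M (Mᘁ)) (X := 𝟙_ R) (Y := N) (g a))) =
          adjFrom (tensorRightAdjunction M (Mᘁ)) (X := 𝟙_ R) (Y := N) (g a) := by
        rw [pre_pre, Iso.hom_inv_id]
        exact pre_id _
      rw [h1]
      exact Pool.Agent.MUE79.adjTo_adjFrom _ _
    choose y hy using hsurj
    refine ⟨R', D, y, ?_⟩
    intro B h1 h2 n
    have h3 := hG (fun n => (B n).map (psi k M N n)) ?_ ?_ n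
    · rw [eq_top_iff]
      intro β _
      have h4 : psi k M N n β ∈ (B n).map (psi k M N n) := by
        have h5 : (B n).map (psi k M N n) = ⊤ := h3
        rw [h5]
        trivial
      obtain ⟨β', hβ', he⟩ := Submodule.mem_map.1 h4
      rw [psi_injective (k := k) M N n _ _ he] at hβ'
      exact hβ'
    · intro m z n c h β hβ
      obtain rfl : m + n = c := h
      obtain ⟨β', hβ', rfl⟩ := Submodule.mem_map.1 hβ
      exact Submodule.mem_map.2 ⟨_, h2 m n (hat U z) β' hβ', psi_act M N rfl _ _⟩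
    · intro a
      exact Submodule.mem_map.2 ⟨y a, h1 a, hy a⟩

end Trf

end Pool.Agent.RC40
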