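import Pool.Agent.RC40.Def
import Pool.Agent.MUG.CenAb
import Pool.Agent.MUG.Sub

/-! The relative center of an abelian rigid monoidal category is abelian (row AB, helper27),
a copy of MUG/CenAb. -/

open CategoryTheory MonoidalCategory Limits Abelian

universe w w' v v' u u'

namespace Pool.Agent.RC40

open Pool.Agent.MUG

set_option linter.unusedSectionVars false
set_option backward.isDefEq.respectTransparency.types false

noncomputable section

section Pre

variable {C : Type u} [Category.{v} C] [MonoidalCategory C] [Preadditive C]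
  [MonoidalPreadditive C]

variable (P : ObjectProperty C) [P.IsMonoidal]

section

variable {P} (X Y : RCen P)

instance rcZero : Zero (X ⟶ Y) := ⟨⟨0, fun U hU => by simp⟩⟩

instance rcAdd : Add (X ⟶ Y) := ⟨fun f g => ⟨f.f + g.f, fun U hU => by
  rw [MonoidalPreadditive.add_whiskerRight, MonoidalPreadditive.whiskerLeft_add,
    Preadditive.add_comp, Preadditive.comp_add, f.comm U hU, g.comm U hU]⟩⟩

instance rcNeg : Neg (X ⟶ Y) := ⟨fun f => ⟨-f.f, fun U hU => by
  rw [cen_neg_whiskerRight, cen_whiskerLeft_neg, Preadditive.neg_comp, Preadditive.comp_neg,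
    f.comm U hU]⟩⟩

instance rcSub : Sub (X ⟶ Y) := ⟨fun f g => f + -g⟩

instance rcSMulN : SMul ℕ (X ⟶ Y) := ⟨fun n f => ⟨n • f.f, fun U hU => by
  have h1 : (n • f.f) ▷ U = n • (f.f ▷ U) := (tensorRight U).map_nsmul
  have h2 : U ◁ (n • f.f) = n • (U ◁ f.f) := (tensorLeft U).map_nsmul
  rw [h1, h2, Preadditive.nsmul_comp, Preadditive.comp_nsmul, f.comm U hU]⟩⟩

instance rcSMulZ : SMul ℤ (X ⟶ Y) := ⟨fun n f => ⟨n • f.f, fun U hU => by
  have h1 : (n • f.f) ▷ U = n • (f.f ▷ U) := (tensorRight U).map_zsmul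
  have h2 : U ◁ (n • f.f) = n • (U ◁ f.f) := (tensorLeft U).map_zsmul
  rw [h1, h2, Preadditive.zsmul_comp, Preadditive.comp_zsmul, f.comm U hU]⟩⟩

instance rcHomGroup : AddCommGroup (X ⟶ Y) :=
  Function.Injective.addCommGroup (fun f : X ⟶ Y => (f.f : X.1 ⟶ Y.1))
    (fun _ _ h => RCen.ext _ _ h) rfl (fun _ _ => rfl) (fun _ => rfl)
    (fun f g => (sub_eq_add_neg f.f g.f).symm) (fun _ _ => rfl) (fun _ _ => rfl)

end

instance rcPreadditive : Preadditive (RCen P) where
  homGroup X Y := rcHomGroup X Y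
  add_comp X Y Z f g h := RCen.ext _ _ (Preadditive.add_comp _ _ _ f.f g.f h.f)
  comp_add X Y Z f g h := RCen.ext _ _ (Preadditive.comp_add _ _ _ f.f g.f h.f)

@[simp] theorem rc_zero_f (X Y : RCen P) : (0 : X ⟶ Y).f = 0 := rfl

@[simp] theorem rc_add_f {X Y : RCen P} (f g : X ⟶ Y) : (f + g).f = f.f + g.f := rfl

instance rcForgetAdditive : (RCen.forget P).Additive where

instance rcMonoidalPreadditive : MonoidalPreadditive (RCen P) where
  whiskerLeft_zero := RCen.ext _ _ MonoidalPreadditive.whiskerLeft_zero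
  zero_whiskerRight := RCen.ext _ _ MonoidalPreadditive.zero_whiskerRight
  whiskerLeft_add f g := RCen.ext _ _ (MonoidalPreadditive.whiskerLeft_add f.f g.f)
  add_whiskerRight f g := RCen.ext _ _ (MonoidalPreadditive.add_whiskerRight f.f g.f)

end Pre

section Lin

variable {k : Type*} [Field k] {C : Type u} [Category.{v} C] [MonoidalCategory C] [Preadditive C]
  [MonoidalPreadditive C] [Linear k C] [MonoidalLinear k C]
  (P : ObjectProperty C) [P.IsMonoidal]

instance rcSMulK {P : ObjectProperty C} [P.IsMonoidal] (X Y : RCen P) : SMul k (X ⟶ Y) := ⟨fun n f => ⟨n • f.f, fun U hU => by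
  rw [MonoidalLinear.smul_whiskerRight, MonoidalLinear.whiskerLeft_smul, Linear.smul_comp,
    Linear.comp_smul, f.comm U hU]⟩⟩

instance rcModule {P : ObjectProperty C} [P.IsMonoidal] (X Y : RCen P) : Module k (X ⟶ Y) :=
  Function.Injective.module k
    ({ toFun := fun f => f.f, map_zero' := rfl, map_add' := fun _ _ => rfl } :
      (X ⟶ Y) →+ (X.1 ⟶ Y.1)) (fun _ _ h => RCen.ext _ _ h) (fun _ _ => rfl)

instance rcLinear : Linear k (RCen P) where
  homModule X Y := rcModule X Y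
  smul_comp X Y Z r f g := RCen.ext _ _ (Linear.smul_comp _ _ _ r f.f g.f)
  comp_smul X Y Z f r g := RCen.ext _ _ (Linear.comp_smul _ _ _ f.f r g.f)

@[simp] theorem rc_smul_f {X Y : RCen P} (a : k) (f : X ⟶ Y) : (a • f).f = a • f.f := rfl

instance rcForgetLinear : (RCen.forget P).Linear k where

instance rcMonoidalLinear : MonoidalLinear k (RCen P) where
  whiskerLeft_smul X Y Z r f := RCen.ext _ _ (MonoidalLinear.whiskerLeft_smul _ r f.f)
  smul_whiskerRight r Y Z f X := RCen.ext _ _ (MonoidalLinear.smul_whiskerRight r f.f _)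

end Lin


section Ab

variable {C : Type u} [Category.{v} C] [Abelian C] [MonoidalCategory C] [MonoidalPreadditive C]
  [RigidCategory C]

section Aux

variable {P : ObjectProperty C} [P.IsMonoidal]

theorem rc_mon_aux {X : RCen P} {K : C} (i : K ⟶ X.1) (b : ∀ U, P U → (K ⊗ U ⟶ U ⊗ K))
    (hb : ∀ U (hU : P U), b U hU ≫ U ◁ i = i ▷ U ≫ (X.2.β U hU).hom) (U U' : C) (hU : P U)
    (hU' : P U') (h : P (U ⊗ U')) :
    ((α_ _ _ _).inv ≫ (b U hU ▷ U') ≫ (α_ _ _ _).hom ≫ (U ◁ b U' hU') ≫ (α_ _ _ _).inv) ≫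
      (U ⊗ U') ◁ i = i ▷ (U ⊗ U') ≫ (X.2.β (U ⊗ U') h).hom := by
  rw [X.2.monoidal U U' hU hU' h]
  simp only [Category.assoc, MonoidalCategory.tensor_whiskerLeft, Iso.inv_hom_id_assoc]
  rw [← MonoidalCategory.whiskerLeft_comp_assoc, hb,
    MonoidalCategory.whiskerLeft_comp_assoc, ← MonoidalCategory.associator_naturality_middle_assoc,
    ← MonoidalCategory.comp_whiskerRight_assoc, hb, MonoidalCategory.comp_whiskerRight_assoc]
  simp

theorem rc_nat_aux {X : RCen P} {K : C} (i : K ⟶ X.1) (b : ∀ U, P U → (K ⊗ U ⟶ U ⊗ K))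
    (hb : ∀ U (hU : P U), b U hU ≫ U ◁ i = i ▷ U ≫ (X.2.β U hU).hom) {U U' : C} (hU : P U)
    (hU' : P U') (f : U ⟶ U') :
    (K ◁ f ≫ b U' hU') ≫ U' ◁ i = (b U hU ≫ f ▷ K) ≫ U' ◁ i := by
  have e1 : K ◁ f ≫ i ▷ U' = i ▷ U ≫ X.1 ◁ f := whisker_exchange i f
  have e2 : U ◁ i ≫ f ▷ X.1 = f ▷ K ≫ U' ◁ i := whisker_exchange f i
  calc (K ◁ f ≫ b U' hU') ≫ U' ◁ i = K ◁ f ≫ (b U' hU' ≫ U' ◁ i) := Category.assoc _ _ _
    _ = K ◁ f ≫ i ▷ U' ≫ (X.2.β U' hU').hom := by rw [hb]
    _ = (K ◁ f ≫ i ▷ U') ≫ (X.2.β U' hU').hom := (Category.assoc _ _ _).symm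
    _ = i ▷ U ≫ X.1 ◁ f ≫ (X.2.β U' hU').hom := by rw [e1, Category.assoc]
    _ = i ▷ U ≫ (X.2.β U hU).hom ≫ f ▷ X.1 := by rw [X.2.naturality hU hU']
    _ = (i ▷ U ≫ (X.2.β U hU).hom) ≫ f ▷ X.1 := (Category.assoc _ _ _).symm
    _ = b U hU ≫ U ◁ i ≫ f ▷ X.1 := by rw [← hb, Category.assoc]
    _ = (b U hU ≫ f ▷ K) ≫ U' ◁ i := by rw [e2, Category.assoc]

/-- A subobject of the underlying object which is stable under the half-braiding and its inverse
is an object of the relative center. -/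
def rcOfMono' {X : RCen P} {K : C} (i : K ⟶ X.1) [Mono i]
    (b : ∀ U, P U → (K ⊗ U ⟶ U ⊗ K)) (b' : ∀ U, P U → (U ⊗ K ⟶ K ⊗ U))
    (hb : ∀ U (hU : P U), b U hU ≫ U ◁ i = i ▷ U ≫ (X.2.β U hU).hom)
    (hb' : ∀ U (hU : P U), b' U hU ≫ i ▷ U = U ◁ i ≫ (X.2.β U hU).inv) : RCen P :=
  ⟨K, { β := fun U hU => ⟨b U hU, b' U hU,
          by rw [← cancel_mono (i ▷ U), Category.assoc, hb', ← Category.assoc, hb,
            Category.assoc, Iso.hom_inv_id, Category.comp_id, Category.id_comp],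
          by rw [← cancel_mono (U ◁ i), Category.assoc, hb, ← Category.assoc, hb',
            Category.assoc, Iso.inv_hom_id, Category.comp_id, Category.id_comp]⟩
        monoidal := fun U U' hU hU' h => by
          rw [← cancel_mono ((U ⊗ U') ◁ i)]
          exact (hb (U ⊗ U') h).trans (rc_mon_aux i b hb U U' hU hU' h).symm
        naturality := fun {U U'} hU hU' f => by
          rw [← cancel_mono (U' ◁ i)]
          exact rc_nat_aux i b hb hU hU' f } ⟩

/-- A quotient of the underlying object which is compatible with the half-braiding and its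
inverse is an object of the relative center. -/
def rcOfEpi' {X : RCen P} {Q : C} (p : X.1 ⟶ Q) [Epi p]
    (b : ∀ U, P U → (Q ⊗ U ⟶ U ⊗ Q)) (b' : ∀ U, P U → (U ⊗ Q ⟶ Q ⊗ U))
    (hb : ∀ U (hU : P U), p ▷ U ≫ b U hU = (X.2.β U hU).hom ≫ U ◁ p)
    (hb' : ∀ U (hU : P U), U ◁ p ≫ b' U hU = (X.2.β U hU).inv ≫ p ▷ U) : RCen P :=
  ⟨Q, { β := fun U hU => ⟨b U hU, b' U hU,
          by rw [← cancel_epi (p ▷ U), ← Category.assoc, hb, Category.assoc, hb',
            ← Category.assoc, Iso.hom_inv_id, Category.id_comp, Category.comp_id],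
          by rw [← cancel_epi (U ◁ p), ← Category.assoc, hb', Category.assoc, hb,
            ← Category.assoc, Iso.inv_hom_id, Category.id_comp, Category.comp_id]⟩
        monoidal := fun U U' hU hU' h => by
          rw [← cancel_epi (p ▷ (U ⊗ U'))]
          change _ ≫ b (U ⊗ U') h = _ ≫ ((α_ _ _ _).inv ≫ (b U hU ▷ U') ≫ (α_ _ _ _).hom ≫
            (U ◁ b U' hU') ≫ (α_ _ _ _).inv)
          rw [hb, X.2.monoidal U U' hU hU' h]
          simp only [Category.assoc, MonoidalCategory.whiskerRight_tensor]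
          simp only [Iso.hom_inv_id_assoc]
          rw [← MonoidalCategory.comp_whiskerRight_assoc, hb,
            MonoidalCategory.comp_whiskerRight_assoc,
            MonoidalCategory.associator_naturality_middle_assoc,
            ← MonoidalCategory.whiskerLeft_comp_assoc, hb, MonoidalCategory.whiskerLeft_comp_assoc]
          simp
        naturality := fun {U U'} hU hU' f => by
          rw [← cancel_epi (p ▷ U)]
          change p ▷ U ≫ (Q ◁ f ≫ b U' hU') = p ▷ U ≫ (b U hU ≫ f ▷ Q)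
          have e1 : X.1 ◁ f ≫ p ▷ U' = p ▷ U ≫ Q ◁ f := whisker_exchange p f
          have e2 : U ◁ p ≫ f ▷ Q = f ▷ X.1 ≫ U' ◁ p := whisker_exchange f p
          calc p ▷ U ≫ (Q ◁ f ≫ b U' hU') = (p ▷ U ≫ Q ◁ f) ≫ b U' hU' :=
                (Category.assoc _ _ _).symm
            _ = X.1 ◁ f ≫ p ▷ U' ≫ b U' hU' := by rw [← e1, Category.assoc]
            _ = X.1 ◁ f ≫ (X.2.β U' hU').hom ≫ U' ◁ p := by rw [hb]
            _ = (X.1 ◁ f ≫ (X.2.β U' hU').hom) ≫ U' ◁ p := (Category.assoc _ _ _).symm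
            _ = (X.2.β U hU).hom ≫ f ▷ X.1 ≫ U' ◁ p := by
                rw [X.2.naturality hU hU', Category.assoc]
            _ = (X.2.β U hU).hom ≫ U ◁ p ≫ f ▷ Q := by rw [e2]
            _ = ((X.2.β U hU).hom ≫ U ◁ p) ≫ f ▷ Q := (Category.assoc _ _ _).symm
            _ = p ▷ U ≫ (b U hU ≫ f ▷ Q) := by rw [← hb, Category.assoc] } ⟩

theorem rcMono_comm {W X : RCen P} {K : C} (i : K ⟶ X.1) [Mono i]
    (b : ∀ U, P U → (K ⊗ U ⟶ U ⊗ K))
    (hb : ∀ U (hU : P U), b U hU ≫ U ◁ i = i ▷ U ≫ (X.2.β U hU).hom)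
    (g : W.1 ⟶ X.1) (hg : ∀ U (hU : P U), g ▷ U ≫ (X.2.β U hU).hom = (W.2.β U hU).hom ≫ U ◁ g)
    (l : W.1 ⟶ K) (hl : l ≫ i = g) (U : C) (hU : P U) :
    l ▷ U ≫ b U hU = (W.2.β U hU).hom ≫ U ◁ l := by
  rw [← cancel_mono (U ◁ i), Category.assoc, hb, ← comp_whiskerRight_assoc, hl, hg,
    Category.assoc, ← MonoidalCategory.whiskerLeft_comp, hl]

theorem rcEpi_comm {W X : RCen P} {Q : C} (p : X.1 ⟶ Q) [Epi p]
    (b : ∀ U, P U → (Q ⊗ U ⟶ U ⊗ Q))
    (hb : ∀ U (hU : P U), p ▷ U ≫ b U hU = (X.2.β U hU).hom ≫ U ◁ p)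
    (g : X.1 ⟶ W.1) (hg : ∀ U (hU : P U), g ▷ U ≫ (W.2.β U hU).hom = (X.2.β U hU).hom ≫ U ◁ g)
    (l : Q ⟶ W.1) (hl : p ≫ l = g) (U : C) (hU : P U) :
    l ▷ U ≫ (W.2.β U hU).hom = b U hU ≫ U ◁ l := by
  rw [← cancel_epi (p ▷ U), ← comp_whiskerRight_assoc, hl, hg, ← Category.assoc (p ▷ U), hb,
    Category.assoc, ← MonoidalCategory.whiskerLeft_comp, hl]

variable {X Y : RCen P} (f : X ⟶ Y)

theorem rc_comm_inv (U : C) (hU : P U) :
    U ◁ f.f ≫ (Y.2.β U hU).inv = (X.2.β U hU).inv ≫ f.f ▷ U := by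
  rw [Iso.comp_inv_eq, Category.assoc, f.comm, ← Category.assoc, Iso.inv_hom_id,
    Category.id_comp]

theorem rc_ker_aux (U : C) (hU : P U) :
    (kernel.ι f.f ▷ U ≫ (X.2.β U hU).hom) ≫ U ◁ f.f = 0 := by
  rw [Category.assoc, ← f.comm, ← comp_whiskerRight_assoc, kernel.condition,
    MonoidalPreadditive.zero_whiskerRight, zero_comp]

theorem rc_ker_aux' (U : C) (hU : P U) :
    (U ◁ kernel.ι f.f ≫ (X.2.β U hU).inv) ≫ f.f ▷ U = 0 := by
  rw [Category.assoc, ← rc_comm_inv, ← MonoidalCategory.whiskerLeft_comp_assoc,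
    kernel.condition, MonoidalPreadditive.whiskerLeft_zero, zero_comp]

theorem rc_coker_aux (U : C) (hU : P U) :
    f.f ▷ U ≫ ((Y.2.β U hU).hom ≫ U ◁ cokernel.π f.f) = 0 := by
  rw [← Category.assoc, f.comm, Category.assoc, ← MonoidalCategory.whiskerLeft_comp,
    cokernel.condition, MonoidalPreadditive.whiskerLeft_zero, comp_zero]

theorem rc_coker_aux' (U : C) (hU : P U) :
    U ◁ f.f ≫ ((Y.2.β U hU).inv ≫ cokernel.π f.f ▷ U) = 0 := by
  rw [← Category.assoc, rc_comm_inv, Category.assoc, ← comp_whiskerRight,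
    cokernel.condition, MonoidalPreadditive.zero_whiskerRight, comp_zero]

/-- The kernel in the relative center. -/
def rcKer : RCen P :=
  rcOfMono' (X := X) (kernel.ι f.f) (fun U hU => (exL f.f U).lift _ (rc_ker_aux f U hU))
    (fun U hU => (exR f.f U).lift _ (rc_ker_aux' f U hU))
    (fun U hU => (exL f.f U).lift_f _ (rc_ker_aux f U hU))
    (fun U hU => (exR f.f U).lift_f _ (rc_ker_aux' f U hU))

/-- The inclusion of the kernel. -/
def rcKerι : rcKer f ⟶ X := ⟨kernel.ι f.f, fun U hU =>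
  ((exL f.f U).lift_f _ (rc_ker_aux f U hU)).symm⟩

theorem rcKerι_comp : rcKerι f ≫ f = 0 := RCen.ext _ _ (kernel.condition f.f)

/-- The lift to the kernel. -/
def rcKerLift {W : RCen P} (g : W ⟶ X) (hg : g ≫ f = 0) : W ⟶ rcKer f :=
  ⟨kernel.lift f.f g.f (congrArg RCen.Hom.f hg),
    rcMono_comm (kernel.ι f.f) _ (fun U hU => (exL f.f U).lift_f _ (rc_ker_aux f U hU)) g.f
      g.comm _ (kernel.lift_ι _ _ _)⟩

/-- The kernel property. -/
def rcKerIsLimit : IsLimit (KernelFork.ofι (rcKerι f) (rcKerι_comp f)) :=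
  KernelFork.IsLimit.ofι _ _ (fun g hg => rcKerLift f g hg)
    (fun g hg => RCen.ext _ _ (kernel.lift_ι _ _ _))
    (fun g hg m hm => RCen.ext _ _ ((cancel_mono (kernel.ι f.f)).1
      ((congrArg RCen.Hom.f hm).trans (kernel.lift_ι _ _ _).symm)))

/-- The cokernel in the relative center. -/
def rcCoker : RCen P :=
  rcOfEpi' (X := Y) (cokernel.π f.f) (fun U hU => (exR' f.f U).desc _ (rc_coker_aux f U hU))
    (fun U hU => (exL' f.f U).desc _ (rc_coker_aux' f U hU))
    (fun U hU => (exR' f.f U).g_desc _ (rc_coker_aux f U hU))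
    (fun U hU => (exL' f.f U).g_desc _ (rc_coker_aux' f U hU))

/-- The projection to the cokernel. -/
def rcCokerπ : Y ⟶ rcCoker f := ⟨cokernel.π f.f, fun U hU =>
  (exR' f.f U).g_desc _ (rc_coker_aux f U hU)⟩

theorem rcCokerπ_comp : f ≫ rcCokerπ f = 0 := RCen.ext _ _ (cokernel.condition f.f)

/-- The descent to the cokernel. -/
def rcCokerDesc {W : RCen P} (g : Y ⟶ W) (hg : f ≫ g = 0) : rcCoker f ⟶ W :=
  ⟨cokernel.desc f.f g.f (congrArg RCen.Hom.f hg),
    rcEpi_comm (cokernel.π f.f) _ (fun U hU => (exR' f.f U).g_desc _ (rc_coker_aux f U hU)) g.f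
      g.comm _ (cokernel.π_desc _ _ _)⟩

/-- The cokernel property. -/
def rcCokerIsColimit : IsColimit (CokernelCofork.ofπ (rcCokerπ f) (rcCokerπ_comp f)) :=
  CokernelCofork.IsColimit.ofπ _ _ (fun g hg => rcCokerDesc f g hg)
    (fun g hg => RCen.ext _ _ (cokernel.π_desc _ _ _))
    (fun g hg m hm => RCen.ext _ _ ((cancel_epi (cokernel.π f.f)).1
      ((congrArg RCen.Hom.f hm).trans (cokernel.π_desc _ _ _).symm)))

variable (P)

instance rcHasKernels : HasKernels (RCen P) :=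
  ⟨fun f => ⟨⟨⟨_, rcKerIsLimit f⟩⟩⟩⟩

instance rcHasCokernels : HasCokernels (RCen P) :=
  ⟨fun f => ⟨⟨⟨_, rcCokerIsColimit f⟩⟩⟩⟩

/-- An object of the relative center from a zero object. -/
def rcZeroObj (Z : C) (hZ : IsZero Z) : RCen P :=
  ⟨Z, { β := fun U _ =>
          { hom := 0
            inv := 0
            hom_inv_id := by
              have : IsZero (Z ⊗ U) := (tensorRight U).map_isZero hZ
              exact this.eq_of_src _ _
            inv_hom_id := by
              have : IsZero (U ⊗ Z) := (tensorLeft U).map_isZero hZ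
              exact this.eq_of_src _ _ }
        monoidal := fun U U' _ _ _ => by
          have : IsZero (Z ⊗ (U ⊗ U')) := (tensorRight _).map_isZero hZ
          exact this.eq_of_src _ _
        naturality := fun {U U'} _ _ f => by
          have : IsZero (Z ⊗ U) := (tensorRight _).map_isZero hZ
          exact this.eq_of_src _ _ }⟩

theorem rcZeroObj_isZero (Z : C) (hZ : IsZero Z) : IsZero (rcZeroObj P Z hZ) := by
  rw [IsZero.iff_id_eq_zero]
  exact RCen.ext _ _ (hZ.eq_of_src _ _)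

instance rcHasZeroObject : HasZeroObject (RCen P) :=
  ⟨⟨_, rcZeroObj_isZero P _ (isZero_zero C)⟩⟩

variable {P}

/-- The half-braiding of the biproduct. -/
def rcBi (X Y : RCen P) (U : C) (hU : P U) : (X.1 ⊞ Y.1) ⊗ U ⟶ U ⊗ (X.1 ⊞ Y.1) :=
  (biprod.fst ▷ U) ≫ (X.2.β U hU).hom ≫ (U ◁ biprod.inl) +
    (biprod.snd ▷ U) ≫ (Y.2.β U hU).hom ≫ (U ◁ biprod.inr)

/-- The inverse half-braiding of the biproduct. -/
def rcBi' (X Y : RCen P) (U : C) (hU : P U) : U ⊗ (X.1 ⊞ Y.1) ⟶ (X.1 ⊞ Y.1) ⊗ U :=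
  (U ◁ biprod.fst) ≫ (X.2.β U hU).inv ≫ (biprod.inl ▷ U) +
    (U ◁ biprod.snd) ≫ (Y.2.β U hU).inv ≫ (biprod.inr ▷ U)

theorem rcBi_fst (X Y : RCen P) (U : C) (hU : P U) :
    rcBi X Y U hU ≫ U ◁ biprod.fst = biprod.fst ▷ U ≫ (X.2.β U hU).hom := by
  rw [rcBi, Preadditive.add_comp, Category.assoc, Category.assoc, Category.assoc,
    Category.assoc, wl_comp_eq U biprod.inl_fst, wl_comp_eq U biprod.inr_fst]
  simp

theorem rcBi_snd (X Y : RCen P) (U : C) (hU : P U) :
    rcBi X Y U hU ≫ U ◁ biprod.snd = biprod.snd ▷ U ≫ (Y.2.β U hU).hom := by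
  rw [rcBi, Preadditive.add_comp, Category.assoc, Category.assoc, Category.assoc,
    Category.assoc, wl_comp_eq U biprod.inl_snd, wl_comp_eq U biprod.inr_snd]
  simp

theorem rcBi'_fst (X Y : RCen P) (U : C) (hU : P U) :
    rcBi' X Y U hU ≫ biprod.fst ▷ U = U ◁ biprod.fst ≫ (X.2.β U hU).inv := by
  rw [rcBi', Preadditive.add_comp, Category.assoc, Category.assoc, Category.assoc,
    Category.assoc, wr_comp_eq U biprod.inl_fst, wr_comp_eq U biprod.inr_fst]
  simp

theorem rcBi'_snd (X Y : RCen P) (U : C) (hU : P U) :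
    rcBi' X Y U hU ≫ biprod.snd ▷ U = U ◁ biprod.snd ≫ (Y.2.β U hU).inv := by
  rw [rcBi', Preadditive.add_comp, Category.assoc, Category.assoc, Category.assoc,
    Category.assoc, wr_comp_eq U biprod.inl_snd, wr_comp_eq U biprod.inr_snd]
  simp

/-- The biproduct in the relative center. -/
def rcBiprod (X Y : RCen P) : RCen P :=
  ⟨X.1 ⊞ Y.1,
    { β := fun U hU =>
        { hom := rcBi X Y U hU
          inv := rcBi' X Y U hU
          hom_inv_id := by
            apply wr_ext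
            · rw [Category.assoc, rcBi'_fst, ← Category.assoc, rcBi_fst, Category.assoc,
                Iso.hom_inv_id, Category.comp_id, Category.id_comp]
            · rw [Category.assoc, rcBi'_snd, ← Category.assoc, rcBi_snd, Category.assoc,
                Iso.hom_inv_id, Category.comp_id, Category.id_comp]
          inv_hom_id := by
            apply wl_ext
            · rw [Category.assoc, rcBi_fst, ← Category.assoc, rcBi'_fst, Category.assoc,
                Iso.inv_hom_id, Category.comp_id, Category.id_comp]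
            · rw [Category.assoc, rcBi_snd, ← Category.assoc, rcBi'_snd, Category.assoc,
                Iso.inv_hom_id, Category.comp_id, Category.id_comp] }
      monoidal := fun U U' hU hU' h => by
        apply wl_ext
        · exact (rcBi_fst X Y (U ⊗ U') h).trans
            (rc_mon_aux (X := X) biprod.fst (rcBi X Y) (rcBi_fst X Y) U U' hU hU' h).symm
        · exact (rcBi_snd X Y (U ⊗ U') h).trans
            (rc_mon_aux (X := Y) biprod.snd (rcBi X Y) (rcBi_snd X Y) U U' hU hU' h).symm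
      naturality := fun {U U'} hU hU' f => by
        apply wl_ext
        · exact rc_nat_aux (X := X) biprod.fst (rcBi X Y) (rcBi_fst X Y) hU hU' f
        · exact rc_nat_aux (X := Y) biprod.snd (rcBi X Y) (rcBi_snd X Y) hU hU' f }⟩

/-- The first projection. -/
def rcBiFst (X Y : RCen P) : rcBiprod X Y ⟶ X :=
  ⟨biprod.fst, fun U hU => (rcBi_fst X Y U hU).symm⟩

/-- The second projection. -/
def rcBiSnd (X Y : RCen P) : rcBiprod X Y ⟶ Y :=
  ⟨biprod.snd, fun U hU => (rcBi_snd X Y U hU).symm⟩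

theorem rcBi_inl (X Y : RCen P) (U : C) (hU : P U) :
    biprod.inl ▷ U ≫ rcBi X Y U hU = (X.2.β U hU).hom ≫ U ◁ biprod.inl := by
  rw [rcBi, Preadditive.comp_add, ← comp_whiskerRight_assoc, ← comp_whiskerRight_assoc,
    biprod.inl_fst, biprod.inl_snd]
  simp

theorem rcBi_inr (X Y : RCen P) (U : C) (hU : P U) :
    biprod.inr ▷ U ≫ rcBi X Y U hU = (Y.2.β U hU).hom ≫ U ◁ biprod.inr := by
  rw [rcBi, Preadditive.comp_add, ← comp_whiskerRight_assoc, ← comp_whiskerRight_assoc,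
    biprod.inr_fst, biprod.inr_snd]
  simp

/-- The first inclusion. -/
def rcBiInl (X Y : RCen P) : X ⟶ rcBiprod X Y := ⟨biprod.inl, rcBi_inl X Y⟩

/-- The second inclusion. -/
def rcBiInr (X Y : RCen P) : Y ⟶ rcBiprod X Y := ⟨biprod.inr, rcBi_inr X Y⟩

/-- The binary bicone of the relative center. -/
def rcBicone (X Y : RCen P) : BinaryBicone X Y where
  pt := rcBiprod X Y
  fst := rcBiFst X Y
  snd := rcBiSnd X Y
  inl := rcBiInl X Y
  inr := rcBiInr X Y
  inl_fst := RCen.ext _ _ biprod.inl_fst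
  inl_snd := RCen.ext _ _ biprod.inl_snd
  inr_fst := RCen.ext _ _ biprod.inr_fst
  inr_snd := RCen.ext _ _ biprod.inr_snd

variable (P)

instance rcHasBinaryBiproducts : HasBinaryBiproducts (RCen P) where
  has_binary_biproduct X Y := HasBinaryBiproduct.mk
    { bicone := rcBicone X Y
      isBilimit := isBinaryBilimitOfTotal _ (RCen.ext _ _ biprod.total) }

instance rcHasFiniteProducts : HasFiniteProducts (RCen P) :=
  haveI := HasZeroObject.hasTerminal (C := RCen P)
  hasFiniteProducts_of_has_binary_and_terminal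

instance rcPreservesKernel {X Y : RCen P} (f : X ⟶ Y) :
    PreservesLimit (parallelPair f 0) (RCen.forget P) :=
  preservesLimit_of_preserves_limit_cone (rcKerIsLimit f)
    ((KernelFork.isLimitMapConeEquiv (KernelFork.ofι (rcKerι f) (rcKerι_comp f))
      (RCen.forget P)).symm
      (IsLimit.ofIsoLimit (kernelIsKernel f.f) (Fork.ext (Iso.refl _) (by
        exact Category.id_comp (kernel.ι f.f)))))

instance rcPreservesCokernel {X Y : RCen P} (f : X ⟶ Y) :
    PreservesColimit (parallelPair f 0) (RCen.forget P) :=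
  preservesColimit_of_preserves_colimit_cocone (rcCokerIsColimit f)
    ((CokernelCofork.isColimitMapCoconeEquiv (CokernelCofork.ofπ (rcCokerπ f)
      (rcCokerπ_comp f)) (RCen.forget P)).symm
      (IsColimit.ofIsoColimit (cokernelIsCokernel f.f) (Cofork.ext (Iso.refl _) (by
        exact Category.comp_id (cokernel.π f.f)))))

instance rcCoim {X Y : RCen P} (f : X ⟶ Y) : IsIso (Abelian.coimageImageComparison f) := by
  have := IsIso.of_isIso_fac_right (Abelian.PreservesCoimage.hom_coimageImageComparison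
      (RCen.forget P) f).symm
  exact isIso_of_reflects_iso _ (RCen.forget P)

instance rcAbelian : Abelian (RCen P) := Abelian.ofCoimageImageComparisonIsIso

instance rcForgetPFL : PreservesFiniteLimits (RCen.forget P) :=
  (RCen.forget P).preservesFiniteLimits_of_preservesKernels

instance rcForgetPFC : PreservesFiniteColimits (RCen.forget P) :=
  (RCen.forget P).preservesFiniteColimits_of_preservesCokernels

/-- The underlying morphism of a monomorphism. -/
theorem rc_mono_f {X Y : RCen P} (f : X ⟶ Y) [Mono f] : Mono f.f :=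
  inferInstanceAs (Mono ((RCen.forget P).map f))

theorem rc_epi_f {X Y : RCen P} (f : X ⟶ Y) [Epi f] : Epi f.f :=
  inferInstanceAs (Epi ((RCen.forget P).map f))

theorem rc_mono_of {X Y : RCen P} (f : X ⟶ Y) (h : Mono f.f) : Mono f :=
  (RCen.forget P).mono_of_mono_map h

theorem rc_epi_of {X Y : RCen P} (f : X ⟶ Y) (h : Epi f.f) : Epi f :=
  (RCen.forget P).epi_of_epi_map h

theorem rc_isZero_iff (X : RCen P) : IsZero X ↔ IsZero X.1 := by
  constructor
  · intro h
    exact (RCen.forget P).map_isZero h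
  · intro h
    rw [IsZero.iff_id_eq_zero]
    exact RCen.ext _ _ (h.eq_of_src _ _)

/-- A subobject of `X.1` stable under the half-braiding. -/
def rcOfMono {X : RCen P} {K : C} (i : K ⟶ X.1) [Mono i]
    (b : ∀ U, P U → (K ⊗ U ≅ U ⊗ K))
    (h : ∀ U (hU : P U), (b U hU).hom ≫ U ◁ i = i ▷ U ≫ (X.2.β U hU).hom) : RCen P :=
  rcOfMono' i (fun U hU => (b U hU).hom) (fun U hU => (b U hU).inv) h (fun U hU => by
    rw [Iso.inv_comp_eq, ← Category.assoc, h U hU, Category.assoc, Iso.hom_inv_id,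
      Category.comp_id])

@[simp] theorem rcOfMono_fst {X : RCen P} {K : C} (i : K ⟶ X.1) [Mono i]
    (b : ∀ U, P U → (K ⊗ U ≅ U ⊗ K))
    (h : ∀ U (hU : P U), (b U hU).hom ≫ U ◁ i = i ▷ U ≫ (X.2.β U hU).hom) :
    (rcOfMono P i b h).1 = K := rfl

theorem rcOfMono_β {X : RCen P} {K : C} (i : K ⟶ X.1) [Mono i]
    (b : ∀ U, P U → (K ⊗ U ≅ U ⊗ K))
    (h : ∀ U (hU : P U), (b U hU).hom ≫ U ◁ i = i ▷ U ≫ (X.2.β U hU).hom) (U : C) (hU : P U) :
    ((rcOfMono P i b h).2.β U hU).hom = (b U hU).hom := rfl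

/-- The inclusion of `rcOfMono`. -/
def rcOfMonoι {X : RCen P} {K : C} (i : K ⟶ X.1) [Mono i]
    (b : ∀ U, P U → (K ⊗ U ≅ U ⊗ K))
    (h : ∀ U (hU : P U), (b U hU).hom ≫ U ◁ i = i ▷ U ≫ (X.2.β U hU).hom) :
    rcOfMono P i b h ⟶ X := ⟨i, fun U hU => (h U hU).symm⟩

end Aux

end Ab

end

end Pool.Agent.RC40
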