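import Pool.Agent.RC40.Def
import Pool.Agent.MUG.Sub

/-! Row RIG: the relative center is rigid (helper64), after MUG/CenRig (helper27). -/

open CategoryTheory MonoidalCategory

universe v u

set_option linter.unusedSectionVars false
set_option backward.isDefEq.respectTransparency.types false

noncomputable section

namespace Pool.Agent.RC40

open Pool.Agent.MUG

section Lax

variable {C : Type u} [Category.{v} C] [Abelian C] [MonoidalCategory C] [RigidCategory C]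
  {P : ObjectProperty C} [hP : TensorSub P]

/-- The inverse of a lax half-braiding. -/
def rlaxInv {M : C} (δ : ∀ U, P U → (M ⊗ U ⟶ U ⊗ M)) (U : C) (hU : P U) : U ⊗ M ⟶ M ⊗ U :=
  𝟙 _ ⊗≫ (U ⊗ M) ◁ η_ (ᘁU) U ⊗≫ U ◁ δ (ᘁU) (hP.ldual hU) ▷ U ⊗≫ ε_ (ᘁU) U ▷ (M ⊗ U) ⊗≫ 𝟙 _

theorem rlax_hom_inv {M : C} (δ : ∀ U, P U → (M ⊗ U ⟶ U ⊗ M))
    (nat : ∀ {U V : C} (hU : P U) (hV : P V) (f : U ⟶ V), M ◁ f ≫ δ V hV = δ U hU ≫ f ▷ M)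
    (mon : ∀ (U V : C) (hU : P U) (hV : P V) (h : P (U ⊗ V)), δ (U ⊗ V) h =
      (α_ _ _ _).inv ≫ (δ U hU ▷ V) ≫ (α_ _ _ _).hom ≫ (U ◁ δ V hV) ≫ (α_ _ _ _).inv)
    (unit : δ (𝟙_ C) hP.unit = (ρ_ M).hom ≫ (λ_ M).inv) (U : C) (hU : P U) :
    δ U hU ≫ rlaxInv δ U hU = 𝟙 _ := by
  calc δ U hU ≫ rlaxInv δ U hU
      = 𝟙 _ ⊗≫ (δ U hU ▷ (𝟙_ C) ≫ (U ⊗ M) ◁ η_ (ᘁU) U) ⊗≫ U ◁ δ (ᘁU) (hP.ldual hU) ▷ U ⊗≫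
          ε_ (ᘁU) U ▷ (M ⊗ U) ⊗≫ 𝟙 _ := by
        rw [rlaxInv]; monoidal
    _ = 𝟙 _ ⊗≫ M ◁ U ◁ η_ (ᘁU) U ⊗≫ ((α_ _ _ _).inv ≫ (δ U hU ▷ (ᘁU)) ≫ (α_ _ _ _).hom ≫
          (U ◁ δ (ᘁU) (hP.ldual hU)) ≫ (α_ _ _ _).inv) ▷ U ⊗≫ ε_ (ᘁU) U ▷ (M ⊗ U) ⊗≫ 𝟙 _ := by
        rw [← whisker_exchange]; monoidal
    _ = 𝟙 _ ⊗≫ M ◁ U ◁ η_ (ᘁU) U ⊗≫ (δ (U ⊗ ᘁU) (hP.tensor hU (hP.ldual hU)) ≫
          ε_ (ᘁU) U ▷ M) ▷ U ⊗≫ 𝟙 _ := by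
        rw [← mon U (ᘁU) hU (hP.ldual hU) (hP.tensor hU (hP.ldual hU))]; monoidal
    _ = 𝟙 _ ⊗≫ M ◁ (U ◁ η_ (ᘁU) U ≫ (α_ _ _ _).inv ≫ ε_ (ᘁU) U ▷ U) ⊗≫
          (δ (𝟙_ C) hP.unit) ▷ U ⊗≫ 𝟙 _ := by
        rw [← nat (hP.tensor hU (hP.ldual hU)) hP.unit]; monoidal
    _ = 𝟙 _ := by
        rw [ExactPairing.coevaluation_evaluation, unit]; monoidal

theorem rlax_inv_hom {M : C} (δ : ∀ U, P U → (M ⊗ U ⟶ U ⊗ M))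
    (nat : ∀ {U V : C} (hU : P U) (hV : P V) (f : U ⟶ V), M ◁ f ≫ δ V hV = δ U hU ≫ f ▷ M)
    (mon : ∀ (U V : C) (hU : P U) (hV : P V) (h : P (U ⊗ V)), δ (U ⊗ V) h =
      (α_ _ _ _).inv ≫ (δ U hU ▷ V) ≫ (α_ _ _ _).hom ≫ (U ◁ δ V hV) ≫ (α_ _ _ _).inv)
    (unit : δ (𝟙_ C) hP.unit = (ρ_ M).hom ≫ (λ_ M).inv) (U : C) (hU : P U) :
    rlaxInv δ U hU ≫ δ U hU = 𝟙 _ := by
  calc rlaxInv δ U hU ≫ δ U hU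
      = 𝟙 _ ⊗≫ (U ⊗ M) ◁ η_ (ᘁU) U ⊗≫ U ◁ δ (ᘁU) (hP.ldual hU) ▷ U ⊗≫
          (ε_ (ᘁU) U ▷ (M ⊗ U) ≫ (𝟙_ C) ◁ δ U hU) ⊗≫ 𝟙 _ := by
        rw [rlaxInv]; monoidal
    _ = 𝟙 _ ⊗≫ U ◁ M ◁ η_ (ᘁU) U ⊗≫ U ◁ ((α_ _ _ _).inv ≫ (δ (ᘁU) (hP.ldual hU) ▷ U) ≫
          (α_ _ _ _).hom ≫ ((ᘁU) ◁ δ U hU) ≫ (α_ _ _ _).inv) ⊗≫ ε_ (ᘁU) U ▷ (U ⊗ M) ⊗≫
          𝟙 _ := by
        rw [← whisker_exchange]; monoidal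
    _ = 𝟙 _ ⊗≫ U ◁ (M ◁ η_ (ᘁU) U ≫ δ ((ᘁU) ⊗ U) (hP.tensor (hP.ldual hU) hU)) ⊗≫
          ε_ (ᘁU) U ▷ (U ⊗ M) ⊗≫ 𝟙 _ := by
        rw [← mon (ᘁU) U (hP.ldual hU) hU (hP.tensor (hP.ldual hU) hU)]; monoidal
    _ = 𝟙 _ ⊗≫ U ◁ δ (𝟙_ C) hP.unit ⊗≫ (U ◁ η_ (ᘁU) U ≫ (α_ _ _ _).inv ≫
          ε_ (ᘁU) U ▷ U) ▷ M ⊗≫ 𝟙 _ := by
        rw [nat hP.unit (hP.tensor (hP.ldual hU) hU)]; monoidal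
    _ = 𝟙 _ := by
        rw [ExactPairing.coevaluation_evaluation, unit]; monoidal

/-- The inverse of an opposite lax half-braiding. -/
def mlaxInv {M : C} (γ : ∀ U, P U → (U ⊗ M ⟶ M ⊗ U)) (U : C) (hU : P U) : M ⊗ U ⟶ U ⊗ M :=
  𝟙 _ ⊗≫ η_ U (Uᘁ) ▷ (M ⊗ U) ⊗≫ U ◁ γ (Uᘁ) (hP.rdual hU) ▷ U ⊗≫ (U ⊗ M) ◁ ε_ U (Uᘁ) ⊗≫ 𝟙 _

theorem mlax_hom_inv {M : C} (γ : ∀ U, P U → (U ⊗ M ⟶ M ⊗ U))
    (nat : ∀ {U V : C} (hU : P U) (hV : P V) (f : U ⟶ V), f ▷ M ≫ γ V hV = γ U hU ≫ M ◁ f)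
    (mon : ∀ (U V : C) (hU : P U) (hV : P V) (h : P (U ⊗ V)), γ (U ⊗ V) h =
      (α_ _ _ _).hom ≫ (U ◁ γ V hV) ≫ (α_ _ _ _).inv ≫ (γ U hU ▷ V) ≫ (α_ _ _ _).hom)
    (unit : γ (𝟙_ C) hP.unit = (λ_ M).hom ≫ (ρ_ M).inv) (U : C) (hU : P U) :
    γ U hU ≫ mlaxInv γ U hU = 𝟙 _ := by
  calc γ U hU ≫ mlaxInv γ U hU
      = 𝟙 _ ⊗≫ ((𝟙_ C) ◁ γ U hU ≫ η_ U (Uᘁ) ▷ (M ⊗ U)) ⊗≫ U ◁ γ (Uᘁ) (hP.rdual hU) ▷ U ⊗≫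
          (U ⊗ M) ◁ ε_ U (Uᘁ) ⊗≫ 𝟙 _ := by
        rw [mlaxInv]; monoidal
    _ = 𝟙 _ ⊗≫ η_ U (Uᘁ) ▷ (U ⊗ M) ⊗≫ U ◁ ((α_ _ _ _).hom ≫ ((Uᘁ) ◁ γ U hU) ≫
          (α_ _ _ _).inv ≫ (γ (Uᘁ) (hP.rdual hU) ▷ U) ≫ (α_ _ _ _).hom) ⊗≫
          (U ⊗ M) ◁ ε_ U (Uᘁ) ⊗≫ 𝟙 _ := by
        rw [whisker_exchange]; monoidal
    _ = 𝟙 _ ⊗≫ η_ U (Uᘁ) ▷ (U ⊗ M) ⊗≫ U ◁ (γ ((Uᘁ) ⊗ U) (hP.tensor (hP.rdual hU) hU) ≫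
          M ◁ ε_ U (Uᘁ)) ⊗≫ 𝟙 _ := by
        rw [← mon (Uᘁ) U (hP.rdual hU) hU (hP.tensor (hP.rdual hU) hU)]; monoidal
    _ = 𝟙 _ ⊗≫ (η_ U (Uᘁ) ▷ U ≫ (α_ _ _ _).hom ≫ U ◁ ε_ U (Uᘁ)) ▷ M ⊗≫
          U ◁ (γ (𝟙_ C) hP.unit) ⊗≫ 𝟙 _ := by
        rw [← nat (hP.tensor (hP.rdual hU) hU) hP.unit]; monoidal
    _ = 𝟙 _ := by
        rw [ExactPairing.evaluation_coevaluation, unit]; monoidal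

theorem mlax_inv_hom {M : C} (γ : ∀ U, P U → (U ⊗ M ⟶ M ⊗ U))
    (nat : ∀ {U V : C} (hU : P U) (hV : P V) (f : U ⟶ V), f ▷ M ≫ γ V hV = γ U hU ≫ M ◁ f)
    (mon : ∀ (U V : C) (hU : P U) (hV : P V) (h : P (U ⊗ V)), γ (U ⊗ V) h =
      (α_ _ _ _).hom ≫ (U ◁ γ V hV) ≫ (α_ _ _ _).inv ≫ (γ U hU ▷ V) ≫ (α_ _ _ _).hom)
    (unit : γ (𝟙_ C) hP.unit = (λ_ M).hom ≫ (ρ_ M).inv) (U : C) (hU : P U) :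
    mlaxInv γ U hU ≫ γ U hU = 𝟙 _ := by
  calc mlaxInv γ U hU ≫ γ U hU
      = 𝟙 _ ⊗≫ η_ U (Uᘁ) ▷ (M ⊗ U) ⊗≫ U ◁ γ (Uᘁ) (hP.rdual hU) ▷ U ⊗≫
          ((U ⊗ M) ◁ ε_ U (Uᘁ) ≫ γ U hU ▷ (𝟙_ C)) ⊗≫ 𝟙 _ := by
        rw [mlaxInv]; monoidal
    _ = 𝟙 _ ⊗≫ η_ U (Uᘁ) ▷ (M ⊗ U) ⊗≫ ((α_ _ _ _).hom ≫ (U ◁ γ (Uᘁ) (hP.rdual hU)) ≫
          (α_ _ _ _).inv ≫ (γ U hU ▷ (Uᘁ)) ≫ (α_ _ _ _).hom) ▷ U ⊗≫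
          (M ⊗ U) ◁ ε_ U (Uᘁ) ⊗≫ 𝟙 _ := by
        rw [whisker_exchange]; monoidal
    _ = 𝟙 _ ⊗≫ (η_ U (Uᘁ) ▷ M ≫ γ (U ⊗ (Uᘁ)) (hP.tensor hU (hP.rdual hU))) ▷ U ⊗≫
          (M ⊗ U) ◁ ε_ U (Uᘁ) ⊗≫ 𝟙 _ := by
        rw [← mon U (Uᘁ) hU (hP.rdual hU) (hP.tensor hU (hP.rdual hU))]; monoidal
    _ = 𝟙 _ ⊗≫ γ (𝟙_ C) hP.unit ▷ U ⊗≫ M ◁ (η_ U (Uᘁ) ▷ U ≫ (α_ _ _ _).hom ≫
          U ◁ ε_ U (Uᘁ)) ⊗≫ 𝟙 _ := by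
        rw [nat hP.unit (hP.tensor hU (hP.rdual hU))]; monoidal
    _ = 𝟙 _ := by
        rw [ExactPairing.evaluation_coevaluation, unit]; monoidal

end Lax

section Dual

variable {C : Type u} [Category.{v} C] [MonoidalCategory C] {P : ObjectProperty C}
  [P.IsMonoidal]

/-- The unit component of a half-braiding. -/
theorem rhb_unit (X : RCen P) (h1 : P (𝟙_ C)) :
    (X.2.β (𝟙_ C) h1).hom = (ρ_ X.1).hom ≫ (λ_ X.1).inv := by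
  have h2 : P (𝟙_ C ⊗ 𝟙_ C) := P.prop_tensor h1 h1
  have h3 := X.2.monoidal (𝟙_ C) (𝟙_ C) h1 h1 h2
  have h4 := X.2.naturality h2 h1 (λ_ (𝟙_ C)).hom
  rw [h3] at h4
  -- cancel
  have h5 : (X.2.β (𝟙_ C) h1).hom ▷ (𝟙_ C) ≫ (α_ _ _ _).hom ≫
      (𝟙_ C) ◁ ((X.2.β (𝟙_ C) h1).hom ≫ (λ_ X.1).hom) =
      (X.2.β (𝟙_ C) h1).hom ▷ (𝟙_ C) ≫ (α_ _ _ _).hom ≫ (𝟙_ C) ◁ (ρ_ X.1).hom := by
    have h6 : (α_ _ _ _).hom ≫ X.1 ◁ (λ_ (𝟙_ C)).hom ≫ (X.2.β (𝟙_ C) h1).hom =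
        (α_ _ _ _).hom ≫ ((α_ _ _ _).inv ≫ (X.2.β (𝟙_ C) h1).hom ▷ (𝟙_ C) ≫
          (α_ _ _ _).hom ≫ (𝟙_ C) ◁ (X.2.β (𝟙_ C) h1).hom ≫ (α_ _ _ _).inv) ≫
          (λ_ (𝟙_ C)).hom ▷ X.1 := by rw [h4]
    have h7 : (X.2.β (𝟙_ C) h1).hom ▷ (𝟙_ C) ≫ (α_ _ _ _).hom ≫
        (𝟙_ C) ◁ ((X.2.β (𝟙_ C) h1).hom ≫ (λ_ X.1).hom) =
        ((α_ _ _ _).hom ≫ ((α_ _ _ _).inv ≫ (X.2.β (𝟙_ C) h1).hom ▷ (𝟙_ C) ≫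
          (α_ _ _ _).hom ≫ (𝟙_ C) ◁ (X.2.β (𝟙_ C) h1).hom ≫ (α_ _ _ _).inv) ≫
          (λ_ (𝟙_ C)).hom ▷ X.1) ≫ 𝟙 _ := by
      monoidal
    rw [h7, ← h6]
    monoidal
  rw [cancel_epi, cancel_epi] at h5
  have h8 : (X.2.β (𝟙_ C) h1).hom ≫ (λ_ X.1).hom = (ρ_ X.1).hom := by
    calc (X.2.β (𝟙_ C) h1).hom ≫ (λ_ X.1).hom
        = (λ_ _).inv ≫ (𝟙_ C) ◁ ((X.2.β (𝟙_ C) h1).hom ≫ (λ_ X.1).hom) ≫ (λ_ _).hom := by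
          rw [leftUnitor_naturality, Iso.inv_hom_id_assoc]
      _ = (λ_ _).inv ≫ (𝟙_ C) ◁ (ρ_ X.1).hom ≫ (λ_ _).hom := by rw [h5]
      _ = (ρ_ X.1).hom := by rw [leftUnitor_naturality, Iso.inv_hom_id_assoc]
  rw [← h8, Category.assoc, Iso.hom_inv_id, Category.comp_id]

theorem rhb_unit_inv (X : RCen P) (h1 : P (𝟙_ C)) :
    (X.2.β (𝟙_ C) h1).inv = (λ_ X.1).hom ≫ (ρ_ X.1).inv := by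
  rw [← cancel_epi (X.2.β (𝟙_ C) h1).hom, Iso.hom_inv_id, rhb_unit]
  simp

theorem rcen_inv_nat (X : RCen P) {U V : C} (hU : P U) (hV : P V) (f : U ⟶ V) :
    f ▷ X.1 ≫ (X.2.β V hV).inv = (X.2.β U hU).inv ≫ X.1 ◁ f := by
  rw [Iso.comp_inv_eq, Category.assoc, X.2.naturality hU hV, Iso.inv_hom_id_assoc]

theorem rcen_inv_mon (X : RCen P) (U V : C) (hU : P U) (hV : P V) (h : P (U ⊗ V)) :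
    (X.2.β (U ⊗ V) h).inv =
    (α_ _ _ _).hom ≫ U ◁ (X.2.β V hV).inv ≫ (α_ _ _ _).inv ≫ (X.2.β U hU).inv ▷ V ≫
      (α_ _ _ _).hom := by
  rw [← cancel_epi (X.2.β (U ⊗ V) h).hom, Iso.hom_inv_id, X.2.monoidal U V hU hV h]
  simp

variable (X : RCen P) (Y : C)

section right

variable [ExactPairing X.1 Y]

def rdualH (U : C) (hU : P U) : U ⟶ X.1 ⊗ (U ⊗ Y) :=
  (ρ_ U).inv ≫ U ◁ η_ X.1 Y ≫ (α_ _ _ _).inv ≫ (X.2.β U hU).inv ▷ Y ≫ (α_ _ _ _).hom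

/-- The half-braiding on the right dual. -/
def rdualB (U : C) (hU : P U) : Y ⊗ U ⟶ U ⊗ Y :=
  (tensorLeftHomEquiv U X.1 Y (U ⊗ Y)).symm (rdualH X Y U hU)

theorem rdual_key (U : C) (hU : P U) :
    (λ_ U).inv ≫ η_ X.1 Y ▷ U ≫ (α_ _ _ _).hom ≫ X.1 ◁ rdualB X Y U hU = rdualH X Y U hU :=
  (tensorLeftHomEquiv U X.1 Y (U ⊗ Y)).apply_symm_apply (rdualH X Y U hU)

theorem rdual_inj {A B : C} {f g : Y ⊗ A ⟶ B}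
    (h : (λ_ A).inv ≫ η_ X.1 Y ▷ A ≫ (α_ _ _ _).hom ≫ X.1 ◁ f =
      (λ_ A).inv ≫ η_ X.1 Y ▷ A ≫ (α_ _ _ _).hom ≫ X.1 ◁ g) : f = g :=
  (tensorLeftHomEquiv A X.1 Y B).injective h

theorem rdual_nat {U V : C} (hU : P U) (hV : P V) (f : U ⟶ V) :
    Y ◁ f ≫ rdualB X Y V hV = rdualB X Y U hU ≫ f ▷ Y := by
  apply rdual_inj X Y
  calc (λ_ U).inv ≫ η_ X.1 Y ▷ U ≫ (α_ _ _ _).hom ≫ X.1 ◁ (Y ◁ f ≫ rdualB X Y V hV)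
      = 𝟙 _ ⊗≫ (η_ X.1 Y ▷ U ≫ (X.1 ⊗ Y) ◁ f) ⊗≫ X.1 ◁ rdualB X Y V hV := by monoidal
    _ = f ≫ ((λ_ V).inv ≫ η_ X.1 Y ▷ V ≫ (α_ _ _ _).hom ≫ X.1 ◁ rdualB X Y V hV) := by
        rw [← whisker_exchange]; monoidal
    _ = 𝟙 _ ⊗≫ (f ▷ (𝟙_ C) ≫ V ◁ η_ X.1 Y) ⊗≫ (X.2.β V hV).inv ▷ Y ⊗≫ 𝟙 _ := by
        rw [rdual_key, rdualH]; monoidal
    _ = 𝟙 _ ⊗≫ U ◁ η_ X.1 Y ⊗≫ (f ▷ X.1 ≫ (X.2.β V hV).inv) ▷ Y ⊗≫ 𝟙 _ := by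
        rw [← whisker_exchange]; monoidal
    _ = rdualH X Y U hU ≫ X.1 ◁ (f ▷ Y) := by
        rw [rcen_inv_nat X hU hV, rdualH]; monoidal
    _ = _ := by rw [← rdual_key]; monoidal

theorem rdual_mon (U V : C) (hU : P U) (hV : P V) (h : P (U ⊗ V)) : rdualB X Y (U ⊗ V) h =
    (α_ _ _ _).inv ≫ (rdualB X Y U hU ▷ V) ≫ (α_ _ _ _).hom ≫ (U ◁ rdualB X Y V hV) ≫
      (α_ _ _ _).inv := by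
  apply rdual_inj X Y
  rw [rdual_key]
  symm
  calc (λ_ (U ⊗ V)).inv ≫ η_ X.1 Y ▷ (U ⊗ V) ≫ (α_ _ _ _).hom ≫ X.1 ◁
          ((α_ _ _ _).inv ≫ (rdualB X Y U hU ▷ V) ≫ (α_ _ _ _).hom ≫ (U ◁ rdualB X Y V hV) ≫
            (α_ _ _ _).inv)
      = 𝟙 _ ⊗≫ ((λ_ U).inv ≫ η_ X.1 Y ▷ U ≫ (α_ _ _ _).hom ≫ X.1 ◁ rdualB X Y U hU) ▷ V ⊗≫
          (X.1 ⊗ U) ◁ rdualB X Y V hV ⊗≫ 𝟙 _ := by monoidal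
    _ = 𝟙 _ ⊗≫ U ◁ η_ X.1 Y ▷ V ⊗≫ ((X.2.β U hU).inv ▷ (Y ⊗ V) ≫
          (X.1 ⊗ U) ◁ rdualB X Y V hV) ⊗≫ 𝟙 _ := by
        rw [rdual_key, rdualH]; monoidal
    _ = 𝟙 _ ⊗≫ U ◁ ((λ_ V).inv ≫ η_ X.1 Y ▷ V ≫ (α_ _ _ _).hom ≫
          X.1 ◁ rdualB X Y V hV) ⊗≫ (X.2.β U hU).inv ▷ (V ⊗ Y) ⊗≫ 𝟙 _ := by
        rw [← whisker_exchange]; monoidal
    _ = 𝟙 _ ⊗≫ (U ⊗ V) ◁ η_ X.1 Y ⊗≫ ((α_ _ _ _).hom ≫ U ◁ (X.2.β V hV).inv ≫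
          (α_ _ _ _).inv ≫ (X.2.β U hU).inv ▷ V ≫ (α_ _ _ _).hom) ▷ Y ⊗≫ 𝟙 _ := by
        rw [rdual_key, rdualH]; monoidal
    _ = rdualH X Y (U ⊗ V) h := by rw [← rcen_inv_mon X U V hU hV h, rdualH]; monoidal

theorem rdual_unit (h1 : P (𝟙_ C)) : rdualB X Y (𝟙_ C) h1 = (ρ_ Y).hom ≫ (λ_ Y).inv := by
  apply rdual_inj X Y
  rw [rdual_key, rdualH, rhb_unit_inv]
  calc (ρ_ (𝟙_ C)).inv ≫ (𝟙_ C) ◁ η_ X.1 Y ≫ (α_ _ _ _).inv ≫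
          ((λ_ X.1).hom ≫ (ρ_ X.1).inv) ▷ Y ≫ (α_ _ _ _).hom
      = (ρ_ (𝟙_ C)).inv ⊗≫ (𝟙_ C) ◁ η_ X.1 Y ⊗≫ 𝟙 _ := by monoidal
    _ = _ := by monoidal

/-- `ε` is compatible with the half-braidings. -/
theorem rdual_ev (U : C) (hU : P U) : (α_ _ _ _).inv ≫ rdualB X Y U hU ▷ X.1 ≫
      (α_ _ _ _).hom ≫ U ◁ ε_ X.1 Y =
    Y ◁ (X.2.β U hU).inv ≫ (α_ _ _ _).inv ≫ ε_ X.1 Y ▷ U ≫ (λ_ U).hom ≫ (ρ_ U).inv := by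
  apply rdual_inj X Y
  calc (λ_ (U ⊗ X.1)).inv ≫ η_ X.1 Y ▷ (U ⊗ X.1) ≫ (α_ _ _ _).hom ≫ X.1 ◁
          ((α_ _ _ _).inv ≫ rdualB X Y U hU ▷ X.1 ≫ (α_ _ _ _).hom ≫ U ◁ ε_ X.1 Y)
      = 𝟙 _ ⊗≫ ((λ_ U).inv ≫ η_ X.1 Y ▷ U ≫ (α_ _ _ _).hom ≫ X.1 ◁ rdualB X Y U hU) ▷
          X.1 ⊗≫ (X.1 ⊗ U) ◁ ε_ X.1 Y ⊗≫ 𝟙 _ := by monoidal
    _ = 𝟙 _ ⊗≫ U ◁ η_ X.1 Y ▷ X.1 ⊗≫ ((X.2.β U hU).inv ▷ (Y ⊗ X.1) ≫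
          (X.1 ⊗ U) ◁ ε_ X.1 Y) ⊗≫ 𝟙 _ := by
        rw [rdual_key, rdualH]; monoidal
    _ = 𝟙 _ ⊗≫ U ◁ (η_ X.1 Y ▷ X.1 ≫ (α_ _ _ _).hom ≫ X.1 ◁ ε_ X.1 Y) ⊗≫
          (X.2.β U hU).inv ⊗≫ 𝟙 _ := by
        rw [← whisker_exchange]; monoidal
    _ = 𝟙 _ ⊗≫ (X.2.β U hU).inv ⊗≫ 𝟙 _ := by
        rw [ExactPairing.evaluation_coevaluation]; monoidal
    _ = 𝟙 _ ⊗≫ (X.2.β U hU).inv ⊗≫ (η_ X.1 Y ▷ X.1 ≫ (α_ _ _ _).hom ≫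
          X.1 ◁ ε_ X.1 Y) ▷ U ⊗≫ 𝟙 _ := by
        rw [ExactPairing.evaluation_coevaluation]; monoidal
    _ = 𝟙 _ ⊗≫ (𝟙_ C ◁ (X.2.β U hU).inv ≫ η_ X.1 Y ▷ (X.1 ⊗ U)) ⊗≫
          X.1 ◁ ε_ X.1 Y ▷ U ⊗≫ 𝟙 _ := by monoidal
    _ = _ := by rw [whisker_exchange]; monoidal

/-- `η` is compatible with the half-braidings. -/
theorem rdual_coev (U : C) (hU : P U) : η_ X.1 Y ▷ U ≫ (α_ _ _ _).hom ≫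
      X.1 ◁ rdualB X Y U hU ≫
      (α_ _ _ _).inv ≫ (X.2.β U hU).hom ▷ Y ≫ (α_ _ _ _).hom =
    (λ_ U).hom ≫ (ρ_ U).inv ≫ U ◁ η_ X.1 Y := by
  have h := rdual_key X Y U hU
  rw [Iso.inv_comp_eq] at h
  calc η_ X.1 Y ▷ U ≫ (α_ _ _ _).hom ≫ X.1 ◁ rdualB X Y U hU ≫
          (α_ _ _ _).inv ≫ (X.2.β U hU).hom ▷ Y ≫ (α_ _ _ _).hom
      = (η_ X.1 Y ▷ U ≫ (α_ _ _ _).hom ≫ X.1 ◁ rdualB X Y U hU) ≫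
          (α_ _ _ _).inv ≫ (X.2.β U hU).hom ▷ Y ≫ (α_ _ _ _).hom := by
        simp only [Category.assoc]
    _ = _ := by
        rw [h, rdualH]
        simp

end right

section left

variable [ExactPairing Y X.1]

def ldualH (U : C) (hU : P U) : U ⟶ (Y ⊗ U) ⊗ X.1 :=
  (λ_ U).inv ≫ η_ Y X.1 ▷ U ≫ (α_ _ _ _).hom ≫ Y ◁ (X.2.β U hU).hom ≫ (α_ _ _ _).inv

/-- The inverse of the half-braiding on the left dual. -/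
def ldualB (U : C) (hU : P U) : U ⊗ Y ⟶ Y ⊗ U :=
  (tensorRightHomEquiv U Y X.1 (Y ⊗ U)).symm (ldualH X Y U hU)

theorem ldual_key (U : C) (hU : P U) :
    (ρ_ U).inv ≫ U ◁ η_ Y X.1 ≫ (α_ _ _ _).inv ≫ ldualB X Y U hU ▷ X.1 = ldualH X Y U hU :=
  (tensorRightHomEquiv U Y X.1 (Y ⊗ U)).apply_symm_apply (ldualH X Y U hU)

theorem ldual_inj {A B : C} {f g : A ⊗ Y ⟶ B}
    (h : (ρ_ A).inv ≫ A ◁ η_ Y X.1 ≫ (α_ _ _ _).inv ≫ f ▷ X.1 =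
      (ρ_ A).inv ≫ A ◁ η_ Y X.1 ≫ (α_ _ _ _).inv ≫ g ▷ X.1) : f = g :=
  (tensorRightHomEquiv A Y X.1 B).injective h

theorem ldual_nat {U V : C} (hU : P U) (hV : P V) (f : U ⟶ V) :
    f ▷ Y ≫ ldualB X Y V hV = ldualB X Y U hU ≫ Y ◁ f := by
  apply ldual_inj X Y
  calc (ρ_ U).inv ≫ U ◁ η_ Y X.1 ≫ (α_ _ _ _).inv ≫ (f ▷ Y ≫ ldualB X Y V hV) ▷ X.1
      = 𝟙 _ ⊗≫ (U ◁ η_ Y X.1 ≫ f ▷ (Y ⊗ X.1)) ⊗≫ ldualB X Y V hV ▷ X.1 := by monoidal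
    _ = f ≫ ((ρ_ V).inv ≫ V ◁ η_ Y X.1 ≫ (α_ _ _ _).inv ≫ ldualB X Y V hV ▷ X.1) := by
        rw [whisker_exchange]; monoidal
    _ = 𝟙 _ ⊗≫ ((𝟙_ C) ◁ f ≫ η_ Y X.1 ▷ V) ⊗≫ Y ◁ (X.2.β V hV).hom ⊗≫ 𝟙 _ := by
        rw [ldual_key, ldualH]; monoidal
    _ = 𝟙 _ ⊗≫ η_ Y X.1 ▷ U ⊗≫ Y ◁ (X.1 ◁ f ≫ (X.2.β V hV).hom) ⊗≫ 𝟙 _ := by
        rw [whisker_exchange]; monoidal
    _ = ldualH X Y U hU ≫ (Y ◁ f) ▷ X.1 := by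
        rw [X.2.naturality hU hV, ldualH]; monoidal
    _ = _ := by rw [← ldual_key]; monoidal

theorem ldual_mon (U V : C) (hU : P U) (hV : P V) (h : P (U ⊗ V)) : ldualB X Y (U ⊗ V) h =
    (α_ _ _ _).hom ≫ (U ◁ ldualB X Y V hV) ≫ (α_ _ _ _).inv ≫ (ldualB X Y U hU ▷ V) ≫
      (α_ _ _ _).hom := by
  apply ldual_inj X Y
  rw [ldual_key]
  symm
  calc (ρ_ (U ⊗ V)).inv ≫ (U ⊗ V) ◁ η_ Y X.1 ≫ (α_ _ _ _).inv ≫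
          ((α_ _ _ _).hom ≫ (U ◁ ldualB X Y V hV) ≫ (α_ _ _ _).inv ≫ (ldualB X Y U hU ▷ V) ≫
            (α_ _ _ _).hom) ▷ X.1
      = 𝟙 _ ⊗≫ U ◁ ((ρ_ V).inv ≫ V ◁ η_ Y X.1 ≫ (α_ _ _ _).inv ≫ ldualB X Y V hV ▷ X.1) ⊗≫
          ldualB X Y U hU ▷ (V ⊗ X.1) ⊗≫ 𝟙 _ := by monoidal
    _ = 𝟙 _ ⊗≫ U ◁ η_ Y X.1 ▷ V ⊗≫ ((U ⊗ Y) ◁ (X.2.β V hV).hom ≫
          ldualB X Y U hU ▷ (V ⊗ X.1)) ⊗≫ 𝟙 _ := by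
        rw [ldual_key, ldualH]; monoidal
    _ = 𝟙 _ ⊗≫ ((ρ_ U).inv ≫ U ◁ η_ Y X.1 ≫ (α_ _ _ _).inv ≫ ldualB X Y U hU ▷ X.1) ▷ V ⊗≫
          (Y ⊗ U) ◁ (X.2.β V hV).hom ⊗≫ 𝟙 _ := by
        rw [whisker_exchange]; monoidal
    _ = 𝟙 _ ⊗≫ η_ Y X.1 ▷ (U ⊗ V) ⊗≫ Y ◁ ((α_ _ _ _).inv ≫ ((X.2.β U hU).hom ▷ V) ≫
          (α_ _ _ _).hom ≫ (U ◁ (X.2.β V hV).hom) ≫ (α_ _ _ _).inv) ⊗≫ 𝟙 _ := by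
        rw [ldual_key, ldualH]; monoidal
    _ = ldualH X Y (U ⊗ V) h := by rw [← X.2.monoidal U V hU hV h, ldualH]; monoidal

theorem ldual_unit (h1 : P (𝟙_ C)) : ldualB X Y (𝟙_ C) h1 = (λ_ Y).hom ≫ (ρ_ Y).inv := by
  apply ldual_inj X Y
  rw [ldual_key, ldualH, rhb_unit]
  calc (λ_ (𝟙_ C)).inv ≫ η_ Y X.1 ▷ (𝟙_ C) ≫ (α_ _ _ _).hom ≫
          Y ◁ ((ρ_ X.1).hom ≫ (λ_ X.1).inv) ≫ (α_ _ _ _).inv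
      = (λ_ (𝟙_ C)).inv ⊗≫ η_ Y X.1 ▷ (𝟙_ C) ⊗≫ 𝟙 _ := by monoidal
    _ = _ := by monoidal

/-- `ε` is compatible with the half-braidings. -/
theorem ldual_ev (U : C) (hU : P U) : (α_ _ _ _).hom ≫ X.1 ◁ ldualB X Y U hU ≫
      (α_ _ _ _).inv ≫ ε_ Y X.1 ▷ U =
    (X.2.β U hU).hom ▷ Y ≫ (α_ _ _ _).hom ≫ U ◁ ε_ Y X.1 ≫ (ρ_ U).hom ≫ (λ_ U).inv := by
  apply ldual_inj X Y
  calc (ρ_ (X.1 ⊗ U)).inv ≫ (X.1 ⊗ U) ◁ η_ Y X.1 ≫ (α_ _ _ _).inv ≫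
          ((α_ _ _ _).hom ≫ X.1 ◁ ldualB X Y U hU ≫ (α_ _ _ _).inv ≫ ε_ Y X.1 ▷ U) ▷ X.1
      = 𝟙 _ ⊗≫ X.1 ◁ ((ρ_ U).inv ≫ U ◁ η_ Y X.1 ≫ (α_ _ _ _).inv ≫
          ldualB X Y U hU ▷ X.1) ⊗≫ ε_ Y X.1 ▷ (U ⊗ X.1) ⊗≫ 𝟙 _ := by monoidal
    _ = 𝟙 _ ⊗≫ X.1 ◁ η_ Y X.1 ▷ U ⊗≫ ((X.1 ⊗ Y) ◁ (X.2.β U hU).hom ≫
          ε_ Y X.1 ▷ (U ⊗ X.1)) ⊗≫ 𝟙 _ := by
        rw [ldual_key, ldualH]; monoidal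
    _ = 𝟙 _ ⊗≫ (X.1 ◁ η_ Y X.1 ≫ (α_ _ _ _).inv ≫ ε_ Y X.1 ▷ X.1) ▷ U ⊗≫
          (X.2.β U hU).hom ⊗≫ 𝟙 _ := by
        rw [whisker_exchange]; monoidal
    _ = 𝟙 _ ⊗≫ (X.2.β U hU).hom ⊗≫ 𝟙 _ := by
        rw [ExactPairing.coevaluation_evaluation]; monoidal
    _ = 𝟙 _ ⊗≫ (X.2.β U hU).hom ⊗≫ U ◁ (X.1 ◁ η_ Y X.1 ≫ (α_ _ _ _).inv ≫
          ε_ Y X.1 ▷ X.1) ⊗≫ 𝟙 _ := by
        rw [ExactPairing.coevaluation_evaluation]; monoidal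
    _ = 𝟙 _ ⊗≫ ((X.2.β U hU).hom ▷ (𝟙_ C) ≫ (U ⊗ X.1) ◁ η_ Y X.1) ⊗≫
          U ◁ ε_ Y X.1 ▷ X.1 ⊗≫ 𝟙 _ := by monoidal
    _ = _ := by rw [← whisker_exchange]; monoidal

end left

end Dual

section Rig

variable {C : Type u} [Category.{v} C] [Abelian C] [MonoidalCategory C] [RigidCategory C]
  {P : ObjectProperty C} [hP : TensorSub P]

/-- The right dual in the relative center. -/
def rcDual (X : RCen P) (Y : C) [ExactPairing X.1 Y] : RCen P :=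
  ⟨Y, { β := fun U hU => ⟨rdualB X Y U hU, rlaxInv (rdualB X Y) U hU,
          rlax_hom_inv (rdualB X Y) (rdual_nat X Y) (rdual_mon X Y) (rdual_unit X Y hP.unit) U hU,
          rlax_inv_hom (rdualB X Y) (rdual_nat X Y) (rdual_mon X Y) (rdual_unit X Y hP.unit)
            U hU⟩
        monoidal := rdual_mon X Y
        naturality := rdual_nat X Y }⟩

/-- The coevaluation in the relative center. -/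
def rcCoev (X : RCen P) (Y : C) [ExactPairing X.1 Y] : 𝟙_ (RCen P) ⟶ X ⊗ rcDual X Y :=
  ⟨η_ X.1 Y, fun U hU => by
    refine Eq.trans ?_ ((rdual_coev X Y U hU).trans (Category.assoc _ _ _).symm)
    rfl⟩

/-- The evaluation in the relative center. -/
def rcEv (X : RCen P) (Y : C) [ExactPairing X.1 Y] : rcDual X Y ⊗ X ⟶ 𝟙_ (RCen P) :=
  ⟨ε_ X.1 Y, fun U hU => by
    change ε_ X.1 Y ▷ U ≫ (λ_ U).hom ≫ (ρ_ U).inv = ((α_ _ _ _).hom ≫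
      Y ◁ (X.2.β U hU).hom ≫ (α_ _ _ _).inv ≫ rdualB X Y U hU ▷ X.1 ≫ (α_ _ _ _).hom) ≫
      U ◁ ε_ X.1 Y
    have h := rdual_ev X Y U hU
    simp only [Category.assoc]
    rw [h, ← MonoidalCategory.whiskerLeft_comp_assoc, Iso.hom_inv_id]
    simp⟩

instance rcPairing (X : RCen P) (Y : C) [ExactPairing X.1 Y] :
    ExactPairing X (rcDual X Y) where
  coevaluation' := rcCoev X Y
  evaluation' := rcEv X Y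
  coevaluation_evaluation' := RCen.ext _ _ (by
    have h : Y ◁ η_ X.1 Y ≫ RCen.Hom.f (α_ (rcDual X Y) X (rcDual X Y)).inv ≫
        ε_ X.1 Y ▷ Y = RCen.Hom.f (ρ_ (rcDual X Y)).hom ≫
          RCen.Hom.f (λ_ (rcDual X Y)).inv := by
      rw [RCen.associator_inv_f, RCen.leftUnitor_inv_f, RCen.rightUnitor_hom_f]
      exact ExactPairing.coevaluation_evaluation X.1 Y
    exact h)
  evaluation_coevaluation' := RCen.ext _ _ (by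
    have h : η_ X.1 Y ▷ X.1 ≫ RCen.Hom.f (α_ X (rcDual X Y) X).hom ≫
        X.1 ◁ ε_ X.1 Y = RCen.Hom.f (λ_ X).hom ≫ RCen.Hom.f (ρ_ X).inv := by
      rw [RCen.associator_hom_f, RCen.leftUnitor_hom_f, RCen.rightUnitor_inv_f]
      exact ExactPairing.evaluation_coevaluation X.1 Y
    exact h)

theorem lrc_mon (X : RCen P) (Y : C) [ExactPairing Y X.1] (U V : C) (hU : P U) (hV : P V)
    (h : P (U ⊗ V)) : mlaxInv (ldualB X Y) (U ⊗ V) h =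
      (α_ _ _ _).inv ≫ (mlaxInv (ldualB X Y) U hU ▷ V) ≫ (α_ _ _ _).hom ≫
        (U ◁ mlaxInv (ldualB X Y) V hV) ≫ (α_ _ _ _).inv := by
  have h1 := mlax_inv_hom (ldualB X Y) (ldual_nat X Y) (ldual_mon X Y)
    (ldual_unit X Y hP.unit) (U ⊗ V) h
  have h2 : ldualB X Y (U ⊗ V) h ≫ ((α_ _ _ _).inv ≫ (mlaxInv (ldualB X Y) U hU ▷ V) ≫
      (α_ _ _ _).hom ≫ (U ◁ mlaxInv (ldualB X Y) V hV) ≫ (α_ _ _ _).inv) = 𝟙 _ := by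
    rw [ldual_mon X Y U V hU hV h]
    simp only [Category.assoc, Iso.hom_inv_id_assoc]
    rw [← comp_whiskerRight_assoc, mlax_hom_inv (ldualB X Y) (ldual_nat X Y) (ldual_mon X Y)
      (ldual_unit X Y hP.unit) U hU, id_whiskerRight, Category.id_comp,
      Iso.inv_hom_id_assoc, ← MonoidalCategory.whiskerLeft_comp_assoc,
      mlax_hom_inv (ldualB X Y) (ldual_nat X Y) (ldual_mon X Y)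
        (ldual_unit X Y hP.unit) V hV, MonoidalCategory.whiskerLeft_id, Category.id_comp,
      Iso.hom_inv_id]
  calc mlaxInv (ldualB X Y) (U ⊗ V) h = mlaxInv (ldualB X Y) (U ⊗ V) h ≫
        (ldualB X Y (U ⊗ V) h ≫ ((α_ _ _ _).inv ≫ (mlaxInv (ldualB X Y) U hU ▷ V) ≫
      (α_ _ _ _).hom ≫ (U ◁ mlaxInv (ldualB X Y) V hV) ≫ (α_ _ _ _).inv)) := by
        rw [h2, Category.comp_id]
    _ = _ := by rw [← Category.assoc, h1, Category.id_comp]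

theorem lrc_nat (X : RCen P) (Y : C) [ExactPairing Y X.1] {U V : C} (hU : P U) (hV : P V)
    (f : U ⟶ V) : Y ◁ f ≫ mlaxInv (ldualB X Y) V hV = mlaxInv (ldualB X Y) U hU ≫ f ▷ Y := by
  have h1 := mlax_inv_hom (ldualB X Y) (ldual_nat X Y) (ldual_mon X Y)
    (ldual_unit X Y hP.unit) U hU
  have h2 := mlax_hom_inv (ldualB X Y) (ldual_nat X Y) (ldual_mon X Y)
    (ldual_unit X Y hP.unit) V hV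
  calc Y ◁ f ≫ mlaxInv (ldualB X Y) V hV
      = (mlaxInv (ldualB X Y) U hU ≫ ldualB X Y U hU) ≫ Y ◁ f ≫
          mlaxInv (ldualB X Y) V hV := by rw [h1, Category.id_comp]
    _ = mlaxInv (ldualB X Y) U hU ≫ f ▷ Y ≫ ldualB X Y V hV ≫
          mlaxInv (ldualB X Y) V hV := by
        rw [Category.assoc, ← Category.assoc (ldualB X Y U hU), ← ldual_nat X Y hU hV f,
          Category.assoc]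
    _ = _ := by rw [h2, Category.comp_id]

/-- The left dual in the relative center. -/
def rcLDual (X : RCen P) (Y : C) [ExactPairing Y X.1] : RCen P :=
  ⟨Y, { β := fun U hU => ⟨mlaxInv (ldualB X Y) U hU, ldualB X Y U hU,
          mlax_inv_hom (ldualB X Y) (ldual_nat X Y) (ldual_mon X Y) (ldual_unit X Y hP.unit) U hU,
          mlax_hom_inv (ldualB X Y) (ldual_nat X Y) (ldual_mon X Y) (ldual_unit X Y hP.unit)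
            U hU⟩
        monoidal := lrc_mon X Y
        naturality := lrc_nat X Y }⟩

/-- The coevaluation in the relative center. -/
def rcLCoev (X : RCen P) (Y : C) [ExactPairing Y X.1] : 𝟙_ (RCen P) ⟶ rcLDual X Y ⊗ X :=
  ⟨η_ Y X.1, fun U hU => by
    change η_ Y X.1 ▷ U ≫ ((α_ _ _ _).hom ≫ Y ◁ (X.2.β U hU).hom ≫ (α_ _ _ _).inv ≫
      mlaxInv (ldualB X Y) U hU ▷ X.1 ≫ (α_ _ _ _).hom) =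
      ((λ_ U).hom ≫ (ρ_ U).inv) ≫ U ◁ η_ Y X.1
    have h := ldual_key X Y U hU
    have h2 := mlax_hom_inv (ldualB X Y) (ldual_nat X Y) (ldual_mon X Y)
      (ldual_unit X Y hP.unit) U hU
    have h3 : η_ Y X.1 ▷ U ≫ (α_ _ _ _).hom ≫ Y ◁ (X.2.β U hU).hom ≫ (α_ _ _ _).inv =
        (λ_ U).hom ≫ (ρ_ U).inv ≫ U ◁ η_ Y X.1 ≫ (α_ _ _ _).inv ≫
          ldualB X Y U hU ▷ X.1 := by
      rw [h, ldualH, Iso.hom_inv_id_assoc]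
    calc η_ Y X.1 ▷ U ≫ ((α_ _ _ _).hom ≫ Y ◁ (X.2.β U hU).hom ≫ (α_ _ _ _).inv ≫
          mlaxInv (ldualB X Y) U hU ▷ X.1 ≫ (α_ _ _ _).hom)
        = (η_ Y X.1 ▷ U ≫ (α_ _ _ _).hom ≫ Y ◁ (X.2.β U hU).hom ≫ (α_ _ _ _).inv) ≫
          mlaxInv (ldualB X Y) U hU ▷ X.1 ≫ (α_ _ _ _).hom := by
          simp only [Category.assoc]
      _ = (λ_ U).hom ≫ (ρ_ U).inv ≫ U ◁ η_ Y X.1 ≫ (α_ _ _ _).inv ≫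
          (ldualB X Y U hU ≫ mlaxInv (ldualB X Y) U hU) ▷ X.1 ≫ (α_ _ _ _).hom := by
          rw [h3, comp_whiskerRight]
          simp only [Category.assoc]
      _ = _ := by
          rw [h2, id_whiskerRight, Category.id_comp, Iso.inv_hom_id, Category.comp_id,
            Category.assoc]⟩

/-- The evaluation in the relative center. -/
def rcLEv (X : RCen P) (Y : C) [ExactPairing Y X.1] : X ⊗ rcLDual X Y ⟶ 𝟙_ (RCen P) :=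
  ⟨ε_ Y X.1, fun U hU => by
    change ε_ Y X.1 ▷ U ≫ (λ_ U).hom ≫ (ρ_ U).inv = ((α_ _ _ _).hom ≫
      X.1 ◁ mlaxInv (ldualB X Y) U hU ≫ (α_ _ _ _).inv ≫ (X.2.β U hU).hom ▷ Y ≫
      (α_ _ _ _).hom) ≫ U ◁ ε_ Y X.1
    have h := ldual_ev X Y U hU
    have h2 := mlax_inv_hom (ldualB X Y) (ldual_nat X Y) (ldual_mon X Y)
      (ldual_unit X Y hP.unit) U hU
    have h3 : (X.2.β U hU).hom ▷ Y ≫ (α_ _ _ _).hom ≫ U ◁ ε_ Y X.1 =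
        ((α_ _ _ _).hom ≫ X.1 ◁ ldualB X Y U hU ≫ (α_ _ _ _).inv ≫ ε_ Y X.1 ▷ U) ≫
          (λ_ U).hom ≫ (ρ_ U).inv := by
      rw [h]
      simp
    calc ε_ Y X.1 ▷ U ≫ (λ_ U).hom ≫ (ρ_ U).inv
        = (α_ _ _ _).hom ≫ X.1 ◁ (mlaxInv (ldualB X Y) U hU ≫ ldualB X Y U hU) ≫
            (α_ _ _ _).inv ≫ ε_ Y X.1 ▷ U ≫ (λ_ U).hom ≫ (ρ_ U).inv := by
          rw [h2, MonoidalCategory.whiskerLeft_id, Category.id_comp, Iso.hom_inv_id_assoc]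
      _ = (α_ _ _ _).hom ≫ X.1 ◁ mlaxInv (ldualB X Y) U hU ≫ (α_ _ _ _).inv ≫
            (((α_ _ _ _).hom ≫ X.1 ◁ ldualB X Y U hU ≫ (α_ _ _ _).inv ≫ ε_ Y X.1 ▷ U) ≫
          (λ_ U).hom ≫ (ρ_ U).inv) := by
          rw [MonoidalCategory.whiskerLeft_comp]
          simp only [Category.assoc, Iso.inv_hom_id_assoc]
      _ = _ := by
          rw [← h3]
          simp only [Category.assoc]⟩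

instance rcLPairing (X : RCen P) (Y : C) [ExactPairing Y X.1] :
    ExactPairing (rcLDual X Y) X where
  coevaluation' := rcLCoev X Y
  evaluation' := rcLEv X Y
  coevaluation_evaluation' := RCen.ext _ _ (by
    have h : X.1 ◁ η_ Y X.1 ≫ RCen.Hom.f (α_ X (rcLDual X Y) X).inv ≫
        ε_ Y X.1 ▷ X.1 = RCen.Hom.f (ρ_ X).hom ≫ RCen.Hom.f (λ_ X).inv := by
      rw [RCen.associator_inv_f, RCen.leftUnitor_inv_f, RCen.rightUnitor_hom_f]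
      exact ExactPairing.coevaluation_evaluation Y X.1
    exact h)
  evaluation_coevaluation' := RCen.ext _ _ (by
    have h : η_ Y X.1 ▷ Y ≫ RCen.Hom.f (α_ (rcLDual X Y) X (rcLDual X Y)).hom ≫
        Y ◁ ε_ Y X.1 = RCen.Hom.f (λ_ (rcLDual X Y)).hom ≫
          RCen.Hom.f (ρ_ (rcLDual X Y)).inv := by
      rw [RCen.associator_hom_f, RCen.leftUnitor_hom_f, RCen.rightUnitor_inv_f]
      exact ExactPairing.evaluation_coevaluation Y X.1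
    exact h)

end Rig

section Final

variable {k : Type*} [Field k] {C : Type u} [Category.{v} C] [Abelian C]
  [Linear k C] [MonoidalCategory C] [MonoidalPreadditive C] [MonoidalLinear k C]
  [RigidCategory C] (P : ObjectProperty C) [hP : TensorSub P]

instance rcRigid : RigidCategory (RCen P) where
  rightDual X := { rightDual := rcDual X (X.1ᘁ) }
  leftDual X := { leftDual := rcLDual X (ᘁX.1) }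

/-- A lax half-braiding is invertible. -/
theorem rc_lax_iso {M : C} (δ : ∀ U, P U → (M ⊗ U ⟶ U ⊗ M))
    (hnat : ∀ {U V : C} (hU : P U) (hV : P V) (f : U ⟶ V), M ◁ f ≫ δ V hV = δ U hU ≫ f ▷ M)
    (hmon : ∀ (U V : C) (hU : P U) (hV : P V) (h : P (U ⊗ V)), δ (U ⊗ V) h =
      (α_ _ _ _).inv ≫ (δ U hU ▷ V) ≫ (α_ _ _ _).hom ≫ (U ◁ δ V hV) ≫ (α_ _ _ _).inv)
    (hunit : δ (𝟙_ C) hP.unit = (ρ_ M).hom ≫ (λ_ M).inv) (U : C) (hU : P U) :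
    IsIso (δ U hU) :=
  ⟨rlaxInv δ U hU, rlax_hom_inv δ hnat hmon hunit U hU, rlax_inv_hom δ hnat hmon hunit U hU⟩

end Final

end Pool.Agent.RC40
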