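import Pool.Agent.RC40.AB
import Pool.Agent.RC40.RIG
import Pool.Agent.MUG.CenRig

/-! Row DP: the copy of the center of `P` in the center of the relative center (helper21). -/

open CategoryTheory MonoidalCategory Limits Abelian

universe w v u

set_option backward.isDefEq.respectTransparency.types false
set_option linter.unusedSectionVars false

noncomputable section

namespace Pool.Agent.RC40

open Pool.Agent.MUG

section Mon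

variable {C : Type u} [Category.{v} C] [MonoidalCategory C]

theorem dp_rdual {X D Y : C} [ExactPairing X D] (bX : X ⊗ Y ≅ Y ⊗ X) (bD : D ⊗ Y ≅ Y ⊗ D)
    (cX : Y ⊗ X ⟶ X ⊗ Y) (cD : Y ⊗ D ⟶ D ⊗ Y)
    (h1 : (α_ D X Y).hom ≫ D ◁ bX.hom ≫ (α_ D Y X).inv ≫ bD.hom ▷ X ≫ (α_ Y D X).hom ≫
      Y ◁ ε_ X D = ε_ X D ▷ Y ≫ (λ_ Y).hom ≫ (ρ_ Y).inv)
    (h2 : (α_ Y D X).inv ≫ cD ▷ X ≫ (α_ D Y X).hom ≫ D ◁ cX ≫ (α_ D X Y).inv ≫ ε_ X D ▷ Y =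
      Y ◁ ε_ X D ≫ (ρ_ Y).hom ≫ (λ_ Y).inv)
    (h : bX.hom ≫ cX = 𝟙 _) : bD.hom ≫ cD = 𝟙 _ := by
  have h3 : cX ≫ bX.hom = 𝟙 _ := by
    have : cX = bX.inv := by rw [← cancel_epi bX.hom, h, Iso.hom_inv_id]
    rw [this, Iso.inv_hom_id]
  have h4 : ε_ X D ▷ Y = (α_ D X Y).hom ≫ D ◁ bX.hom ≫ (α_ D Y X).inv ≫ bD.hom ▷ X ≫
      (α_ Y D X).hom ≫ Y ◁ ε_ X D ≫ (ρ_ Y).hom ≫ (λ_ Y).inv := by
    have := congrArg (· ≫ (ρ_ Y).hom ≫ (λ_ Y).inv) h1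
    simp only [Category.assoc, Iso.inv_hom_id_assoc, Iso.hom_inv_id, Category.comp_id] at this
    exact this.symm
  rw [h4] at h2
  rw [Iso.inv_hom_id_assoc, ← whiskerLeft_comp_assoc, h3, whiskerLeft_id, Category.id_comp,
    Iso.hom_inv_id_assoc, ← comp_whiskerRight_assoc] at h2
  have h5 : cD ≫ bD.hom = 𝟙 _ := by
    apply (tensorRightHomEquiv (Y ⊗ D) X D Y).symm.injective
    change ((cD ≫ bD.hom) ▷ X) ≫ (α_ Y D X).hom ≫ (Y ◁ ε_ X D) ≫ (ρ_ Y).hom =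
      (𝟙 _ ▷ X) ≫ (α_ Y D X).hom ≫ (Y ◁ ε_ X D) ≫ (ρ_ Y).hom
    rw [id_whiskerRight, Category.id_comp]
    have := congrArg (fun t => (α_ Y D X).hom ≫ t ≫ (λ_ Y).hom) h2
    simpa using this
  have h6 : cD = bD.inv := by rw [← cancel_mono bD.hom, h5, Iso.inv_hom_id]
  rw [h6, Iso.hom_inv_id]

theorem dp_ldual {X D Y : C} [ExactPairing D X] (bX : X ⊗ Y ⟶ Y ⊗ X) (bD : D ⊗ Y ⟶ Y ⊗ D)
    (cX : Y ⊗ X ⟶ X ⊗ Y) (cD : Y ⊗ D ⟶ D ⊗ Y)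
    (h1 : (α_ X D Y).hom ≫ X ◁ bD ≫ (α_ X Y D).inv ≫ bX ▷ D ≫ (α_ Y X D).hom ≫
      Y ◁ ε_ D X = ε_ D X ▷ Y ≫ (λ_ Y).hom ≫ (ρ_ Y).inv)
    (h2 : (α_ Y X D).inv ≫ cX ▷ D ≫ (α_ X Y D).hom ≫ X ◁ cD ≫ (α_ X D Y).inv ≫ ε_ D X ▷ Y =
      Y ◁ ε_ D X ≫ (ρ_ Y).hom ≫ (λ_ Y).inv)
    (h : bX ≫ cX = 𝟙 _) : bD ≫ cD = 𝟙 _ := by
  have h4 : Y ◁ ε_ D X = (α_ Y X D).inv ≫ cX ▷ D ≫ (α_ X Y D).hom ≫ X ◁ cD ≫ (α_ X D Y).inv ≫
      ε_ D X ▷ Y ≫ (λ_ Y).hom ≫ (ρ_ Y).inv := by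
    have := congrArg (· ≫ (λ_ Y).hom ≫ (ρ_ Y).inv) h2
    simp only [Category.assoc, Iso.inv_hom_id_assoc, Iso.hom_inv_id, Category.comp_id] at this
    exact this.symm
  rw [h4] at h1
  rw [Iso.hom_inv_id_assoc, ← comp_whiskerRight_assoc, h, id_whiskerRight, Category.id_comp,
    Iso.inv_hom_id_assoc, ← whiskerLeft_comp_assoc] at h1
  apply (tensorLeftHomEquiv (D ⊗ Y) D X Y).symm.injective
  change (X ◁ (bD ≫ cD)) ≫ (α_ X D Y).inv ≫ (ε_ D X ▷ Y) ≫ (λ_ Y).hom =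
    (X ◁ 𝟙 _) ≫ (α_ X D Y).inv ≫ (ε_ D X ▷ Y) ≫ (λ_ Y).hom
  rw [whiskerLeft_id, Category.id_comp]
  have := congrArg (fun t => (α_ X D Y).inv ≫ t ≫ (ρ_ Y).hom) h1
  simpa using this

theorem dp_tensor {X X' Y : C} (b : X ⊗ Y ⟶ Y ⊗ X) (c : Y ⊗ X ⟶ X ⊗ Y)
    (b' : X' ⊗ Y ⟶ Y ⊗ X') (c' : Y ⊗ X' ⟶ X' ⊗ Y) (h : b ≫ c = 𝟙 _) (h' : b' ≫ c' = 𝟙 _) :
    (α_ X X' Y).hom ≫ X ◁ b' ≫ (α_ X Y X').inv ≫ b ▷ X' ≫ c ▷ X' ≫ (α_ X Y X').hom ≫ X ◁ c' ≫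
      (α_ X X' Y).inv = 𝟙 _ := by
  rw [← comp_whiskerRight_assoc, h, id_whiskerRight, Category.id_comp,
    Iso.inv_hom_id_assoc, ← whiskerLeft_comp_assoc, h', whiskerLeft_id, Category.id_comp,
    Iso.hom_inv_id]

end Mon

section RC

variable {k : Type*} [Field k] {C : Type u} [Category.{v} C] [Abelian C]
  [Linear k C] [MonoidalCategory C] [MonoidalPreadditive C] [MonoidalLinear k C]
  [RigidCategory C] (P : ObjectProperty C) [hP : TensorSub P]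

variable {P}

variable (P)

/-- The copy of the center of `P` inside the center of the relative center. -/
def dProp : ObjectProperty (Center (RCen P)) := fun N =>
  ∃ h : P N.1.1, ∀ V : RCen P, (N.2.β V).hom.f ≫ (V.2.β N.1.1 h).hom = 𝟙 (N.1.1 ⊗ V.1)

variable {P}

theorem dp_iso {X Y : C} (e : X ≅ Y) (h : P X) : P Y := hP.sub e.inv h

/-- The pairing of the underlying objects. -/
@[instance_reducible]
def dpPair (N D : Center (RCen P)) [ExactPairing N D] : ExactPairing N.1.1 D.1.1 where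
  coevaluation' := (η_ N D).f.f
  evaluation' := (ε_ N D).f.f
  coevaluation_evaluation' := by
    have h0 := congrArg Center.Hom.f (ExactPairing.coevaluation_evaluation N D)
    have h1 : D.1 ◁ (η_ N D).f ≫ (α_ D N D).inv.f ≫ (ε_ N D).f ▷ D.1 =
      (ρ_ D.1).hom ≫ (λ_ D).inv.f := h0
    rw [Center.associator_inv_f, Center.leftUnitor_inv_f] at h1
    have h2 := congrArg RCen.Hom.f h1
    have h3 : D.1.1 ◁ (η_ N D).f.f ≫ RCen.Hom.f (α_ D.1 N.1 D.1).inv ≫ (ε_ N D).f.f ▷ D.1.1 =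
      (ρ_ D.1.1).hom ≫ RCen.Hom.f (λ_ D.1).inv := h2
    rw [RCen.associator_inv_f, RCen.leftUnitor_inv_f] at h3
    exact h3
  evaluation_coevaluation' := by
    have h0 := congrArg Center.Hom.f (ExactPairing.evaluation_coevaluation N D)
    have h1 : (η_ N D).f ▷ N.1 ≫ (α_ N D N).hom.f ≫ N.1 ◁ (ε_ N D).f =
      (λ_ N.1).hom ≫ (ρ_ N).inv.f := h0
    rw [Center.rightUnitor_inv_f] at h1
    have h2 := congrArg RCen.Hom.f h1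
    have h3 : (η_ N D).f.f ▷ N.1.1 ≫ (α_ N.1.1 D.1.1 N.1.1).hom ≫ N.1.1 ◁ (ε_ N D).f.f =
      (λ_ N.1.1).hom ≫ RCen.Hom.f (ρ_ N.1).inv := h2
    rw [RCen.rightUnitor_inv_f] at h3
    exact h3

theorem dp_ev (N D : Center (RCen P)) [ExactPairing N D] (V : RCen P) :
    (α_ D.1.1 N.1.1 V.1).hom ≫ D.1.1 ◁ (N.2.β V).hom.f ≫ (α_ D.1.1 V.1 N.1.1).inv ≫
      (D.2.β V).hom.f ▷ N.1.1 ≫ (α_ V.1 D.1.1 N.1.1).hom ≫ V.1 ◁ (ε_ N D).f.f =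
      (ε_ N D).f.f ▷ V.1 ≫ (λ_ V.1).hom ≫ (ρ_ V.1).inv := by
  have h := congrArg RCen.Hom.f ((ε_ N D).comm V)
  have h' : (ε_ N D).f.f ▷ V.1 ≫ (λ_ V.1).hom ≫ RCen.Hom.f (ρ_ V).inv =
    ((α_ D.1.1 N.1.1 V.1).hom ≫ D.1.1 ◁ (N.2.β V).hom.f ≫ RCen.Hom.f (α_ D.1 V N.1).inv ≫
      (D.2.β V).hom.f ▷ N.1.1 ≫ (α_ V.1 D.1.1 N.1.1).hom) ≫ V.1 ◁ (ε_ N D).f.f := h
  rw [RCen.associator_inv_f, RCen.rightUnitor_inv_f] at h'
  rw [h']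
  simp only [Category.assoc]

theorem dp_ev' (V : RCen P) {X D : C} (hX : P X) (hD : P D) (e : D ⊗ X ⟶ 𝟙_ C) :
    (α_ V.1 D X).inv ≫ (V.2.β D hD).hom ▷ X ≫ (α_ D V.1 X).hom ≫ D ◁ (V.2.β X hX).hom ≫
      (α_ D X V.1).inv ≫ e ▷ V.1 = V.1 ◁ e ≫ (ρ_ V.1).hom ≫ (λ_ V.1).inv := by
  have h := V.2.naturality (hP.tensor hD hX) hP.unit e
  rw [V.2.monoidal _ _ hD hX, rhb_unit] at h
  simpa using h.symm

theorem dp_total (N M : Center (RCen P)) :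
    (biprod.fst : N ⊞ M ⟶ N).f.f ≫ (biprod.inl : N ⟶ N ⊞ M).f.f +
      (biprod.snd : N ⊞ M ⟶ M).f.f ≫ (biprod.inr : M ⟶ N ⊞ M).f.f = 𝟙 (N ⊞ M).1.1 := by
  have h1 := congrArg (fun t : N ⊞ M ⟶ N ⊞ M => RCen.Hom.f (Center.Hom.f t))
    (biprod.total (X := N) (Y := M))
  have h2 := rc_add_f P ((biprod.fst : N ⊞ M ⟶ N).f ≫ (biprod.inl : N ⟶ N ⊞ M).f)
    ((biprod.snd : N ⊞ M ⟶ M).f ≫ (biprod.inr : M ⟶ N ⊞ M).f)
  exact h2.symm.trans h1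

/-- Row DP. -/
instance dProp_tensorSub (P : ObjectProperty C) [hP : TensorSub P] : TensorSub (dProp P) where
  unit := ⟨hP.unit, fun V => by
    have h : ((λ_ V.1).hom ≫ ((ρ_ V).inv : _ ⟶ _).f) ≫ (V.2.β (𝟙_ C) hP.unit).hom =
        𝟙 (𝟙_ C ⊗ V.1) := by
      rw [rhb_unit, RCen.rightUnitor_inv_f]
      simp
    exact h⟩
  tensor := by
    rintro N M ⟨hN, hN'⟩ ⟨hM, hM'⟩
    refine ⟨hP.tensor hN hM, fun V => ?_⟩
    have h : ((α_ N.1.1 M.1.1 V.1).hom ≫ N.1.1 ◁ (M.2.β V).hom.f ≫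
        ((α_ N.1 V M.1).inv : _ ⟶ _).f ≫ (N.2.β V).hom.f ▷ M.1.1 ≫
        (α_ V.1 N.1.1 M.1.1).hom) ≫ (V.2.β (N.1.1 ⊗ M.1.1) (hP.tensor hN hM)).hom = 𝟙 _ := by
      rw [V.2.monoidal _ _ hN hM, RCen.associator_inv_f]
      simp only [Category.assoc, Iso.hom_inv_id_assoc]
      have h1 := hN' V
      have h2 := hM' V
      generalize (N.2.β V).hom.f = a at h1 ⊢
      generalize (M.2.β V).hom.f = b at h2 ⊢
      exact dp_tensor a _ b _ h1 h2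
    exact h
  rdual := by
    rintro N ⟨hN, hN'⟩
    let := dpPair N (Nᘁ)
    have hD : P (Nᘁ).1.1 := by
      have h1 : P ((N.1.1)ᘁ) := hP.rdual hN
      exact dp_iso (rightDualIso (X := N.1.1) (Y₁ := (N.1.1)ᘁ) (Y₂ := (Nᘁ).1.1)
        inferInstance inferInstance) h1
    refine ⟨hD, fun V => ?_⟩
    exact dp_rdual (X := N.1.1) (D := (Nᘁ).1.1) (Y := V.1)
      ((RCen.forget P).mapIso (N.2.β V)) ((RCen.forget P).mapIso ((Nᘁ).2.β V))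
      (V.2.β _ hN).hom (V.2.β _ hD).hom (dp_ev N (Nᘁ) V) (dp_ev' V hN hD _) (hN' V)
  ldual := by
    rintro N ⟨hN, hN'⟩
    let := dpPair (ᘁN) N
    have hD : P (ᘁN).1.1 := by
      have h1 : P (ᘁ(N.1.1)) := hP.ldual hN
      exact dp_iso (leftDualIso (X₁ := ᘁ(N.1.1)) (X₂ := (ᘁN).1.1) (Y := N.1.1)
        inferInstance inferInstance) h1
    refine ⟨hD, fun V => ?_⟩
    exact dp_ldual (X := N.1.1) (D := (ᘁN).1.1) (Y := V.1)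
      (N.2.β V).hom.f ((ᘁN).2.β V).hom.f
      (V.2.β _ hN).hom (V.2.β _ hD).hom (dp_ev (ᘁN) N V) (dp_ev' V hD hN _) (hN' V)
  sub := by
    intro N M f hf
    rintro ⟨hM, hM'⟩
    have h1 : Mono f.f := cen_mono_f f
    have h2 : Mono f.f.f := rc_mono_f P f.f
    have hN : P N.1.1 := hP.sub f.f.f hM
    refine ⟨hN, fun V => ?_⟩
    have : Mono (f.f.f ▷ V.1) := inferInstanceAs (Mono ((tensorRight V.1).map f.f.f))
    rw [← cancel_mono (f.f.f ▷ V.1), Category.assoc, ← V.2.naturality hN hM f.f.f]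
    have h3 := congrArg RCen.Hom.f (f.comm V)
    have h4 : f.f.f ▷ V.1 ≫ (M.2.β V).hom.f = (N.2.β V).hom.f ≫ V.1 ◁ f.f.f := h3
    rw [← Category.assoc, ← h4, Category.assoc, hM' V]
    simp
  quot := by
    intro N M f hf
    rintro ⟨hN, hN'⟩
    have h1 : Epi f.f := cen_epi_f f
    have h2 : Epi f.f.f := rc_epi_f P f.f
    have hM : P M.1.1 := hP.quot f.f.f hN
    refine ⟨hM, fun V => ?_⟩
    have : Epi (f.f.f ▷ V.1) := inferInstanceAs (Epi ((tensorRight V.1).map f.f.f))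
    rw [← cancel_epi (f.f.f ▷ V.1), ← Category.assoc]
    have h3 := congrArg RCen.Hom.f (f.comm V)
    have h4 : f.f.f ▷ V.1 ≫ (M.2.β V).hom.f = (N.2.β V).hom.f ≫ V.1 ◁ f.f.f := h3
    rw [h4, Category.assoc, V.2.naturality hN hM f.f.f, ← Category.assoc, hN' V]
    simp
  biprod := by
    rintro N M ⟨hN, hN'⟩ ⟨hM, hM'⟩
    have hNM : P (N ⊞ M).1.1 := by
      let f : N.1.1 ⊞ M.1.1 ⟶ (N ⊞ M).1.1 := biprod.desc (biprod.inl : N ⟶ N ⊞ M).f.f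
        (biprod.inr : M ⟶ N ⊞ M).f.f
      let g : (N ⊞ M).1.1 ⟶ N.1.1 ⊞ M.1.1 := biprod.lift (biprod.fst : N ⊞ M ⟶ N).f.f
        (biprod.snd : N ⊞ M ⟶ M).f.f
      have hgf : g ≫ f = 𝟙 _ := by
        simp only [f, g, biprod.lift_desc]
        exact dp_total N M
      have : Epi f := ⟨fun a b h => by
        rw [← Category.id_comp a, ← Category.id_comp b, ← hgf, Category.assoc, h, Category.assoc]⟩
      exact hP.quot f (hP.biprod hN hM)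
    refine ⟨hNM, fun V => ?_⟩
    have key : ∀ {A : Center (RCen P)} (hA : P A.1.1)
        (hA' : (A.2.β V).hom.f ≫ (V.2.β A.1.1 hA).hom = 𝟙 (A.1.1 ⊗ V.1)) (f : A ⟶ N ⊞ M),
        f.f.f ▷ V.1 ≫ ((N ⊞ M).2.β V).hom.f ≫ (V.2.β (N ⊞ M).1.1 hNM).hom = f.f.f ▷ V.1 := by
      intro A hA hA' f
      have h3 := congrArg RCen.Hom.f (f.comm V)
      have h4 : f.f.f ▷ V.1 ≫ ((N ⊞ M).2.β V).hom.f = (A.2.β V).hom.f ≫ V.1 ◁ f.f.f := h3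
      rw [← Category.assoc, h4, Category.assoc, V.2.naturality hA hNM f.f.f, ← Category.assoc, hA']
      simp
    have h1 := key hN (hN' V) biprod.inl
    have h2 := key hM (hM' V) biprod.inr
    have h5 : 𝟙 ((N ⊞ M).1.1 ⊗ V.1) =
        (biprod.fst : N ⊞ M ⟶ N).f.f ▷ V.1 ≫ (biprod.inl : N ⟶ N ⊞ M).f.f ▷ V.1 +
        (biprod.snd : N ⊞ M ⟶ M).f.f ▷ V.1 ≫ (biprod.inr : M ⟶ N ⊞ M).f.f ▷ V.1 := by
      rw [← comp_whiskerRight, ← comp_whiskerRight, ← MonoidalPreadditive.add_whiskerRight, dp_total,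
        id_whiskerRight]
    calc ((N ⊞ M).2.β V).hom.f ≫ (V.2.β (N ⊞ M).1.1 hNM).hom
        = 𝟙 ((N ⊞ M).1.1 ⊗ V.1) ≫ ((N ⊞ M).2.β V).hom.f ≫ (V.2.β (N ⊞ M).1.1 hNM).hom := by
          rw [Category.id_comp]
      _ = 𝟙 _ := by
          rw [h5, Preadditive.add_comp, Category.assoc, Category.assoc, h1, h2]

end RC

end Pool.Agent.RC40
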