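import Pool.Agent.RC40.SURJ1
import Pool.Agent.MUG.CFN

/-! # Row FIN: the relative center is a finite tensor category (helper40), after MUG/GenN, CFN,
CF1 (helper21, helper45, helper27) -/

open CategoryTheory MonoidalCategory Limits Abelian

universe v u

set_option backward.isDefEq.respectTransparency.types false
set_option linter.unusedSectionVars false

attribute [local instance] CategoryTheory.Abelian.hasFiniteBiproducts

noncomputable section

namespace Pool.Agent.RC40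

open Pool.Agent.MUG Pool.Agent.NDC

namespace SJ

variable {k : Type*} [Field k] {C : Type u} [Category.{v} C] [Abelian C]
  [Linear k C] [MonoidalCategory C] [MonoidalPreadditive C] [MonoidalLinear k C]
  [RigidCategory C] {P : ObjectProperty C} [hP : TensorSub P]

/-- The translates of `y` by a separator. -/
def bN (Q : C) (hPQ : P Q) (N : RCen P) {Y : C} (y : Y ⟶ N.1) : Qᘁ ⊗ (Y ⊗ Q) ⟶ N.1 :=
  (tensorLeftHomEquiv (Y ⊗ Q) Q (Qᘁ) N.1).symm ((y ▷ Q) ≫ (N.2.β Q hPQ).hom)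

theorem bN_comp_eq_zero {Q : C} (hPQ : P Q) {N : RCen P} {Y W : C} {y : Y ⟶ N.1} (h : N.1 ⟶ W) :
    bN Q hPQ N y ≫ h = 0 ↔ Kill N y h Q hPQ := by
  rw [bN, GenN.left_symm_comp, Gen.left_symm_zero_iff, Category.assoc, Kill]

theorem bN_comp {Q : C} (hPQ : P Q) {N N' : RCen P} {Y : C} (y : Y ⟶ N.1) (f : N ⟶ N') :
    bN Q hPQ N y ≫ f.f = bN Q hPQ N' (y ≫ f.f) := by
  rw [bN, GenN.left_symm_comp, bN, Category.assoc, ← f.comm, comp_whiskerRight, Category.assoc]

/-- The subobject generated by `y`. -/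
theorem exists_gen {Q : C} (hPQ : P Q) (hQ : SepP P Q) (N : RCen P) {Y : C} (y : Y ⟶ N.1) :
    ∃ (G : RCen P) (i : G ⟶ N) (y' : Y ⟶ G.1), Mono i.f ∧ y' ≫ i.f = y ∧
      Epi (bN Q hPQ G y') := by
  let b := bN Q hPQ N y
  let q := cokernel.π b
  let ι : Abelian.image b ⟶ N.1 := Abelian.image.ι b
  have hι : Mono ι := inferInstanceAs (Mono (kernel.ι _))
  let e : Qᘁ ⊗ (Y ⊗ Q) ⟶ Abelian.image b := Abelian.factorThruImage b
  have he : Epi e := inferInstance
  have hei : e ≫ ι = b := Abelian.image.fac b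
  have hq : ∀ V hV, Kill N y q V hV :=
    kill_of_sep hPQ hQ ((bN_comp_eq_zero hPQ q).1 (cokernel.condition b))
  have hu : ∀ {W : C} (h : N.1 ⟶ W), (∀ V hV, Kill N y h V hV) → ι ≫ h = 0 := by
    intro W h hh
    rw [← cancel_epi e, reassoc_of% hei, comp_zero]
    exact (bN_comp_eq_zero hPQ h).2 (hh Q hPQ)
  have hst : ∀ U (hU : P U), (ι ▷ U) ≫ (N.2.β U hU).hom ≫ (U ◁ q) = 0 := by
    intro U hU
    have h1 := hu _ (fun V hV => kill_stable hq U V hU hV)
    have h2 : (tensorRightHomEquiv (Abelian.image b) U (Uᘁ) _).symm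
        (ι ≫ tensorRightHomEquiv N.1 U (Uᘁ) _ ((N.2.β U hU).hom ≫ (U ◁ q))) =
        (ι ▷ U) ≫ (N.2.β U hU).hom ≫ (U ◁ q) := by
      rw [tensorRightHomEquiv_symm_naturality, Equiv.symm_apply_apply]
    rw [← h2, h1]
    change ((0 : _ ⟶ _) ▷ U) ≫ _ = 0
    rw [MonoidalPreadditive.zero_whiskerRight, zero_comp]
  have hlift : ∀ U (hU : P U), ∃ γ : Abelian.image b ⊗ U ⟶ U ⊗ Abelian.image b,
      γ ≫ (U ◁ ι) = (ι ▷ U) ≫ (N.2.β U hU).hom := by
    intro U hU
    have h3 : (ShortComplex.mk ι q (kernel.condition _)).ShortExact :=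
      { exact := ShortComplex.exact_kernel _
        mono_f := hι
        epi_g := inferInstance }
    have h4 := h3.map_of_exact (tensorLeft U)
    exact ⟨_, (KernelFork.IsLimit.lift' h4.fIsKernel ((ι ▷ U) ≫ (N.2.β U hU).hom)
      ((Category.assoc _ _ _).trans (hst U hU))).2⟩
  obtain ⟨hb, hb'⟩ := exists_sub N ι hlift
  let G : RCen P := ⟨Abelian.image b, hb⟩
  let i : G ⟶ N := { f := ι, comm := hb' }
  have hy : y ≫ q = 0 := kill_unit (hq (𝟙_ C) hP.unit)
  let y' : Y ⟶ Abelian.image b := kernel.lift _ y hy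
  have hy' : y' ≫ ι = y := kernel.lift_ι _ _ _
  refine ⟨G, i, y', hι, hy', ?_⟩
  have h5 : bN Q hPQ G y' = e := by
    rw [← cancel_mono ι, hei]
    exact (bN_comp hPQ (N := G) (N' := N) y' i).trans (by
      change bN Q hPQ N (y' ≫ ι) = b
      rw [hy'])
  rw [h5]
  exact he

/-- Morphisms out of a generated object are determined by their value on the generator. -/
theorem gen_ext {Q : C} (hPQ : P Q) {G N : RCen P} {Y : C} {y : Y ⟶ G.1}
    (hG : Epi (bN Q hPQ G y)) (f : G ⟶ N) (h : y ≫ f.f = 0) : f.f = 0 := by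
  rw [← cancel_epi (bN Q hPQ G y), bN_comp, h, comp_zero, bN,
    MonoidalPreadditive.zero_whiskerRight, zero_comp]
  exact (Gen.left_symm_zero_iff _).2 rfl

/-- The universal object generated by `Y`. -/
theorem exists_max (hC : FinCat k C) {Q : C} (hPQ : P Q) (hQ : SepP P Q) (Y : C) :
    ∃ (G : RCen P) (y : Y ⟶ G.1), Epi (bN Q hPQ G y) ∧
      ∀ (M : RCen P) (x : Y ⟶ M.1), ∃ t : G ⟶ M, y ≫ t.f = x := by
  classical
  obtain ⟨F⟩ := exists_fam hC
  let S : Set ℕ := {n | ∃ (G : RCen P) (y : Y ⟶ G.1), Epi (bN Q hPQ G y) ∧ F.len k G.1 = n}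
  have hbdd : ∀ n ∈ S, n ≤ F.len k (Qᘁ ⊗ (Y ⊗ Q)) := by
    rintro n ⟨G, y, hG, rfl⟩
    exact F.len_epi hC (bN Q hPQ G y)
  have hne : S.Nonempty := by
    obtain ⟨G, i, y', -, -, hG⟩ := exists_gen hPQ hQ (𝟙_ (RCen P)) (0 : Y ⟶ (𝟙_ (RCen P)).1)
    exact ⟨_, G, y', hG, rfl⟩
  have hB : BddAbove S := ⟨_, fun n hn => hbdd n hn⟩
  obtain ⟨G0, y, hG0, hlen⟩ : sSup S ∈ S := Nat.sSup_mem hne hB
  refine ⟨G0, y, hG0, fun M x => ?_⟩
  let z : Y ⟶ (G0 ⊞ M).1 := y ≫ (biprod.inl : G0 ⟶ G0 ⊞ M).f + x ≫ (biprod.inr : M ⟶ G0 ⊞ M).f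
  obtain ⟨G, i, y', hi, hy', hG⟩ := exists_gen hPQ hQ (G0 ⊞ M) z
  have e1 : (biprod.inl : G0 ⟶ G0 ⊞ M).f ≫ (biprod.fst : G0 ⊞ M ⟶ G0).f = 𝟙 _ :=
    congrArg (fun g => g.f) (biprod.inl_fst (X := G0) (Y := M))
  have e2 : (biprod.inr : M ⟶ G0 ⊞ M).f ≫ (biprod.fst : G0 ⊞ M ⟶ G0).f = 0 :=
    congrArg (fun g => g.f) (biprod.inr_fst (X := G0) (Y := M))
  have e3 : (biprod.inl : G0 ⟶ G0 ⊞ M).f ≫ (biprod.snd : G0 ⊞ M ⟶ M).f = 0 :=
    congrArg (fun g => g.f) (biprod.inl_snd (X := G0) (Y := M))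
  have e4 : (biprod.inr : M ⟶ G0 ⊞ M).f ≫ (biprod.snd : G0 ⊞ M ⟶ M).f = 𝟙 _ :=
    congrArg (fun g => g.f) (biprod.inr_snd (X := G0) (Y := M))
  have z1 : z ≫ (biprod.fst : G0 ⊞ M ⟶ G0).f = y := by
    simp only [z, Preadditive.add_comp, Category.assoc]
    rw [e1, e2, comp_zero, add_zero, Category.comp_id]
  have z2 : z ≫ (biprod.snd : G0 ⊞ M ⟶ M).f = x := by
    simp only [z, Preadditive.add_comp, Category.assoc]
    rw [e3, e4, comp_zero, zero_add, Category.comp_id]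
  let f : G ⟶ G0 := i ≫ biprod.fst
  have hf : y' ≫ f.f = y := by
    calc y' ≫ f.f = (y' ≫ i.f) ≫ (biprod.fst : G0 ⊞ M ⟶ G0).f := (Category.assoc _ _ _).symm
      _ = y := by rw [hy', z1]
  have hfe : Epi f.f := by
    have h1 := bN_comp hPQ y' f
    rw [hf] at h1
    have : Epi (bN Q hPQ G y' ≫ f.f) := by rw [h1]; exact hG0
    exact epi_of_epi (bN Q hPQ G y') f.f
  have hlen2 : F.len k G.1 ≤ F.len k G0.1 := by
    rw [hlen]
    exact le_csSup hB ⟨G, y', hG, rfl⟩
  have hfm : Mono f.f := by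
    have h1 := F.len_add hC (Fam.ses_epi f.f)
    simp only at h1
    have h3 : F.len k (kernel f.f) = 0 := by omega
    exact Preadditive.mono_of_isZero_kernel _ ((F.len_eq_zero_iff hC _).1 h3)
  have hfi : IsIso f.f := isIso_of_mono_of_epi _
  have hfi' : IsIso f := inferInstance
  refine ⟨inv f ≫ i ≫ biprod.snd, ?_⟩
  have h5 : y ≫ (inv f).f = y' := by
    rw [← hf, Category.assoc]
    have h6 : f.f ≫ (inv f).f = 𝟙 _ := congrArg (fun g => g.f) (IsIso.hom_inv_id f)
    rw [h6, Category.comp_id]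
  calc y ≫ (inv f ≫ i ≫ biprod.snd).f = ((y ≫ (inv f).f) ≫ i.f) ≫
        (biprod.snd : G0 ⊞ M ⟶ M).f := by
          rw [Category.assoc, Category.assoc]; rfl
    _ = x := by rw [h5, hy', z2]

theorem projective_of_max {Q : C} (hPQ : P Q) {Y : C} [Projective Y] {G : RCen P} {y : Y ⟶ G.1}
    (hG : Epi (bN Q hPQ G y)) (hu : ∀ (M : RCen P) (x : Y ⟶ M.1), ∃ t : G ⟶ M, y ≫ t.f = x) :
    Projective G where
  factors {E X} f e he := by
    have : Epi e.f := rc_epi_f P e
    obtain ⟨t, ht⟩ := hu E (Projective.factorThru (y ≫ f.f) e.f)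
    refine ⟨t, ?_⟩
    have h1 : (t ≫ e - f).f = 0 := by
      apply gen_ext hPQ hG
      have h2 : (t ≫ e - f).f = t.f ≫ e.f - f.f := (RCen.forget P).map_sub
      rw [h2, Preadditive.comp_sub, ← Category.assoc, ht, Projective.factorThru_comp, sub_self]
    have h3 : t ≫ e - f = 0 := RCen.ext _ _ h1
    exact sub_eq_zero.1 h3

theorem rc_enough (hC : IsFinite k C) : EnoughProjectives (RCen P) where
  presentation M := by
    have := hC.finCat.enough
    obtain ⟨Q, hPQ, hQ⟩ := exists_sepP hC P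
    obtain ⟨G, y, hG, hu⟩ := exists_max hC.finCat hPQ hQ (Projective.over M.1)
    obtain ⟨t, ht⟩ := hu M (Projective.π M.1)
    have : Epi t.f := by
      have : Epi (y ≫ t.f) := by rw [ht]; infer_instance
      exact epi_of_epi y t.f
    exact ⟨{ p := G, projective := projective_of_max hPQ hG hu, f := t, epi := rc_epi_of P t this }⟩

theorem rc_hom_finite (hC : IsFinite k C) (X Y : RCen P) : Module.Finite k (X ⟶ Y) := by
  haveI : Module.Finite k (X.1 ⟶ Y.1) := hC.hom_finite X.1 Y.1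
  let φ : (X ⟶ Y) →ₗ[k] (X.1 ⟶ Y.1) :=
    { toFun := fun f => f.f
      map_add' := fun _ _ => rfl
      map_smul' := fun _ _ => rfl }
  have hφ : Function.Injective φ := fun f g h => RCen.ext _ _ h
  exact Module.Finite.of_injective φ hφ

/-- The map of subobject lattices. -/
def rcSubMap (X : RCen P) (Y : Subobject X) : Subobject X.1 :=
  haveI := rc_mono_f P Y.arrow
  Subobject.mk Y.arrow.f

theorem rcSub_le (X : RCen P) (Y Y' : Subobject X) :
    rcSubMap X Y ≤ rcSubMap X Y' ↔ Y ≤ Y' := by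
  haveI := rc_mono_f P Y.arrow
  haveI := rc_mono_f P Y'.arrow
  constructor
  · intro h
    have h1 : Subobject.mk Y.arrow.f ≤ Subobject.mk Y'.arrow.f := h
    have h2 : Subobject.ofMkLEMk _ _ h1 ≫ Y'.arrow.f = Y.arrow.f := Subobject.ofMkLEMk_comp h1
    let g : (Y : RCen P) ⟶ (Y' : RCen P) :=
      ⟨Subobject.ofMkLEMk _ _ h1, fun U hU => by
        rw [← cancel_mono (U ◁ Y'.arrow.f), Category.assoc, Category.assoc,
          ← MonoidalCategory.whiskerLeft_comp, h2, ← Y'.arrow.comm U hU,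
          ← MonoidalCategory.comp_whiskerRight_assoc, h2, Y.arrow.comm U hU]⟩
    exact Subobject.le_of_comm g (RCen.ext _ _ h2)
  · intro h
    change Subobject.mk Y.arrow.f ≤ Subobject.mk Y'.arrow.f
    refine Subobject.mk_le_mk_of_comm (Subobject.ofLE Y Y' h).f ?_
    exact congrArg RCen.Hom.f (Subobject.ofLE_arrow h)

theorem rcSub_strictMono (X : RCen P) : StrictMono (rcSubMap X) := by
  intro Y Y' h
  rw [lt_iff_le_not_ge] at h ⊢
  rw [rcSub_le, rcSub_le]
  exact h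

theorem rc_artinian (hC : IsFinite k C) (X : RCen P) : IsArtinianObject X := by
  haveI : IsArtinianObject X.1 := hC.artinian X.1
  have h : WellFoundedLT (Subobject X) := (rcSub_strictMono X).wellFoundedLT
  rw [isArtinianObject_iff_not_strictAnti]
  exact fun f => not_strictAnti_of_wellFoundedLT f

theorem rc_noetherian (hC : IsFinite k C) (X : RCen P) : IsNoetherianObject X := by
  haveI : IsNoetherianObject X.1 := hC.noetherian X.1
  have h : WellFoundedGT (Subobject X) := (rcSub_strictMono X).wellFoundedGT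
  rw [isNoetherianObject_iff_not_strictMono]
  exact fun f => not_strictMono_of_wellFoundedGT f

theorem rc_isIso_iff {X Y : RCen P} (f : X ⟶ Y) : IsIso f ↔ IsIso f.f := by
  constructor
  · intro _
    exact inferInstanceAs (IsIso ((RCen.forget P).map f))
  · intro _
    infer_instance

theorem rc_simple_of {X : RCen P} (hX : Simple X.1) : Simple X := by
  refine ⟨fun {Y} f hf => ?_⟩
  haveI := rc_mono_f P f
  have h1 := hX.mono_isIso_iff_nonzero f.f
  rw [rc_isIso_iff, h1, not_iff_not]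
  constructor
  · intro h
    exact RCen.ext _ _ h
  · intro h
    rw [h]
    rfl

theorem rc_simples (hC : IsFinite k C) (hA : ∀ X : RCen P, IsArtinianObject X)
    (hN : ∀ X : RCen P, IsNoetherianObject X) :
    ∃ (n : ℕ) (S : Fin n → RCen P), ∀ T : RCen P, Simple T → ∃ i, Nonempty (T ≅ S i) := by
  classical
  have key : ∀ X : RCen P, ∃ (n : ℕ) (S : Fin n → RCen P), ∀ T : RCen P, Simple T →
      (∃ f : X ⟶ T, f ≠ 0) → ∃ i, Nonempty (T ≅ S i) := by
    refine fl_induction hA hN _ ?_ ?_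
    · intro X hX
      refine ⟨0, Fin.elim0, fun T _ ⟨f, hf⟩ => absurd (hX.eq_of_src f 0) hf⟩
    · rintro S hS ⟨n, L, hL⟩ hs
      refine ⟨n + 1, Fin.snoc L S.X₃, fun T hT ⟨f, hf⟩ => ?_⟩
      by_cases h0 : S.f ≫ f = 0
      · obtain ⟨g, hg'⟩ : ∃ g : S.X₃ ⟶ T, S.g ≫ g = f :=
          ⟨_, (CokernelCofork.IsColimit.desc' hS.gIsCokernel f h0).2⟩
        have hg0 : g ≠ 0 := by
          rintro rfl
          rw [comp_zero] at hg'
          exact hf hg'.symm
        have := isIso_of_hom_simple hg0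
        refine ⟨Fin.last n, ⟨?_⟩⟩
        rw [Fin.snoc_last]
        exact (asIso g).symm
      · obtain ⟨i, ⟨e⟩⟩ := hL T hT ⟨S.f ≫ f, h0⟩
        refine ⟨Fin.castSucc i, ⟨?_⟩⟩
        rw [Fin.snoc_castSucc]
        exact e
  have := hC.finCat.enough
  obtain ⟨Q', hQp, hQs⟩ := Gen.exists_separator hC.finCat
  obtain ⟨Q, hPQ, hQ⟩ := exists_sepP hC P
  obtain ⟨G, y, hG, hu⟩ := exists_max hC.finCat hPQ hQ Q'
  obtain ⟨n, S, hS⟩ := key G
  refine ⟨n, S, fun T hT => hS T hT ?_⟩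
  have hT0 : 𝟙 T.1 ≠ 0 := by
    intro h
    have : 𝟙 T = 0 := RCen.ext _ _ h
    exact id_nonzero T this
  obtain ⟨x, hx⟩ : ∃ x : Q' ⟶ T.1, x ≠ 0 := by
    by_contra hcon
    push Not at hcon
    exact hT0 (hQs _ fun f => by rw [hcon f, zero_comp])
  obtain ⟨t, ht⟩ := hu T x
  refine ⟨t, ?_⟩
  rintro rfl
  apply hx
  rw [← ht, rc_zero_f, comp_zero]

end SJ

section

variable {k : Type*} [Field k] {C : Type u} [Category.{v} C] [Abelian C]
  [Linear k C] [MonoidalCategory C] [MonoidalPreadditive C] [MonoidalLinear k C]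
  [RigidCategory C] (P : ObjectProperty C) [hP : TensorSub P]

/-- **The relative center of a finite tensor category is a finite tensor category.** -/
theorem rc_isFinite (hC : IsFinite k C) : IsFinite k (RCen P) where
  hom_finite := SJ.rc_hom_finite hC
  artinian := SJ.rc_artinian hC
  noetherian := SJ.rc_noetherian hC
  enough := SJ.rc_enough hC
  simples := SJ.rc_simples hC (SJ.rc_artinian hC) (SJ.rc_noetherian hC)
  unit := SJ.rc_simple_of hC.unit

end

end Pool.Agent.RC40
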