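import Pool.Agent.RC40.IRb
import Pool.Agent.RC40.DP
import Pool.Agent.MUG.CFN
import Pool.Agent.RC40.FIN

/-!
# Row IR (helper31): FGC of the copy of the center of `P` implies FGC of `P`
-/

open CategoryTheory MonoidalCategory Limits Abelian

universe w v u

set_option backward.isDefEq.respectTransparency.types false
set_option linter.unusedSectionVars false

namespace Pool.Agent.RC40

open Pool.Agent.MUG

variable {k : Type*} [Field k] {C : Type u} [Category.{v} C] [Abelian C] [Linear k C]
  [MonoidalCategory C] [MonoidalPreadditive C] [MonoidalLinear k C] [RigidCategory C]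
  [BraidedCategory C] (P : ObjectProperty C) [hP : TensorSub P]

theorem dProp_irCen {X : C} (hX : P X) : dProp P (irCen P hX) :=
  ⟨hX, fun V => (V.2.β X hX).inv_hom_id⟩

theorem fg_of_dProp' (hC : IsFinite k C) (hR : IsFinite k (RCen P))
    (hF : FG k (dProp P) (dProp_tensorSub P)) : FG k P hP :=
  fg_of_sub P (fun _ hX => dProp_irCen P hX) (fun _ h => h.1) hC (center_isFinite_gen hR) hF

/-- Row IR. -/
theorem fg_of_dProp (hC : IsFinite k C)
    (hF : FG k (dProp P) (dProp_tensorSub P)) : FG k P hP :=
  fg_of_dProp' P hC (rc_isFinite P hC) hF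

end Pool.Agent.RC40
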