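import Pool.Agent.RC40.KF1
import Pool.Agent.RC40.FIN

/-! # Theorem N for the copy of the center of `P` (row KF, helper54) -/

open CategoryTheory MonoidalCategory Limits Abelian

universe w v u

set_option backward.isDefEq.respectTransparency.types false
set_option linter.unusedSectionVars false

noncomputable section

namespace Pool.Agent.RC40

open Pool.Agent.MUG

variable {k : Type*} [Field k] {C : Type u} [Category.{v} C] [Abelian C]
  [Linear k C] [MonoidalCategory C] [MonoidalPreadditive C] [MonoidalLinear k C]
  [RigidCategory C] (P : ObjectProperty C) [hP : TensorSub P]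

/-- Theorem N for `dProp`. -/
theorem fg_dProp [IsAlgClosed k] [HasExt.{w} (Center (RCen P))] (hC : IsFinite k C)
    (hF : FGC.{w} k (Center (RCen P))) : FG k (dProp P) (dProp_tensorSub P) :=
  fg_dProp_of P hC (rc_isFinite P hC) hF

end Pool.Agent.RC40
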