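import Pool.Agent.MUG.Conv

/-!
# FGC along exact monoidal functors: transfer (row TRF) and retracts (row RET) (helper14)
-/

open CategoryTheory MonoidalCategory Limits Abelian

universe w w' v v' u u'

set_option linter.unusedSectionVars false

namespace Pool.Agent.RC40.T14

open Pool.Agent.MUG
open Pool.Agent.MUG.Tr
open Pool.Agent.MUE79 (adjTo adjFrom adjFrom_adjTo adjTo_adjFrom adjTo_comp adjTo_map_comp)

section hat

variable {k : Type*} [Field k]
  {A : Type u} [Category.{v} A] [Abelian A] [Linear k A] [MonoidalCategory A]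
  [MonoidalPreadditive A] [MonoidalLinear k A] [RigidCategory A] [HasExt.{w} A]
  {T : Type u'} [Category.{v'} T] [Abelian T] [Linear k T] [MonoidalCategory T]
  [MonoidalPreadditive T] [MonoidalLinear k T] [RigidCategory T] [HasExt.{w'} T]
  [EnoughProjectives A] [EnoughProjectives T]
  (U : T ⥤ A) [U.Additive] [U.Linear k] [PreservesFiniteLimits U]
  [PreservesFiniteColimits U] [U.Monoidal]

/-- `Ext(1,M)` is finitely generated over `Ext_T(1,1)` through the functor `U`. -/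
def FGOver (k : Type*) [Field k] [Linear k A] [Linear k T] (M : A) : Prop :=
  ∃ (r : ℕ) (d : Fin r → ℕ) (y : ∀ a, Ext.{w} (𝟙_ A) M (d a)),
    ∀ B : ∀ n, Submodule k (Ext.{w} (𝟙_ A) M n), (∀ a, y a ∈ B (d a)) →
      (∀ m n (z : Ext.{w'} (𝟙_ T) (𝟙_ T) m) (b : Ext.{w} (𝟙_ A) M n), b ∈ B n →
        (hat U z : Ext.{w} (𝟙_ A) (𝟙_ A) m).comp b rfl ∈ B (m + n)) → ∀ n, B n = ⊤

/-- FGC of `A` from FGC of `T`, if `Ext_A(1,M)` is finitely generated over `Ext_T(1,1)` for all
`M`. -/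
theorem fgc_of_fgOver (hM : ∀ M : A, FGOver.{w, w'} U k M) (hF : FGC.{w'} k T) :
    FGC.{w} k A := by
  constructor
  · obtain ⟨r, d, x, hx⟩ := hF.alg
    obtain ⟨R, D, G, hG⟩ := hM (𝟙_ A)
    obtain ⟨s, d', y, hy⟩ := exists_fin (ι := Fin r ⊕ Fin R)
      (M := fun n => Ext.{w} (𝟙_ A) (𝟙_ A) n)
      (Sum.elim d D)
      (fun p => match p with
        | Sum.inl l => hat U (x l)
        | Sum.inr a => G a)
    refine ⟨s, d', y, ?_⟩
    intro B h1 h2 h3
    have h4 := hy (fun n x => x ∈ B n) h2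
    have h5 : ∀ n, (B n).comap (hatL (k := k) U n) = ⊤ := by
      refine hx (fun n => (B n).comap (hatL (k := k) U n)) ?_ ?_ ?_
      · change hat U _ ∈ B 0
        rw [hat_one]
        exact h1
      · intro l
        exact h4 (Sum.inl l)
      · intro m n a c ha hc
        change hat U _ ∈ B (m + n)
        rw [hat_comp]
        exact h3 m n _ _ ha hc
    refine hG B ?_ ?_
    · intro a
      exact h4 (Sum.inr a)
    · intro m n z β hβ
      have h6 : z ∈ (B m).comap (hatL (k := k) U m) := by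
        rw [h5]
        trivial
      exact h3 m n _ _ h6 hβ
  · intro X Y
    obtain ⟨R, D, G, hG⟩ := hM (Y ⊗ Xᘁ)
    have hsurj : ∀ a, ∃ y : Ext.{w} X Y (D a), psi k X Y (D a) y = G a := by
      intro a
      refine ⟨pre (λ_ X).inv
        (adjFrom (tensorRightAdjunction X (Xᘁ)) (X := 𝟙_ A) (Y := Y) (G a)), ?_⟩
      rw [psi_apply]
      have h1 : pre (X := (tensorRight X).obj (𝟙_ A)) (λ_ X).hom (pre (λ_ X).inv
          (adjFrom (tensorRightAdjunction X (Xᘁ)) (X := 𝟙_ A) (Y := Y) (G a))) =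
          adjFrom (tensorRightAdjunction X (Xᘁ)) (X := 𝟙_ A) (Y := Y) (G a) := by
        rw [pre_pre, Iso.hom_inv_id]
        exact pre_id _
      rw [h1]
      exact adjTo_adjFrom _ _
    choose y hy using hsurj
    refine ⟨R, D, y, ?_⟩
    intro B h1 h2 n
    have h3 := hG (fun n => (B n).map (psi k X Y n)) ?_ ?_ n
    · rw [eq_top_iff]
      intro β _
      have h4 : psi k X Y n β ∈ (B n).map (psi k X Y n) := by
        have h5 : (B n).map (psi k X Y n) = ⊤ := h3
        rw [h5]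
        trivial
      obtain ⟨β', hβ', he⟩ := Submodule.mem_map.1 h4
      rw [psi_injective (k := k) X Y n _ _ he] at hβ'
      exact hβ'
    · intro a
      exact Submodule.mem_map.2 ⟨y a, h1 a, hy a⟩
    · intro m n z β hβ
      obtain ⟨β', hβ', rfl⟩ := Submodule.mem_map.1 hβ
      exact Submodule.mem_map.2 ⟨_, h2 m n (hat U z) β' hβ', psi_act X Y rfl _ _⟩

/-- precomposing the image of a class of `Ext_T(1,1)` with the unit -/
theorem hat_comp_pre {M : A} {m n c : ℕ} (z : Ext.{w'} (𝟙_ T) (𝟙_ T) m)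
    (β : Ext.{w} (U.obj (𝟙_ T)) M n) (h : m + n = c) :
    (hat U z : Ext.{w} (𝟙_ A) (𝟙_ A) m).comp (pre (Functor.LaxMonoidal.ε U) β) h =
      pre (Functor.LaxMonoidal.ε U) ((z.mapExactFunctor U : Ext.{w} _ _ m).comp β h) := by
  unfold hat
  rw [← pre_comp, post_comp, pre_pre, Functor.Monoidal.η_ε, pre_id]

/-- **Row TRF.** FGC passes along an exact monoidal functor with an exact right adjoint. -/
theorem fgc_transfer (G : A ⥤ T) [G.Additive] [PreservesFiniteLimits G]
    [PreservesFiniteColimits G] (adj : U ⊣ G) (hF : FGC.{w'} k T) : FGC.{w} k A := by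
  refine fgc_of_fgOver U ?_ hF
  intro M
  obtain ⟨r, d, y, hy⟩ := hF.mod (𝟙_ T) (G.obj M)
  -- the isomorphism
  let τ : ∀ n, Ext.{w'} (𝟙_ T) (G.obj M) n → Ext.{w} (𝟙_ A) M n := fun n x =>
    pre (Functor.LaxMonoidal.ε U) (adjFrom adj x)
  let τ' : ∀ n, Ext.{w} (𝟙_ A) M n → Ext.{w'} (𝟙_ T) (G.obj M) n := fun n x =>
    adjTo adj (X := 𝟙_ T) (Y := M) (pre (Functor.OplaxMonoidal.η U) x)
  have hττ' : ∀ n x, τ n (τ' n x) = x := by
    intro n x
    change pre _ (adjFrom adj (adjTo adj _)) = x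
    rw [adjFrom_adjTo, pre_pre, Functor.Monoidal.ε_η, pre_id]
  let τL : ∀ n, Ext.{w'} (𝟙_ T) (G.obj M) n →ₗ[k] Ext.{w} (𝟙_ A) M n := fun n =>
    { toFun := τ n
      map_add' := by
        intro a b
        change pre _ (adjFrom adj (a + b)) = pre _ (adjFrom adj a) + pre _ (adjFrom adj b)
        unfold adjFrom pre
        rw [Ext.mapExactFunctor_add, Ext.add_comp, Ext.comp_add]
      map_smul' := by
        intro c b
        change pre _ (adjFrom adj (c • b)) = c • pre _ (adjFrom adj b)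
        unfold adjFrom pre
        rw [Functor.mapExactFunctor_smul, Ext.smul_comp, Ext.comp_smul] }
  have hadj : ∀ {m n c : ℕ} (z : Ext.{w'} (𝟙_ T) (𝟙_ T) m) (x : Ext.{w'} (𝟙_ T) (G.obj M) n)
      (h : m + n = c), adjFrom adj (z.comp x h) =
        (z.mapExactFunctor U : Ext.{w} _ _ m).comp (adjFrom adj x) h := by
    intro m n c z x h
    unfold adjFrom
    rw [Ext.mapExactFunctor_comp, Ext.comp_assoc_of_third_deg_zero]
  refine ⟨r, d, fun a => τ _ (y a), ?_⟩
  intro B h1 h2 n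
  have h3 := hy (fun n => (B n).comap (τL n)) ?_ ?_ n
  · rw [eq_top_iff]
    intro β _
    have h4 : τ' n β ∈ (B n).comap (τL n) := by
      have h5 : (B n).comap (τL n) = ⊤ := h3
      rw [h5]
      trivial
    have h6 : τ n (τ' n β) ∈ B n := h4
    rwa [hττ'] at h6
  · intro a
    exact h1 a
  · intro m n z b hb
    change τ (m + n) ((act (𝟙_ T) z).comp b rfl) ∈ B (m + n)
    rw [act_unit]
    change pre _ (adjFrom adj (z.comp b rfl)) ∈ _
    rw [hadj, ← hat_comp_pre U z (adjFrom adj b) rfl]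
    exact h2 m n z _ hb

/-- **Row RET.** FGC passes to a retract: `U : T ⥤ A` exact monoidal, `i : A ⥤ T` exact,
`i ⋙ U ≅ 𝟭`, `i 1 ≅ 1`. -/
theorem fgc_retract (i : A ⥤ T) [i.Additive] [PreservesFiniteLimits i]
    [PreservesFiniteColimits i] (e : i ⋙ U ≅ 𝟭 A) (u : i.obj (𝟙_ A) ≅ 𝟙_ T)
    (hF : FGC.{w'} k T) : FGC.{w} k A := by
  refine fgc_of_fgOver U ?_ hF
  intro M
  obtain ⟨r, d, y, hy⟩ := hF.mod (𝟙_ T) (i.obj M)
  let τ : ∀ n, Ext.{w'} (𝟙_ T) (i.obj M) n → Ext.{w} (𝟙_ A) M n := fun n x =>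
    pre (Functor.LaxMonoidal.ε U) (post (x.mapExactFunctor U : Ext.{w} _ _ n) (e.hom.app M))
  let τL : ∀ n, Ext.{w'} (𝟙_ T) (i.obj M) n →ₗ[k] Ext.{w} (𝟙_ A) M n := fun n =>
    { toFun := τ n
      map_add' := by
        intro a b
        change pre _ (post _ _) = pre _ (post _ _) + pre _ (post _ _)
        unfold pre post
        rw [Ext.mapExactFunctor_add, Ext.add_comp, Ext.comp_add]
      map_smul' := by
        intro c b
        change pre _ (post _ _) = c • pre _ (post _ _)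
        unfold pre post
        rw [Functor.mapExactFunctor_smul, Ext.smul_comp, Ext.comp_smul] }
  -- surjectivity
  let q : 𝟙_ A ≅ 𝟙_ A :=
    Functor.Monoidal.εIso U ≪≫ U.mapIso u.symm ≪≫ e.app (𝟙_ A)
  have hsurj : ∀ n (x : Ext.{w} (𝟙_ A) M n), ∃ x', τ n x' = x := by
    intro n x
    refine ⟨pre u.inv ((pre q.inv x).mapExactFunctor i : Ext.{w'} _ _ n), ?_⟩
    change pre _ (post _ _) = x
    rw [map_pre]
    have h1 : post (((pre q.inv x).mapExactFunctor i : Ext.{w'} _ _ n).mapExactFunctor U :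
        Ext.{w} (U.obj (i.obj (𝟙_ A))) (U.obj (i.obj M)) n) (e.hom.app M) =
        pre (e.hom.app (𝟙_ A)) (pre q.inv x) := by
      have h2 := Pool.Agent.MUE79.map_nat (F := i ⋙ U) (G := 𝟭 A) e.hom (pre q.inv x)
      rw [Pool.Agent.MUE79.map_id] at h2
      unfold post
      rw [← Pool.Agent.MUE79.map_comp]
      exact h2
    rw [← pre_post, h1, pre_pre, pre_pre, pre_pre]
    have h3 : ((Functor.LaxMonoidal.ε U ≫ U.map u.inv) ≫ e.hom.app (𝟙_ A)) ≫ q.inv = 𝟙 _ := by
      have : q.hom = (Functor.LaxMonoidal.ε U ≫ U.map u.inv) ≫ e.hom.app (𝟙_ A) := by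
        simp [q]
      rw [← this, q.hom_inv_id]
    rw [h3, pre_id]
  refine ⟨r, d, fun a => τ _ (y a), ?_⟩
  intro B h1 h2 n
  have h3 := hy (fun n => (B n).comap (τL n)) ?_ ?_ n
  · rw [eq_top_iff]
    intro β _
    obtain ⟨x', hx'⟩ := hsurj n β
    have h4 : x' ∈ (B n).comap (τL n) := by
      have h5 : (B n).comap (τL n) = ⊤ := h3
      rw [h5]
      trivial
    have h6 : τ n x' ∈ B n := h4
    rwa [hx'] at h6
  · intro a
    exact h1 a
  · intro m n z b hb
    change τ (m + n) ((act (𝟙_ T) z).comp b rfl) ∈ B (m + n)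
    rw [act_unit]
    change pre _ (post ((z.comp b rfl).mapExactFunctor U) _) ∈ _
    rw [Ext.mapExactFunctor_comp, comp_post, ← hat_comp_pre U z _ rfl]
    exact h2 m n z _ hb

end hat

end Pool.Agent.RC40.T14
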