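import Pool.Agent.RC40.FGR
import Pool.Agent.RC40.KF
import Pool.Agent.RC40.IR
import Pool.Agent.RC40.Tr14
import Pool.Agent.MUG.TNh

/-!
# MP_388894, all characteristics: the equivalence with the case of the whole center (row ASM)
-/

open CategoryTheory MonoidalCategory Limits Abelian

universe w w' w'' v u

set_option backward.isDefEq.respectTransparency.types false
set_option linter.unusedSectionVars false

noncomputable section

namespace Pool.Agent.RC40

open Pool.Agent.MUG Pool.Agent.NDC

section Top

variable {k : Type*} [Field k] {Z : Type u} [Category.{v} Z] [Abelian Z] [Linear k Z]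
  [MonoidalCategory Z] [MonoidalPreadditive Z] [MonoidalLinear k Z] [RigidCategory Z]

/-- FGC of the category itself from FGC of a tensor subcategory which contains all objects. -/
theorem fgc_of_all (hZ : IsFinite k Z) (P : ObjectProperty Z) [hP : TensorSub P]
    (hall : ∀ X, P X) [HasExt.{w} Z] [HasExt.{w'} P.FullSubcategory]
    (hF : FGC.{w'} k P.FullSubcategory) : FGC.{w} k Z := by
  have h1 := hZ.enough
  have h2 := (finite_sub hZ P).enough
  have hes : P.ι.EssSurj := ⟨fun X => ⟨⟨X, hall X⟩, ⟨Iso.refl X⟩⟩⟩
  have heq : P.ι.IsEquivalence := {}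
  have hadd0 : P.ι.asEquivalence.functor.Additive := inferInstanceAs P.ι.Additive
  have hadd : P.ι.inv.Additive := inferInstanceAs P.ι.asEquivalence.inverse.Additive
  let u : P.ι.inv.obj (𝟙_ Z) ≅ 𝟙_ P.FullSubcategory :=
    P.ι.preimageIso (P.ι.asEquivalence.counitIso.app (𝟙_ Z))
  exact T14.fgc_retract P.ι P.ι.inv P.ι.asEquivalence.counitIso u hF

end Top

section L2

variable {k : Type*} [Field k] {C : Type u} [Category.{v} C] [Abelian C]
  [Linear k C] [MonoidalCategory C] [MonoidalPreadditive C] [MonoidalLinear k C]
  [RigidCategory C] (P : ObjectProperty C) [hP : TensorSub P]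

/-- (L2). -/
theorem fg_of_center_rcen [IsAlgClosed k] [BraidedCategory C] [HasExt.{w} (Center (RCen P))]
    (hC : IsFinite k C) (hF : FGC.{w} k (Center (RCen P))) : FG k P hP :=
  fg_of_dProp P hC (fg_dProp P hC hF)

end L2

/-- **The equivalence.** Over an algebraically closed field of any characteristic: FGC passes to
all centralizers in Drinfeld centers if and only if it passes to all Drinfeld centers. -/
theorem fgc_centralizer_iff (k : Type*) [Field k] [IsAlgClosed k] :
    (∀ (C : Type (max u v)) [Category.{v} C] [Abelian C] [Linear k C] [MonoidalCategory C]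
      [MonoidalPreadditive C] [MonoidalLinear k C] [RigidCategory C] [HasExt.{max u v} C]
      [HasExt.{max u v} (Center C)], IsFinite k C → FGC.{max u v} k C →
      FGC.{max u v} k (Center C)) ↔
    (∀ (C : Type (max u v)) [Category.{v} C] [Abelian C] [Linear k C] [MonoidalCategory C]
      [MonoidalPreadditive C] [MonoidalLinear k C] [RigidCategory C] [HasExt.{max u v} C],
      IsFinite k C → FGC.{max u v} k C → ∀ (B : ObjectProperty (Center C))
      [HasExt.{max u v} (centralizer B).FullSubcategory],
      FGC.{max u v} k (centralizer B).FullSubcategory) := by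
  constructor
  · intro H C _ _ _ _ _ _ _ _ hC hF B _
    have e1 : HasExt.{max u v} (Center C) := HasExt.standard _
    have hZ : IsFinite k (Center C) := center_isFinite_gen hC
    have hF1 : FGC.{max u v} k (Center C) := H C hC hF
    have e2 : HasExt.{max u v} (Center (Center C)) := HasExt.standard _
    have hF2 : FGC.{max u v} k (Center (Center C)) := H (Center C) hZ hF1
    have hP : TensorSub (centralizer B) := tensorSub_centralizer B
    have e3 : HasExt.{max u v} (RCen (centralizer B)) := HasExt.standard _
    have hF3 : FGC.{max u v} k (RCen (centralizer B)) := fgc_rcen (centralizer B) hZ hF2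
    have e4 : HasExt.{max u v} (Center (RCen (centralizer B))) := HasExt.standard _
    have hF4 : FGC.{max u v} k (Center (RCen (centralizer B))) :=
      H (RCen (centralizer B)) (rc_isFinite (centralizer B) hZ) hF3
    exact fgc_of_fg hZ (centralizer B) (fg_of_center_rcen (centralizer B) hZ hF4)
  · intro H C _ _ _ _ _ _ _ _ _ hC hF
    have hZ : IsFinite k (Center C) := center_isFinite_gen hC
    have hP : TensorSub (centralizer (⊥ : ObjectProperty (Center C))) := tensorSub_centralizer _
    have e1 : HasExt.{max u v} (centralizer (⊥ : ObjectProperty (Center C))).FullSubcategory :=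
      HasExt.standard _
    exact fgc_of_all hZ (centralizer (⊥ : ObjectProperty (Center C)))
      (fun X Y hY => hY.elim) (H C hC hF ⊥)

/-- If FGC passes to all Drinfeld centers, then it passes to every tensor subcategory of every
braided finite tensor category. -/
theorem fgc_sub_of_center (k : Type*) [Field k] [IsAlgClosed k]
    (H : ∀ (C : Type (max u v)) [Category.{v} C] [Abelian C] [Linear k C] [MonoidalCategory C]
      [MonoidalPreadditive C] [MonoidalLinear k C] [RigidCategory C] [HasExt.{max u v} C]
      [HasExt.{max u v} (Center C)], IsFinite k C → FGC.{max u v} k C →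
      FGC.{max u v} k (Center C))
    (Z : Type (max u v)) [Category.{v} Z] [Abelian Z] [Linear k Z] [MonoidalCategory Z]
    [MonoidalPreadditive Z] [MonoidalLinear k Z] [RigidCategory Z] [BraidedCategory Z]
    [HasExt.{max u v} Z] (hZ : IsFinite k Z) (hF : FGC.{max u v} k Z)
    (P : ObjectProperty Z) [hP : TensorSub P] [HasExt.{max u v} P.FullSubcategory] :
    FGC.{max u v} k P.FullSubcategory := by
  have e2 : HasExt.{max u v} (Center Z) := HasExt.standard _
  have hF2 : FGC.{max u v} k (Center Z) := H Z hZ hF
  have e3 : HasExt.{max u v} (RCen P) := HasExt.standard _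
  have hF3 : FGC.{max u v} k (RCen P) := fgc_rcen P hZ hF2
  have e4 : HasExt.{max u v} (Center (RCen P)) := HasExt.standard _
  have hF4 : FGC.{max u v} k (Center (RCen P)) := H (RCen P) (rc_isFinite P hZ) hF3
  exact fgc_of_fg hZ P (fg_of_center_rcen P hZ hF4)

end Pool.Agent.RC40
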