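import Mathlib.CategoryTheory.Monoidal.Center
import Mathlib.CategoryTheory.Monoidal.Subcategory
import Mathlib.CategoryTheory.Monoidal.Rigid.Basic

/-! # The relative center of a monoidal category (row DEF, helper40)

`RCen P`: objects `X` with a half-braiding against the objects satisfying `P`. The text follows
`Mathlib.CategoryTheory.Monoidal.Center`. -/

open CategoryTheory MonoidalCategory Functor.LaxMonoidal Functor.OplaxMonoidal

universe v u

noncomputable section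

namespace Pool.Agent.RC40

set_option backward.isDefEq.respectTransparency.types false

variable {C : Type u} [Category.{v} C] [MonoidalCategory C]

/-- A half-braiding of `X` with the objects satisfying `P`. -/
structure RHB (P : ObjectProperty C) [P.IsMonoidal] (X : C) where
  /-- The family of isomorphisms `X ⊗ U ≅ U ⊗ X`. -/
  β : ∀ U, P U → (X ⊗ U ≅ U ⊗ X)
  monoidal : ∀ U U' (hU : P U) (hU' : P U') (h : P (U ⊗ U')), (β (U ⊗ U') h).hom =
      (α_ _ _ _).inv ≫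
        ((β U hU).hom ▷ U') ≫ (α_ _ _ _).hom ≫ (U ◁ (β U' hU').hom) ≫ (α_ _ _ _).inv
  naturality : ∀ {U U'} (hU : P U) (hU' : P U') (f : U ⟶ U'),
    (X ◁ f) ≫ (β U' hU').hom = (β U hU).hom ≫ (f ▷ X)

/-- The relative center. -/
structure RCen (P : ObjectProperty C) [P.IsMonoidal] where
  /-- The underlying object. -/
  fst : C
  /-- The half-braiding. -/
  snd : RHB P fst

namespace RCen

variable {P : ObjectProperty C} [P.IsMonoidal]

/-- A morphism in the relative center. -/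
@[ext]
structure Hom (X Y : RCen P) where
  /-- The underlying morphism. -/
  f : X.1 ⟶ Y.1
  comm : ∀ U (hU : P U), (f ▷ U) ≫ (Y.2.β U hU).hom = (X.2.β U hU).hom ≫ (U ◁ f)

attribute [reassoc] Hom.comm

instance : Quiver (RCen P) where
  Hom := Hom

@[ext]
theorem ext {X Y : RCen P} (f g : X ⟶ Y) (w : f.f = g.f) : f = g := by
  cases f; cases g; congr

/-- The identity. -/
def idHom (X : RCen P) : Hom X X := ⟨𝟙 X.1, fun U hU => by simp⟩

/-- The composition. -/
def compHom {X Y Z : RCen P} (f : Hom X Y) (g : Hom Y Z) : Hom X Z :=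
  ⟨f.f ≫ g.f, fun U hU => by
    rw [MonoidalCategory.comp_whiskerRight, Category.assoc, g.comm, ← Category.assoc, f.comm,
      Category.assoc, ← MonoidalCategory.whiskerLeft_comp]⟩

instance : Category (RCen P) where
  id X := idHom X
  comp f g := compHom f g
  id_comp f := by ext; exact Category.id_comp f.f
  comp_id f := by ext; exact Category.comp_id f.f
  assoc f g h := by ext; exact Category.assoc f.f g.f h.f

@[simp]
theorem id_f (X : RCen P) : Hom.f (𝟙 X) = 𝟙 X.1 :=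
  rfl

@[simp]
theorem comp_f {X Y Z : RCen P} (f : X ⟶ Y) (g : Y ⟶ Z) : (f ≫ g).f = f.f ≫ g.f :=
  rfl

/-- Construct an isomorphism in the relative center from a morphism whose underlying morphism is
an isomorphism. -/
@[simps]
def isoMk {X Y : RCen P} (f : X ⟶ Y) [IsIso f.f] : X ≅ Y where
  hom := f
  inv := ⟨inv f.f,
    fun U hU => by
      rw [← cancel_epi (f.f ▷ U), ← comp_whiskerRight_assoc, IsIso.hom_inv_id,
        MonoidalCategory.id_whiskerRight, Category.id_comp, ← Category.assoc, f.comm,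
        Category.assoc, ← MonoidalCategory.whiskerLeft_comp, IsIso.hom_inv_id,
        MonoidalCategory.whiskerLeft_id, Category.comp_id]⟩
  hom_inv_id := by ext; simp
  inv_hom_id := by ext; simp

instance isIso_of_f_isIso {X Y : RCen P} (f : X ⟶ Y) [IsIso f.f] : IsIso f := by
  change IsIso (isoMk f).hom
  infer_instance

/-- The half-braiding of a tensor product. -/
def tHB (X Y : RCen P) : RHB P (X.1 ⊗ Y.1) where
  β := fun U hU =>
    α_ _ _ _ ≪≫
      (whiskerLeftIso X.1 (Y.2.β U hU)) ≪≫ (α_ _ _ _).symm ≪≫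
        (whiskerRightIso (X.2.β U hU) Y.1) ≪≫ α_ _ _ _
  monoidal := fun U U' hU hU' h => by
    simp only [Iso.trans_hom, whiskerLeftIso_hom, Iso.symm_hom, whiskerRightIso_hom]
    rw [X.2.monoidal U U' hU hU' h, Y.2.monoidal U U' hU hU' h]
    calc
      _ = 𝟙 _ ⊗≫
        X.1 ◁ (RHB.β Y.2 U hU).hom ▷ U' ⊗≫
          (_ ◁ (RHB.β Y.2 U' hU').hom ≫
            (RHB.β X.2 U hU).hom ▷ _) ⊗≫
              U ◁ (RHB.β X.2 U' hU').hom ▷ Y.1 ⊗≫ 𝟙 _ := by monoidal
      _ = _ := by rw [whisker_exchange]; monoidal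
  naturality := fun {U U'} hU hU' f => by
    simp only [Iso.trans_hom, whiskerLeftIso_hom, Iso.symm_hom, whiskerRightIso_hom]
    calc
      _ = 𝟙 _ ⊗≫
        (X.1 ◁ (Y.1 ◁ f ≫ (RHB.β Y.2 U' hU').hom)) ⊗≫
          (RHB.β X.2 U' hU').hom ▷ Y.1 ⊗≫ 𝟙 _ := by monoidal
      _ = 𝟙 _ ⊗≫
        X.1 ◁ (RHB.β Y.2 U hU).hom ⊗≫
          (X.1 ◁ f ≫ (RHB.β X.2 U' hU').hom) ▷ Y.1 ⊗≫ 𝟙 _ := by
        rw [RHB.naturality _ hU hU']; monoidal
      _ = _ := by rw [RHB.naturality _ hU hU']; monoidal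

theorem tHB_β (X Y : RCen P) (U : C) (hU : P U) : ((tHB X Y).β U hU).hom =
    (α_ _ _ _).hom ≫ X.1 ◁ (Y.2.β U hU).hom ≫ (α_ _ _ _).inv ≫ (X.2.β U hU).hom ▷ Y.1 ≫
      (α_ _ _ _).hom := rfl

/-- Auxiliary definition for the `MonoidalCategory` instance. -/
abbrev tensorObj (X Y : RCen P) : RCen P := ⟨X.1 ⊗ Y.1, tHB X Y⟩

theorem tensorObj_β (X Y : RCen P) (U : C) (hU : P U) : ((tensorObj X Y).2.β U hU).hom =
    (α_ _ _ _).hom ≫ X.1 ◁ (Y.2.β U hU).hom ≫ (α_ _ _ _).inv ≫ (X.2.β U hU).hom ▷ Y.1 ≫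
      (α_ _ _ _).hom := rfl

theorem whiskerLeft_comm (X : RCen P) {Y₁ Y₂ : RCen P} (f : Y₁ ⟶ Y₂) (U : C) (hU : P U) :
    (X.1 ◁ f.f) ▷ U ≫ ((tensorObj X Y₂).2.β U hU).hom =
      ((tensorObj X Y₁).2.β U hU).hom ≫ U ◁ X.1 ◁ f.f := by
  rw [tensorObj_β, tensorObj_β]
  calc
    _ = 𝟙 _ ⊗≫
      X.fst ◁ (f.f ▷ U ≫ (RHB.β Y₂.snd U hU).hom) ⊗≫
        (RHB.β X.snd U hU).hom ▷ Y₂.fst ⊗≫ 𝟙 _ := by monoidal
    _ = 𝟙 _ ⊗≫
      X.fst ◁ (RHB.β Y₁.snd U hU).hom ⊗≫
        ((X.fst ⊗ U) ◁ f.f ≫ (RHB.β X.snd U hU).hom ▷ Y₂.fst) ⊗≫ 𝟙 _ := by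
      rw [f.comm]; monoidal
    _ = _ := by rw [whisker_exchange]; monoidal

/-- Auxiliary definition for the `MonoidalCategory` instance. -/
def whiskerLeft (X : RCen P) {Y₁ Y₂ : RCen P} (f : Y₁ ⟶ Y₂) :
    tensorObj X Y₁ ⟶ tensorObj X Y₂ where
  f := X.1 ◁ f.f
  comm U hU := whiskerLeft_comm X f U hU

theorem whiskerRight_comm {X₁ X₂ : RCen P} (f : X₁ ⟶ X₂) (Y : RCen P) (U : C) (hU : P U) :
    f.f ▷ Y.1 ▷ U ≫ ((tensorObj X₂ Y).2.β U hU).hom =
      ((tensorObj X₁ Y).2.β U hU).hom ≫ U ◁ f.f ▷ Y.1 := by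
  rw [tensorObj_β, tensorObj_β]
  calc
    _ = 𝟙 _ ⊗≫
      (f.f ▷ (Y.fst ⊗ U) ≫ X₂.fst ◁ (RHB.β Y.snd U hU).hom) ⊗≫
        (RHB.β X₂.snd U hU).hom ▷ Y.fst ⊗≫ 𝟙 _ := by monoidal
    _ = 𝟙 _ ⊗≫
      X₁.fst ◁ (RHB.β Y.snd U hU).hom ⊗≫
        (f.f ▷ U ≫ (RHB.β X₂.snd U hU).hom) ▷ Y.fst ⊗≫ 𝟙 _ := by
      rw [← whisker_exchange]; monoidal
    _ = _ := by rw [f.comm]; monoidal

/-- Auxiliary definition for the `MonoidalCategory` instance. -/
def whiskerRight {X₁ X₂ : RCen P} (f : X₁ ⟶ X₂) (Y : RCen P) :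
    tensorObj X₁ Y ⟶ tensorObj X₂ Y where
  f := f.f ▷ Y.1
  comm U hU := whiskerRight_comm f Y U hU

/-- Auxiliary definition for the `MonoidalCategory` instance. -/
def tensorHom {X₁ Y₁ X₂ Y₂ : RCen P} (f : X₁ ⟶ Y₁) (g : X₂ ⟶ Y₂) :
    tensorObj X₁ X₂ ⟶ tensorObj Y₁ Y₂ where
  f := f.f ⊗ₘ g.f
  comm U hU := by
    rw [tensorHom_def, MonoidalCategory.comp_whiskerRight, Category.assoc, whiskerLeft_comm,
      ← Category.assoc, whiskerRight_comm, Category.assoc, MonoidalCategory.whiskerLeft_comp]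

/-- The half-braiding of the unit object. -/
def unitHB : RHB P (𝟙_ C) where
  β := fun U _ => λ_ U ≪≫ (ρ_ U).symm
  monoidal := fun U U' _ _ _ => by simp
  naturality := fun _ _ f => by simp

theorem unitHB_β (U : C) (hU : P U) : ((unitHB (P := P)).β U hU).hom =
    (λ_ U).hom ≫ (ρ_ U).inv := rfl

/-- Auxiliary definition for the `MonoidalCategory` instance. -/
abbrev tensorUnit : RCen P := ⟨𝟙_ C, unitHB⟩

/-- Auxiliary definition for the `MonoidalCategory` instance. -/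
def assocHom (X Y Z : RCen P) :
    tensorObj (tensorObj X Y) Z ⟶ tensorObj X (tensorObj Y Z) :=
  ⟨(α_ X.1 Y.1 Z.1).hom, fun U hU => by simp only [tHB_β]; simp⟩

/-- Auxiliary definition for the `MonoidalCategory` instance. -/
def leftHom (X : RCen P) : tensorObj tensorUnit X ⟶ X :=
  ⟨(λ_ X.1).hom, fun U hU => by simp only [tHB_β, unitHB_β]; simp⟩

/-- Auxiliary definition for the `MonoidalCategory` instance. -/
def rightHom (X : RCen P) : tensorObj X tensorUnit ⟶ X :=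
  ⟨(ρ_ X.1).hom, fun U hU => by simp only [tHB_β, unitHB_β]; simp⟩

/-- Auxiliary definition for the `MonoidalCategory` instance. -/
def associator (X Y Z : RCen P) : tensorObj (tensorObj X Y) Z ≅ tensorObj X (tensorObj Y Z) :=
  haveI : IsIso (assocHom X Y Z).f := inferInstanceAs (IsIso (α_ X.1 Y.1 Z.1).hom)
  isoMk (assocHom X Y Z)

/-- Auxiliary definition for the `MonoidalCategory` instance. -/
def leftUnitor (X : RCen P) : tensorObj tensorUnit X ≅ X :=
  haveI : IsIso (leftHom X).f := inferInstanceAs (IsIso (λ_ X.1).hom)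
  isoMk (leftHom X)

/-- Auxiliary definition for the `MonoidalCategory` instance. -/
def rightUnitor (X : RCen P) : tensorObj X tensorUnit ≅ X :=
  haveI : IsIso (rightHom X).f := inferInstanceAs (IsIso (ρ_ X.1).hom)
  isoMk (rightHom X)

instance : MonoidalCategory (RCen P) where
  tensorObj X Y := tensorObj X Y
  tensorHom f g := tensorHom f g
  tensorHom_def f g := by ext; exact MonoidalCategory.tensorHom_def f.f g.f
  whiskerLeft X _ _ f := whiskerLeft X f
  whiskerRight f Y := whiskerRight f Y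
  tensorUnit := tensorUnit
  associator := associator
  leftUnitor := leftUnitor
  rightUnitor := rightUnitor
  id_tensorHom_id X Y := by ext; exact MonoidalCategory.id_tensorHom_id X.1 Y.1
  tensorHom_comp_tensorHom f g h i := by
    ext; exact MonoidalCategory.tensorHom_comp_tensorHom f.f g.f h.f i.f
  whiskerLeft_id X Y := by ext; exact MonoidalCategory.whiskerLeft_id X.1 Y.1
  id_whiskerRight X Y := by ext; exact MonoidalCategory.id_whiskerRight X.1 Y.1
  associator_naturality f g h := by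
    ext; exact MonoidalCategory.associator_naturality f.f g.f h.f
  leftUnitor_naturality f := by ext; exact MonoidalCategory.leftUnitor_naturality f.f
  rightUnitor_naturality f := by ext; exact MonoidalCategory.rightUnitor_naturality f.f
  pentagon W X Y Z := by ext; exact MonoidalCategory.pentagon W.1 X.1 Y.1 Z.1
  triangle X Y := by ext; exact MonoidalCategory.triangle X.1 Y.1

@[simp]
theorem tensor_fst (X Y : RCen P) : (X ⊗ Y).1 = X.1 ⊗ Y.1 :=
  rfl

theorem tensor_β (X Y : RCen P) (U : C) (hU : P U) :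
    ((X ⊗ Y).2.β U hU).hom =
      (α_ _ _ _).hom ≫ X.1 ◁ (Y.2.β U hU).hom ≫ (α_ _ _ _).inv ≫ (X.2.β U hU).hom ▷ Y.1 ≫
      (α_ _ _ _).hom :=
  rfl

@[simp]
theorem whiskerLeft_f (X : RCen P) {Y₁ Y₂ : RCen P} (f : Y₁ ⟶ Y₂) : (X ◁ f).f = X.1 ◁ f.f :=
  rfl

@[simp]
theorem whiskerRight_f {X₁ X₂ : RCen P} (f : X₁ ⟶ X₂) (Y : RCen P) : (f ▷ Y).f = f.f ▷ Y.1 :=
  rfl

@[simp]
theorem tensor_f {X₁ Y₁ X₂ Y₂ : RCen P} (f : X₁ ⟶ Y₁) (g : X₂ ⟶ Y₂) :
    (f ⊗ₘ g).f = f.f ⊗ₘ g.f :=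
  rfl

@[simp]
theorem tensorUnit_fst : (𝟙_ (RCen P)).1 = 𝟙_ C := rfl

@[simp]
theorem tensorUnit_β (U : C) (hU : P U) :
    ((𝟙_ (RCen P)).2.β U hU).hom = (λ_ U).hom ≫ (ρ_ U).inv :=
  rfl

@[simp]
theorem associator_hom_f (X Y Z : RCen P) : Hom.f (α_ X Y Z).hom = (α_ X.1 Y.1 Z.1).hom :=
  rfl

@[simp]
theorem associator_inv_f (X Y Z : RCen P) : Hom.f (α_ X Y Z).inv = (α_ X.1 Y.1 Z.1).inv := by
  apply Iso.inv_ext'
  rw [← associator_hom_f, ← comp_f, Iso.hom_inv_id]; rfl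

@[simp]
theorem leftUnitor_hom_f (X : RCen P) : Hom.f (λ_ X).hom = (λ_ X.1).hom :=
  rfl

@[simp]
theorem leftUnitor_inv_f (X : RCen P) : Hom.f (λ_ X).inv = (λ_ X.1).inv := by
  apply Iso.inv_ext'
  rw [← leftUnitor_hom_f, ← comp_f, Iso.hom_inv_id]; rfl

@[simp]
theorem rightUnitor_hom_f (X : RCen P) : Hom.f (ρ_ X).hom = (ρ_ X.1).hom :=
  rfl

@[simp]
theorem rightUnitor_inv_f (X : RCen P) : Hom.f (ρ_ X).inv = (ρ_ X.1).inv := by
  apply Iso.inv_ext'
  rw [← rightUnitor_hom_f, ← comp_f, Iso.hom_inv_id]; rfl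

variable (P)

/-- The forgetful functor. -/
@[simps]
def forget : RCen P ⥤ C where
  obj X := X.1
  map f := f.f

instance : (forget P).Monoidal :=
  Functor.CoreMonoidal.toMonoidal
    { εIso := Iso.refl _
      μIso := fun _ _ ↦ Iso.refl _
      μIso_hom_natural_left := fun f X => by
        change f.f ▷ X.1 ≫ 𝟙 _ = 𝟙 _ ≫ f.f ▷ X.1
        simp
      μIso_hom_natural_right := fun X f => by
        change X.1 ◁ f.f ≫ 𝟙 _ = 𝟙 _ ≫ X.1 ◁ f.f
        simp
      associativity := fun X Y Z => by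
        change (𝟙 _ ▷ Z.1) ≫ 𝟙 _ ≫ (α_ X.1 Y.1 Z.1).hom = (α_ X.1 Y.1 Z.1).hom ≫ X.1 ◁ 𝟙 _ ≫ 𝟙 _
        simp
      left_unitality := fun X => by
        change (λ_ X.1).hom = (𝟙 _ ▷ X.1) ≫ 𝟙 _ ≫ (λ_ X.1).hom
        simp
      right_unitality := fun X => by
        change (ρ_ X.1).hom = (X.1 ◁ 𝟙 _) ≫ 𝟙 _ ≫ (ρ_ X.1).hom
        simp }

instance : (forget P).ReflectsIsomorphisms where
  reflects f i := by
    have : IsIso f.f := i
    infer_instance

instance : (forget P).Faithful where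
  map_injective h := RCen.ext _ _ h

/-- Restriction of half-braidings. -/
def ofCenterObj (N : Center C) : RCen P :=
  ⟨N.1, { β := fun U _ => N.2.β U
          monoidal := fun U U' _ _ _ => N.2.monoidal U U'
          naturality := fun _ _ f => N.2.naturality f }⟩

/-- The restriction functor from the Drinfeld center. -/
def ofCenter : Center C ⥤ RCen P where
  obj N := ofCenterObj P N
  map f := ⟨f.f, fun U _ => f.comm U⟩

@[simp] theorem ofCenter_fst (N : Center C) : ((ofCenter P).obj N).1 = N.1 := rfl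

@[simp] theorem ofCenter_β (N : Center C) (U : C) (hU : P U) :
    ((ofCenter P).obj N).2.β U hU = N.2.β U := rfl

@[simp] theorem ofCenter_map_f {N M : Center C} (f : N ⟶ M) : ((ofCenter P).map f).f = f.f := rfl

instance : (ofCenter P).Monoidal :=
  Functor.CoreMonoidal.toMonoidal
    { εIso := Iso.refl _
      μIso := fun _ _ ↦ Iso.refl _
      μIso_hom_natural_left := fun f X => by
        ext
        change f.f ▷ X.1 ≫ 𝟙 _ = 𝟙 _ ≫ f.f ▷ X.1
        simp
      μIso_hom_natural_right := fun X f => by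
        ext
        change X.1 ◁ f.f ≫ 𝟙 _ = 𝟙 _ ≫ X.1 ◁ f.f
        simp
      associativity := fun X Y Z => by
        ext
        change (𝟙 _ ▷ Z.1) ≫ 𝟙 _ ≫ (α_ X.1 Y.1 Z.1).hom = (α_ X.1 Y.1 Z.1).hom ≫ X.1 ◁ 𝟙 _ ≫ 𝟙 _
        simp
      left_unitality := fun X => by
        ext
        change (λ_ X.1).hom = (𝟙 _ ▷ X.1) ≫ 𝟙 _ ≫ (λ_ X.1).hom
        simp
      right_unitality := fun X => by
        ext
        change (ρ_ X.1).hom = (X.1 ◁ 𝟙 _) ≫ 𝟙 _ ≫ (ρ_ X.1).hom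
        simp }

instance : (ofCenter P).Faithful where
  map_injective h := Center.ext _ _ (congrArg Hom.f h)

end RCen

end Pool.Agent.RC40
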