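import Pool.Agent.MUG.Dim
import Pool.Agent.MUG.Inj
import Pool.Agent.RC40.EOa

/-!
# Row EO: exact tensor functors onto map projectives to projectives (helper29)

`U : X ⥤ R` an exact faithful tensor functor of finite tensor categories, `X` braided, `R` with a
dimension function, every object of `R` a subquotient of some `U.obj V`. Then `U` maps projective
objects to projective objects (Etingof and Ostrik).
-/

open CategoryTheory MonoidalCategory Limits Abelian

universe w w' v u v₁ u₁

set_option backward.isDefEq.respectTransparency.types false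
set_option linter.unusedSectionVars false

attribute [local instance] CategoryTheory.Abelian.hasFiniteBiproducts

noncomputable section

namespace Pool.Agent.RC40

open Pool.Agent.MUG

section General

variable {k : Type*} [Field k] {X : Type u} [Category.{v} X] [Abelian X] [Linear k X]
  [MonoidalCategory X] [MonoidalPreadditive X] [MonoidalLinear k X] [RigidCategory X]
  {R : Type u₁} [Category.{v₁} R] [Abelian R] [Linear k R]
  [MonoidalCategory R] [MonoidalPreadditive R] [MonoidalLinear k R] [RigidCategory R]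

/-- A faithful functor of abelian categories reflects zero objects. -/
theorem not_isZero_map (U : X ⥤ R) [U.Additive] [U.Faithful] {A : X} (hA : ¬ IsZero A) :
    ¬ IsZero (U.obj A) := by
  intro h
  apply hA
  rw [IsZero.iff_id_eq_zero]
  apply U.map_injective
  exact h.eq_of_src _ _

/-- The pullback of a dimension function along an exact faithful tensor functor. -/
theorem dimFun_comp (U : X ⥤ R) [U.Additive] [U.Monoidal] [U.Faithful]
    [PreservesFiniteLimits U] [PreservesFiniteColimits U] {d : R → ℝ} (hd : DimFun d) :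
    DimFun (fun A : X => d (U.obj A)) where
  iso := fun e => hd.iso (U.mapIso e)
  add := fun {S} hS => hd.add (S := S.map U) (hS.map_of_exact U)
  mul := fun A B => by
    rw [← hd.mul]
    exact hd.iso (Functor.Monoidal.μIso U A B).symm
  pos := fun {A} hA => hd.pos (not_isZero_map U hA)
  one := by
    rw [← hd.one]
    exact hd.iso (Functor.Monoidal.εIso U).symm

/-- The regular object of `X` under an additive function on projectives. -/
theorem reg_sum [IsAlgClosed k] (hX : IsFinite k X) (F : Fam X) {δ : X → ℝ} (hδ : DimFun δ)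
    (φ : X → ℝ) (hiso : ∀ A B : X, Nonempty (A ≅ B) → φ A = φ B)
    (hadd : ∀ A B : X, φ (A ⊞ B) = φ A + φ B) (Y : X) :
    ∑ i, δ (F.T i) * φ (F.P i ⊗ Y) = δ Y * ∑ l, δ (F.T l) * φ (F.P l) := by
  have hX' := hX.finCat
  have h1 : ∀ i, φ (F.P i ⊗ Y) = ∑ l, (F.m k i (F.T l ⊗ Yᘁ) : ℝ) * φ (F.P l) := by
    intro i
    have := (F.cov i).proj
    rw [F.proj_dec hX' φ hiso hadd (F.P i ⊗ Y) (projective_tensorRight (F.P i) Y)]
    refine Finset.sum_congr rfl fun l _ => ?_
    rw [Fam.m, (trLin (k := k) (F.P i) Y (Yᘁ) (F.T l)).finrank_eq]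
  calc ∑ i, δ (F.T i) * φ (F.P i ⊗ Y)
      = ∑ i, ∑ l, δ (F.T i) * ((F.m k i (F.T l ⊗ Yᘁ) : ℝ) * φ (F.P l)) := by
        refine Finset.sum_congr rfl fun i _ => ?_
        rw [h1, Finset.mul_sum]
    _ = ∑ l, (∑ i, (F.m k i (F.T l ⊗ Yᘁ) : ℝ) * δ (F.T i)) * φ (F.P l) := by
        rw [Finset.sum_comm]
        refine Finset.sum_congr rfl fun l _ => ?_
        rw [Finset.sum_mul]
        exact Finset.sum_congr rfl fun i _ => by ring
    _ = ∑ l, (δ Y * δ (F.T l)) * φ (F.P l) := by
        refine Finset.sum_congr rfl fun l _ => ?_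
        rw [← hδ.sum F hX', hδ.mul, hδ.rdual hX, mul_comm (δ (F.T l))]
    _ = δ Y * ∑ l, δ (F.T l) * φ (F.P l) := by
        rw [Finset.mul_sum]
        exact Finset.sum_congr rfl fun l _ => by ring

/-- Row EO, relative to a function `n` on `R` measuring the non-projective part. -/
theorem map_projective_of_n [IsAlgClosed k] (hX : IsFinite k X) (hR : IsFinite k R)
    (U : X ⥤ R) [U.Additive] [U.Monoidal] [U.Faithful]
    [PreservesFiniteLimits U] [PreservesFiniteColimits U] {d : R → ℝ} (hd : DimFun d)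
    (hsurj : ∀ Q : R, ∃ V : X, IsSubquotient Q (U.obj V))
    (n : R → ℝ) (hiso : ∀ V W : R, Nonempty (V ≅ W) → n V = n W)
    (hadd : ∀ V W : R, n (V ⊞ W) = n V + n W) (hnn : ∀ V : R, 0 ≤ n V)
    (hmul : ∀ V W : R, n (V ⊗ W) ≤ n V * n W)
    (h0 : ∀ V : R, n V = 0 → Projective V)
    (hd' : ∀ V : R, d V ≤ n V → ∀ Q : R, Projective Q → ∀ f : Q ⟶ V, Mono f → IsZero Q)
    {P : X} (hP : Projective P) : Projective (U.obj P) := by
  have hX' := hX.finCat
  obtain ⟨F⟩ := exists_fam hX'
  have hδ := dimFun_comp U hd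
  have hw : ∀ i, 0 < d (U.obj (F.T i)) := fun i => by
    have := F.simple i
    exact hδ.pos (Simple.not_isZero (F.T i))
  have niso : ∀ A B : X, Nonempty (A ≅ B) → n (U.obj A) = n (U.obj B) :=
    fun A B ⟨e⟩ => hiso _ _ ⟨U.mapIso e⟩
  have nadd : ∀ A B : X, n (U.obj (A ⊞ B)) = n (U.obj A) + n (U.obj B) := fun A B => by
    rw [← hadd]
    have := preservesBinaryBiproducts_of_preservesBiproducts U
    exact hiso _ _ ⟨U.mapBiprod A B⟩
  have diso : ∀ A B : X, Nonempty (A ≅ B) → d (U.obj A) = d (U.obj B) :=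
    fun A B ⟨e⟩ => hd.iso (U.mapIso e)
  have dadd : ∀ A B : X, d (U.obj (A ⊞ B)) = d (U.obj A) + d (U.obj B) := fun A B =>
    hδ.add (ses_biprod A B)
  have hPn : ∀ P : X, Projective P →
      n (U.obj P) = ∑ i, (Module.finrank k (P ⟶ F.T i) : ℝ) * n (U.obj (F.P i)) :=
    fun P hP => F.proj_dec hX' (fun A => n (U.obj A)) niso nadd P hP
  have hPd : ∀ P : X, Projective P →
      d (U.obj P) = ∑ i, (Module.finrank k (P ⟶ F.T i) : ℝ) * d (U.obj (F.P i)) :=
    fun P hP => F.proj_dec hX' (fun A => d (U.obj A)) diso dadd P hP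
  let S : ℝ := ∑ l, d (U.obj (F.T l)) * n (U.obj (F.P l))
  have hS0 : ∀ l, 0 ≤ d (U.obj (F.T l)) * n (U.obj (F.P l)) := fun l =>
    mul_nonneg (hw l).le (hnn _)
  have hS : 0 ≤ S := Finset.sum_nonneg fun l _ => hS0 l
  have key : ∀ j, d (U.obj (F.P j)) * S ≤ n (U.obj (F.P j)) * S := by
    intro j
    have h1 := reg_sum hX F hδ (fun A => n (U.obj A)) niso nadd (F.P j)
    have h2 : d (U.obj (F.P j)) * S = ∑ i, d (U.obj (F.T i)) * n (U.obj (F.P i ⊗ F.P j)) :=
      h1.symm
    rw [h2, Finset.mul_sum]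
    refine Finset.sum_le_sum fun i _ => ?_
    have h3 : n (U.obj (F.P i ⊗ F.P j)) ≤ n (U.obj (F.P i)) * n (U.obj (F.P j)) := by
      rw [hiso _ _ ⟨(Functor.Monoidal.μIso U (F.P i) (F.P j)).symm⟩]
      exact hmul _ _
    calc d (U.obj (F.T i)) * n (U.obj (F.P i ⊗ F.P j))
        ≤ d (U.obj (F.T i)) * (n (U.obj (F.P i)) * n (U.obj (F.P j))) :=
          mul_le_mul_of_nonneg_left h3 (hw i).le
      _ = n (U.obj (F.P j)) * (d (U.obj (F.T i)) * n (U.obj (F.P i))) := by ring
  rcases hS.eq_or_lt with hS1 | hS1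
  · -- all `U (P i)` are projective
    apply h0
    rw [hPn P hP]
    refine Finset.sum_eq_zero fun i _ => ?_
    have h1 := (Finset.sum_eq_zero_iff_of_nonneg (fun l _ => hS0 l)).1 hS1.symm i
      (Finset.mem_univ i)
    have h2 : n (U.obj (F.P i)) = 0 := by
      rcases mul_eq_zero.1 h1 with h | h
      · exact absurd h (hw i).ne'
      · exact h
    rw [h2, mul_zero]
  · -- no `U P` contains a nonzero projective object: contradiction
    exfalso
    have h1 : ∀ j, d (U.obj (F.P j)) ≤ n (U.obj (F.P j)) := fun j =>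
      le_of_mul_le_mul_right (key j) hS1
    have h2 : ∀ P : X, Projective P → d (U.obj P) ≤ n (U.obj P) := fun P hP => by
      rw [hPn P hP, hPd P hP]
      exact Finset.sum_le_sum fun i _ => mul_le_mul_of_nonneg_left (h1 i) (Nat.cast_nonneg _)
    have hE := hR.enough
    have hEX := hX.enough
    have hunit := hR.unit
    let Q : R := Projective.over (𝟙_ R)
    have hQ : ¬ IsZero Q := by
      intro h
      have h3 : Projective.π (𝟙_ R) = 0 := h.eq_of_src _ _
      have h4 : 𝟙 (𝟙_ R) = 0 := by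
        rw [← cancel_epi (Projective.π (𝟙_ R)), h3, zero_comp, comp_zero]
      exact id_nonzero (𝟙_ R) h4
    obtain ⟨V, K, i, p, hi, hp⟩ := hsurj Q
    let s : Q ⟶ K := Projective.factorThru (𝟙 Q) p
    have hs : s ≫ p = 𝟙 Q := Projective.factorThru_comp _ _
    have hms : Mono s := mono_of_mono_fac hs
    have hmsi : Mono (s ≫ i) := mono_comp _ _
    have hepi : Epi (U.map (Projective.π V)) := inferInstance
    let f : Q ⟶ U.obj (Projective.over V) :=
      Projective.factorThru (s ≫ i) (U.map (Projective.π V))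
    have hf : f ≫ U.map (Projective.π V) = s ≫ i := Projective.factorThru_comp _ _
    have hmf : Mono f := mono_of_mono_fac hf
    exact hQ (hd' _ (h2 _ inferInstance) Q inferInstance f hmf)

/-- Row EO (file RC40/EO.lean). -/
theorem map_projective_of_surj [IsAlgClosed k] [BraidedCategory X] (hX : IsFinite k X)
    (hR : IsFinite k R) (U : X ⥤ R) [U.Additive] [U.Linear k] [U.Monoidal] [U.Faithful]
    [PreservesFiniteLimits U] [PreservesFiniteColimits U] {d : R → ℝ} (hd : DimFun d)
    (hsurj : ∀ Q : R, ∃ V : X, IsSubquotient Q (U.obj V)) {P : X} (hP : Projective P) :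
    Projective (U.obj P) := by
  obtain ⟨n, h1, h2, h3, -, h5, h6, -, h8⟩ := exists_n hR hd
  exact map_projective_of_n hX hR U hd hsurj n h1 h2 h3 h5 h6 h8 hP

end General

end Pool.Agent.RC40
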