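import Pool.Agent.RC40.FGR0
import Pool.Agent.RC40.FIN

/-!
# FGC of the relative center (MP_388894, row FGR, helper45)
-/

open CategoryTheory MonoidalCategory Limits Abelian

universe w w' v u

set_option backward.isDefEq.respectTransparency.types false
set_option linter.unusedSectionVars false

noncomputable section

namespace Pool.Agent.RC40

open Pool.Agent.MUG Pool.Agent.NDC

variable {k : Type*} [Field k] {C : Type u} [Category.{v} C] [Abelian C]
  [Linear k C] [MonoidalCategory C] [MonoidalPreadditive C] [MonoidalLinear k C]
  [RigidCategory C] (P : ObjectProperty C) [hP : TensorSub P]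

/-- **FGC of the relative center.** -/
theorem fgc_rcen [IsAlgClosed k] [BraidedCategory C] [HasExt.{w} (Center C)]
    [HasExt.{w'} (RCen P)] (hC : IsFinite k C) (hF : FGC.{w} k (Center C)) :
    FGC.{w'} k (RCen P) :=
  fgc_rcen_of.{w, w'} P hC (rc_isFinite P hC) hF

end Pool.Agent.RC40
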