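import Pool.Agent.RC40.Def
import Pool.Agent.RC40.EOa
import Pool.Agent.NDC.Phi2
import Pool.Agent.MUG.Sub

/-!
# The extension of a half-braided family (MP_388894, row SURJ part 1, helper45)
-/

open CategoryTheory MonoidalCategory Limits ZeroObject

universe v u

set_option backward.isDefEq.respectTransparency.types false
set_option linter.unusedSectionVars false

noncomputable section

namespace Pool.Agent.RC40.S1

open Pool.Agent.MUG Pool.Agent.NDC

section

variable {k : Type*} [Field k] {C : Type u} [Category.{v} C] [Abelian C] [Linear k C]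

/-- The largest subobject satisfying `P`. -/
theorem exists_largest [MonoidalCategory C] [RigidCategory C] (hC : FinCat k C)
    (P : ObjectProperty C) [hP : TensorSub P] (I : C) :
    ∃ (J : C) (ι : J ⟶ I), Mono ι ∧ P J ∧ ∀ (V : C) (u : V ⟶ I), P V →
      ∃ u' : V ⟶ J, u' ≫ ι = u := by
  classical
  obtain ⟨F⟩ := exists_fam hC
  let S : Set ℕ := {n | ∃ (J : C) (ι : J ⟶ I), Mono ι ∧ P J ∧ F.len k J = n}
  have hbdd : ∀ n ∈ S, n ≤ F.len k I := by
    rintro n ⟨J, ι, h1, h2, rfl⟩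
    exact F.len_mono hC ι
  have hne : S.Nonempty := by
    refine ⟨_, (0 : C), 0, ?_, ?_, rfl⟩
    · exact ⟨fun _ _ _ => (isZero_zero C).eq_of_tgt _ _⟩
    · have : Mono (0 : (0 : C) ⟶ 𝟙_ C) := ⟨fun _ _ _ => (isZero_zero C).eq_of_tgt _ _⟩
      exact hP.sub (0 : (0 : C) ⟶ 𝟙_ C) hP.unit
  have hB : BddAbove S := ⟨_, fun n hn => hbdd n hn⟩
  obtain ⟨J, ι, hι, hJ, hlen⟩ : sSup S ∈ S := Nat.sSup_mem hne hB
  refine ⟨J, ι, hι, hJ, fun V u hV => ?_⟩
  let d : J ⊞ V ⟶ I := biprod.desc ι u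
  let M := Abelian.image d
  let p := Abelian.factorThruImage d
  let m := Abelian.image.ι d
  have hpm : p ≫ m = d := Abelian.image.fac d
  have hM : P M := hP.quot p (hP.biprod hJ hV)
  let j : J ⟶ M := biprod.inl ≫ p
  have hj : j ≫ m = ι := by
    rw [Category.assoc, hpm, biprod.inl_desc]
  have hmono : Mono j := by
    have : Mono (j ≫ m) := by rw [hj]; exact hι
    exact mono_of_mono j m
  have hiso : IsIso j := by
    have h1 := F.len_add hC (Fam.ses_mono j)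
    simp only at h1
    have h3 : F.len k M ≤ F.len k J := by
      rw [hlen]
      exact le_csSup hB ⟨M, m, inferInstance, hM, rfl⟩
    have h2 : IsZero (cokernel j) := by
      rw [← F.len_eq_zero_iff (k := k) hC]
      omega
    have : Epi j := Abelian.epi_of_cokernel_π_eq_zero j (h2.eq_of_tgt _ _)
    exact isIso_of_mono_of_epi j
  refine ⟨biprod.inr ≫ p ≫ inv j, ?_⟩
  have h4 : inv j ≫ ι = m := by rw [← hj, IsIso.inv_hom_id_assoc]
  rw [Category.assoc, Category.assoc, h4, hpm, biprod.inr_desc]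

end

section

variable {k : Type*} [Field k] {C : Type u} [Category.{v} C] [Abelian C]
  [Linear k C] [MonoidalCategory C] [MonoidalPreadditive C] [MonoidalLinear k C]
  [RigidCategory C]

/-- **The extension lemma**: the family `g_V ≫ (ψ_V ▷ M)` defined for `V` in `P` extends to a
natural family on the whole category. -/
theorem exists_ext (hC : FinCat k C) (P : ObjectProperty C) [hP : TensorSub P] {P0 : C}
    [Projective P0] (N : Nak k P0) (M : RCen P) {W : C} (c : 𝟙_ C ⊗ N.I ⟶ P0 ⊗ W) :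
    ∃ F : NatFam M.1 (W ⊗ M.1), ∀ V (hV : P V), F.f V = (M.2.β V hV).hom ≫
      ((λ_ V).inv ≫ phi hC N c V) ▷ M.1 ≫ (α_ V W M.1).hom := by
  obtain ⟨J, ι, hι, hJ, hfac⟩ := exists_largest hC P N.I
  have hinj : Injective (P0 ⊗ (W ⊗ M.1)) := by
    have : Projective (P0 ⊗ (W ⊗ M.1)) := projective_tensorRight P0 _
    exact injective_of_projective _
  have hmono : Mono (M.1 ◁ ι) := inferInstanceAs (Mono ((tensorLeft M.1).map ι))
  let c0 : M.1 ⊗ J ⟶ P0 ⊗ (W ⊗ M.1) :=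
    (M.2.β J hJ).hom ≫ (ι ≫ (λ_ N.I).inv ≫ c) ▷ M.1 ≫ (α_ P0 W M.1).hom
  let c' : M.1 ⊗ N.I ⟶ P0 ⊗ (W ⊗ M.1) := Injective.factorThru c0 (M.1 ◁ ι)
  have hc' : M.1 ◁ ι ≫ c' = c0 := Injective.comp_factorThru c0 (M.1 ◁ ι)
  refine ⟨phiFam hC N c', fun V hV => ?_⟩
  change phi hC N c' V = _
  rw [phi, phi, Preadditive.comp_sum, sum_whiskerRight, Preadditive.sum_comp,
    Preadditive.comp_sum]
  refine Finset.sum_congr rfl fun i _ => ?_
  obtain ⟨t, ht⟩ := hfac V (N.θ ((bas hC P0 V).coord i)) hV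
  rw [← ht, MonoidalCategory.whiskerLeft_comp, Category.assoc, reassoc_of% hc']
  have hn : M.1 ◁ t ≫ (M.2.β J hJ).hom = (M.2.β V hV).hom ≫ t ▷ M.1 := M.2.naturality hV hJ t
  calc M.1 ◁ t ≫ c0 ≫ (bas hC P0 V i) ▷ (W ⊗ M.1)
      = (M.1 ◁ t ≫ (M.2.β J hJ).hom) ≫ (ι ≫ (λ_ N.I).inv ≫ c) ▷ M.1 ≫ (α_ P0 W M.1).hom ≫
          (bas hC P0 V i) ▷ (W ⊗ M.1) := by
        simp only [c0, Category.assoc]
    _ = _ := by
        rw [hn]
        simp only [Category.assoc, MonoidalCategory.comp_whiskerRight,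
          MonoidalCategory.whiskerLeft_comp, associator_naturality_left,
          leftUnitor_inv_naturality_assoc]
        monoidal

end

section

variable {k : Type*} [Field k] {C : Type u} [Category.{v} C] [Abelian C]
  [Linear k C] [MonoidalCategory C] [MonoidalPreadditive C] [MonoidalLinear k C]
  [RigidCategory C] {P : ObjectProperty C} [hP : TensorSub P]

/-- The two families attached to an object of the relative center. -/
theorem exists_fam2 [IsAlgClosed k] (hC : IsFinite k C) (M : RCen P) :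
    ∃ (W1 : C) (Ψ : NatFam (𝟙_ C) W1) (F : NatFam M.1 (W1 ⊗ M.1)), Ψ.f (𝟙_ C) ≠ 0 ∧
      ∀ V (hV : P V), F.f V = (M.2.β V hV).hom ≫ ((λ_ V).inv ≫ Ψ.f V) ▷ M.1 ≫
        (α_ V W1 M.1).hom := by
  have hF := hC.finCat
  have h1 : Simple (𝟙_ C) := hC.unit
  have := hC.enough
  let Q := Projective.over (𝟙_ C)
  obtain ⟨N⟩ := exists_Nak hF Q
  obtain ⟨F, hFF⟩ := exists_ext hF P N M (cc (𝟙_ C) N.I (𝟙 Q))
  refine ⟨_, phiFam hF N (cc (𝟙_ C) N.I (𝟙 Q)), F, fun h0 => ?_, hFF⟩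
  have hg : ∃ g : Q ⟶ 𝟙_ C, g ≠ 0 := by
    refine ⟨Projective.π _, fun h => ?_⟩
    have h2 : Epi (Projective.π (𝟙_ C)) := inferInstance
    apply id_nonzero (𝟙_ C)
    rw [← cancel_epi (Projective.π (𝟙_ C)), Category.comp_id, comp_zero]
    exact h
  have h3 := phi_faithful hF h1 N hg (𝟙_ C) (𝟙 (𝟙_ C)) (by
    change 𝟙 (𝟙_ C) ▷ (𝟙_ C) ≫ (phiFam hF N (cc (𝟙_ C) N.I (𝟙 Q))).f (𝟙_ C) = 0
    rw [h0, comp_zero])
  exact id_nonzero (𝟙_ C) h3

end

end Pool.Agent.RC40.S1
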