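import Pool.Agent.RC40.SURJ3
import Pool.Agent.RC40.S1

/-! # Row SURJ: the Drinfeld center maps onto the relative center (helper40) -/

open CategoryTheory MonoidalCategory Limits Abelian

universe v u

set_option backward.isDefEq.respectTransparency.types false
set_option linter.unusedSectionVars false

attribute [local instance] CategoryTheory.Abelian.hasFiniteBiproducts

noncomputable section

namespace Pool.Agent.RC40

open Pool.Agent.MUG Pool.Agent.NDC

variable {k : Type*} [Field k] {C : Type u} [Category.{v} C] [Abelian C]
  [Linear k C] [MonoidalCategory C] [MonoidalPreadditive C] [MonoidalLinear k C]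
  [RigidCategory C] (P : ObjectProperty C) [hP : TensorSub P]

/-- Every object of the relative center is a subquotient of an object of the Drinfeld center. -/
theorem rc_subquotient [IsAlgClosed k] (hC : IsFinite k C) (M : RCen P) :
    ∃ N : Center C, IsSubquotient M ((RCen.ofCenter P).obj N) := by
  obtain ⟨W1, Ψ, F, hΨ, hF⟩ := S1.exists_fam2 hC M
  exact SJ.subq_main hC M Ψ F hΨ hF

end Pool.Agent.RC40
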