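import Pool.Agent.RC40.AB
import Pool.Agent.RC40.RIG
import Pool.Agent.MUG.Dim
import Pool.Agent.MUG.CenRig

/-! # The restriction functor from the Drinfeld center is exact (row UF, helper54) -/

open CategoryTheory MonoidalCategory Limits Abelian

universe v u

set_option backward.isDefEq.respectTransparency.types false
set_option linter.unusedSectionVars false

attribute [local instance] CategoryTheory.Abelian.hasFiniteBiproducts

noncomputable section

namespace Pool.Agent.RC40

open Pool.Agent.MUG

variable {k : Type*} [Field k] {C : Type u} [Category.{v} C] [Abelian C]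
  [Linear k C] [MonoidalCategory C] [MonoidalPreadditive C] [MonoidalLinear k C]
  [RigidCategory C] (P : ObjectProperty C) [hP : TensorSub P]

instance ofCenter_additive : (RCen.ofCenter P).Additive where
  map_add {X Y f g} := by
    apply RCen.ext
    rw [rc_add_f]
    rfl

instance ofCenter_linear : (RCen.ofCenter P).Linear k where
  map_smul {X Y} f r := by
    apply RCen.ext
    rw [rc_smul_f]
    rfl

theorem ofCenter_exact :
    PreservesFiniteLimits (RCen.ofCenter P) ∧ PreservesFiniteColimits (RCen.ofCenter P) := by
  have h := (RCen.ofCenter P).exact_tfae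
  refine (h.out 1 3).1 fun S hS => ?_
  have h2 : ((S.map (RCen.ofCenter P)).map (RCen.forget P)).Exact := by
    have h3 : (S.map (Center.forget C)).Exact := hS.map (Center.forget C)
    exact h3
  exact ((S.map (RCen.ofCenter P)).exact_map_iff_of_faithful (RCen.forget P)).1 h2

instance ofCenter_pfl : PreservesFiniteLimits (RCen.ofCenter P) := (ofCenter_exact P).1

instance ofCenter_pfc : PreservesFiniteColimits (RCen.ofCenter P) := (ofCenter_exact P).2

/-- The dimension function of the relative center. -/
theorem rc_dimFun {d : C → ℝ} (hd : DimFun d) : DimFun (fun M : RCen P => d M.1) where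
  iso e := hd.iso ((RCen.forget P).mapIso e)
  add hS := hd.add (hS.map_of_exact (RCen.forget P))
  mul X Y := hd.mul X.1 Y.1
  pos {X} hX := hd.pos fun h => hX ((rc_isZero_iff P X).2 h)
  one := hd.one

end Pool.Agent.RC40
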