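import Pool.Agent.RC40.EO
import Pool.Agent.RC40.ADJ
import Pool.Agent.RC40.UF
import Pool.Agent.RC40.SURJ
import Pool.Agent.RC40.TRF
import Pool.Agent.MUG.CFN

/-!
# FGC of the relative center (MP_388894, row FGR, helper45)
-/

open CategoryTheory MonoidalCategory Limits Abelian

universe w w' v u

set_option backward.isDefEq.respectTransparency.types false
set_option linter.unusedSectionVars false

noncomputable section

namespace Pool.Agent.RC40

open Pool.Agent.MUG Pool.Agent.NDC

variable {k : Type*} [Field k] {C : Type u} [Category.{v} C] [Abelian C]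
  [Linear k C] [MonoidalCategory C] [MonoidalPreadditive C] [MonoidalLinear k C]
  [RigidCategory C] (P : ObjectProperty C) [hP : TensorSub P]

/-- FGC of the relative center, given its finiteness. -/
theorem fgc_rcen_of [IsAlgClosed k] [BraidedCategory C] [HasExt.{w} (Center C)]
    [HasExt.{w'} (RCen P)] (hC : IsFinite k C) (hR : IsFinite k (RCen P))
    (hF : FGC.{w} k (Center C)) :
    FGC.{w'} k (RCen P) := by
  have hZ : IsFinite k (Center C) := center_isFinite_gen hC
  obtain ⟨d, hd⟩ := exists_dimFun hC
  have hproj : ∀ Q : Center C, Projective Q → Projective ((RCen.ofCenter P).obj Q) :=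
    fun Q hQ => map_projective_of_surj (k := k) hZ hR (RCen.ofCenter P) (rc_dimFun P hd)
      (fun M => rc_subquotient (k := k) P hC M) hQ
  exact fgc_of_map_projective.{w, w'} (k := k) hZ hR (RCen.ofCenter P)
    (isLeftAdjoint_of_exact (k := k) hZ.finCat hR.hom_finite (RCen.ofCenter P)) hproj hF

end Pool.Agent.RC40
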