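import Pool.Agent.RC40.Def

/-!
# Row IR, part 1 (helper31): the objects `((X, c), h⁻¹)` of the center of the relative center
-/

open CategoryTheory MonoidalCategory

universe v u

noncomputable section

namespace Pool.Agent.RC40

set_option backward.isDefEq.respectTransparency.types false
set_option linter.unusedSectionVars false

variable {C : Type u} [Category.{v} C] [MonoidalCategory C]

/-- The half-braiding with the unit object. -/
theorem ir_unit {P : ObjectProperty C} [P.IsMonoidal] (V : RCen P) (h : P (𝟙_ C)) :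
    (V.2.β (𝟙_ C) h).hom = (ρ_ V.1).hom ≫ (λ_ V.1).inv := by
  have hh : P (𝟙_ C ⊗ 𝟙_ C) := ObjectProperty.prop_tensor h h
  have h1 := V.2.naturality hh h (λ_ (𝟙_ C)).hom
  rw [V.2.monoidal _ _ h h hh] at h1
  have h2 : V.1 ◁ (λ_ (𝟙_ C)).hom = (α_ V.1 (𝟙_ C) (𝟙_ C)).inv ≫ (ρ_ V.1).hom ▷ 𝟙_ C :=
    (triangle_assoc_comp_right V.1 (𝟙_ C)).symm
  have h3 : (α_ (𝟙_ C) V.1 (𝟙_ C)).hom ≫ 𝟙_ C ◁ (V.2.β (𝟙_ C) h).hom ≫
      (α_ (𝟙_ C) (𝟙_ C) V.1).inv ≫ (λ_ (𝟙_ C)).hom ▷ V.1 =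
      (λ_ V.1).hom ▷ 𝟙_ C ≫ (V.2.β (𝟙_ C) h).hom := by
    monoidal
  simp only [Category.assoc] at h1
  rw [h3, h2, Category.assoc] at h1
  have h4 := (cancel_epi _).1 h1
  rw [← Category.assoc, cancel_mono, ← MonoidalCategory.comp_whiskerRight] at h4
  have h5 : (ρ_ V.1).hom = (V.2.β (𝟙_ C) h).hom ≫ (λ_ V.1).hom := by
    have h6 := congrArg (fun x => (ρ_ _).inv ≫ x ≫ (ρ_ _).hom) h4
    simpa using h6
  rw [h5, Category.assoc, Iso.hom_inv_id, Category.comp_id]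

theorem ir_unit_inv {P : ObjectProperty C} [P.IsMonoidal] (V : RCen P) (h : P (𝟙_ C)) :
    (V.2.β (𝟙_ C) h).inv = (λ_ V.1).hom ≫ (ρ_ V.1).inv := by
  rw [← cancel_epi (V.2.β (𝟙_ C) h).hom, Iso.hom_inv_id, ir_unit]
  simp

theorem ir_comm_inv {A B U : C} (e : A ≅ B) (S : B ⊗ U ⟶ U ⊗ B) (T : A ⊗ U ⟶ U ⊗ A)
    (h : e.hom ▷ U ≫ S = T ≫ U ◁ e.hom) : e.inv ▷ U ≫ T = S ≫ U ◁ e.inv := by
  rw [← cancel_epi (e.hom ▷ U), ← Category.assoc, ← MonoidalCategory.comp_whiskerRight,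
    Iso.hom_inv_id, MonoidalCategory.id_whiskerRight, Category.id_comp, ← Category.assoc, h,
    Category.assoc, ← MonoidalCategory.whiskerLeft_comp, Iso.hom_inv_id,
    MonoidalCategory.whiskerLeft_id, Category.comp_id]

section NB

variable (P : ObjectProperty C) [P.IsMonoidal]

theorem ir_tensor_inv (V : RCen P) {X Y : C} (hX : P X) (hY : P Y) (h : P (X ⊗ Y)) :
    (V.2.β (X ⊗ Y) h).inv = (α_ X Y V.1).hom ≫ X ◁ (V.2.β Y hY).inv ≫ (α_ X V.1 Y).inv ≫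
      (V.2.β X hX).inv ▷ Y ≫ (α_ V.1 X Y).hom := by
  rw [← cancel_epi (V.2.β (X ⊗ Y) h).hom, Iso.hom_inv_id, V.2.monoidal X Y hX hY h]
  simp

theorem ir_obj_tensor_inv (V V' : RCen P) {X : C} (hX : P X) :
    ((V ⊗ V').2.β X hX).inv = (α_ X V.1 V'.1).inv ≫ (V.2.β X hX).inv ▷ V'.1 ≫
      (α_ V.1 X V'.1).hom ≫ V.1 ◁ (V'.2.β X hX).inv ≫ (α_ V.1 V'.1 X).inv := by
  rw [← cancel_epi ((V ⊗ V').2.β X hX).hom, Iso.hom_inv_id, RCen.tensor_β]
  simp

theorem cen_unit_β (V : RCen P) :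
    (((𝟙_ (Center (RCen P))).2.β V).hom).f = (λ_ V.1).hom ≫ (ρ_ V.1).inv := by
  rw [← RCen.rightUnitor_inv_f]
  rfl

theorem cen_tensor_β (X Y : Center (RCen P)) (V : RCen P) :
    (((X ⊗ Y).2.β V).hom).f = (α_ X.1.1 Y.1.1 V.1).hom ≫ X.1.1 ◁ ((Y.2.β V).hom).f ≫
      (α_ X.1.1 V.1 Y.1.1).inv ≫ ((X.2.β V).hom).f ▷ Y.1.1 ≫ (α_ V.1 X.1.1 Y.1.1).hom := by
  rw [← RCen.associator_inv_f]
  rfl

end NB

variable [BraidedCategory C] (P : ObjectProperty C) [P.IsMonoidal]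

/-- The object `X` with the braiding of `C`. -/
def irObj (X : C) : RCen P := (RCen.ofCenter P).obj (Center.ofBraidedObj X)

theorem irObj_β (X U : C) (hU : P U) : (irObj P X).2.β U hU = β_ X U := rfl

theorem ir_comm (V : RCen P) {X : C} (hX : P X) (U : C) (hU : P U) :
    (V.2.β X hX).hom ▷ U ≫ ((irObj P X ⊗ V).2.β U hU).hom =
      ((V ⊗ irObj P X).2.β U hU).hom ≫ U ◁ (V.2.β X hX).hom := by
  have h1 : P (X ⊗ U) := ObjectProperty.prop_tensor hX hU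
  have h2 : P (U ⊗ X) := ObjectProperty.prop_tensor hU hX
  have h3 := V.2.monoidal X U hX hU h1
  have h4 := V.2.monoidal U X hU hX h2
  have h5 := V.2.naturality h1 h2 (β_ X U).hom
  rw [RCen.tensor_β, RCen.tensor_β, irObj_β]
  change (V.2.β X hX).hom ▷ U ≫ (α_ X V.1 U).hom ≫ X ◁ (V.2.β U hU).hom ≫
      (α_ X U V.1).inv ≫ (β_ X U).hom ▷ V.1 ≫ (α_ U X V.1).hom =
    ((α_ V.1 X U).hom ≫ V.1 ◁ (β_ X U).hom ≫ (α_ V.1 U X).inv ≫ (V.2.β U hU).hom ▷ X ≫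
      (α_ U V.1 X).hom) ≫ U ◁ (V.2.β X hX).hom
  have h6 : (V.2.β X hX).hom ▷ U ≫ (α_ X V.1 U).hom ≫ X ◁ (V.2.β U hU).hom ≫
      (α_ X U V.1).inv = (α_ V.1 X U).hom ≫ (V.2.β (X ⊗ U) h1).hom := by
    rw [h3]
    simp
  have h7 : (V.2.β (U ⊗ X) h2).hom ≫ (α_ U X V.1).hom = (α_ V.1 U X).inv ≫
      (V.2.β U hU).hom ▷ X ≫ (α_ U V.1 X).hom ≫ U ◁ (V.2.β X hX).hom := by
    rw [h4]
    simp
  have h8 := congrArg (fun x => x ≫ (β_ X U).hom ▷ V.1 ≫ (α_ U X V.1).hom) h6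
  simp only [Category.assoc] at h8 ⊢
  rw [h8, ← h7, ← Category.assoc ((V.2.β (X ⊗ U) h1).hom), ← h5, Category.assoc]

/-- The braiding of `V` with `irObj X`. -/
def irIso (V : RCen P) {X : C} (hX : P X) : V ⊗ irObj P X ≅ irObj P X ⊗ V where
  hom := ⟨(V.2.β X hX).hom, ir_comm P V hX⟩
  inv := ⟨(V.2.β X hX).inv, fun U hU => ir_comm_inv (V.2.β X hX) _ _ (ir_comm P V hX U hU)⟩
  hom_inv_id := RCen.ext _ _ (V.2.β X hX).hom_inv_id
  inv_hom_id := RCen.ext _ _ (V.2.β X hX).inv_hom_id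

/-- The half-braiding of `irObj X` in the relative center. -/
def irHB {X : C} (hX : P X) : HalfBraiding (irObj P X) where
  β V := (irIso P V hX).symm
  monoidal V V' := by
    refine RCen.ext _ _ ?_
    rw [RCen.comp_f, RCen.comp_f, RCen.comp_f, RCen.comp_f, RCen.associator_inv_f,
      RCen.associator_inv_f]
    exact ir_obj_tensor_inv P V V' hX
  naturality {V V'} f := by
    refine RCen.ext _ _ ?_
    change X ◁ f.f ≫ (V'.2.β X hX).inv = (V.2.β X hX).inv ≫ f.f ▷ X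
    rw [← cancel_epi (V.2.β X hX).hom, Iso.hom_inv_id_assoc, ← Category.assoc, ← f.comm X hX,
      Category.assoc, Iso.hom_inv_id, Category.comp_id]

/-- The object `((X, c), h⁻¹)`. -/
def irCen {X : C} (hX : P X) : Center (RCen P) := ⟨irObj P X, irHB P hX⟩

theorem irCen_β {X : C} (hX : P X) (V : RCen P) :
    ((irCen P hX).2.β V).hom.f = (V.2.β X hX).inv := rfl

theorem irCen_fst {X : C} (hX : P X) : (irCen P hX).1.1 = X := rfl

/-- The functor to the center of the relative center. -/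
def irFun : P.FullSubcategory ⥤ Center (RCen P) where
  obj X := irCen P X.property
  map {X Y} f := ⟨⟨f.hom, fun U _ => BraidedCategory.braiding_naturality_left f.hom U⟩,
    fun V => RCen.ext _ _ (by
      change f.hom ▷ V.1 ≫ (V.2.β Y.obj Y.property).inv =
        (V.2.β X.obj X.property).inv ≫ V.1 ◁ f.hom
      rw [← cancel_mono (V.2.β Y.obj Y.property).hom, Category.assoc, Iso.inv_hom_id,
        Category.comp_id, Category.assoc, V.2.naturality X.property Y.property,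
        Iso.inv_hom_id_assoc])⟩
  map_id _ := rfl
  map_comp _ _ := rfl

theorem irFun_map_f {X Y : P.FullSubcategory} (f : X ⟶ Y) : ((irFun P).map f).f.f = f.hom := rfl

theorem irFun_β (X : P.FullSubcategory) (V : RCen P) :
    ((((irFun P).obj X).2.β V).hom).f = (V.2.β X.obj X.property).inv := rfl

theorem ir_id_comm {A U : C} {b b' : A ⊗ U ⟶ U ⊗ A} (h : b = b') :
    𝟙 A ▷ U ≫ b = b' ≫ U ◁ 𝟙 A := by
  rw [h]
  simp

theorem ir_unit_l2 (V : RCen P) : ((((irFun P).obj (𝟙_ P.FullSubcategory)).2.β V).hom).f =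
    (((𝟙_ (Center (RCen P))).2.β V).hom).f := by
  rw [irFun_β, cen_unit_β]
  exact ir_unit_inv V _

theorem ir_unit_l1 (U : C) (hU : P U) :
    (((irFun P).obj (𝟙_ P.FullSubcategory)).1.2.β U hU).hom =
    ((𝟙_ (Center (RCen P))).1.2.β U hU).hom := by
  change (β_ (𝟙_ C) U).hom = (λ_ U).hom ≫ (ρ_ U).inv
  simp

/-- The unit isomorphism. -/
def irUnit : 𝟙_ (Center (RCen P)) ≅ (irFun P).obj (𝟙_ P.FullSubcategory) where
  hom := ⟨⟨𝟙 _, fun U hU => ir_id_comm (ir_unit_l1 P U hU)⟩,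
    fun V => RCen.ext _ _ (ir_id_comm (ir_unit_l2 P V))⟩
  inv := ⟨⟨𝟙 _, fun U hU => ir_id_comm (ir_unit_l1 P U hU).symm⟩,
    fun V => RCen.ext _ _ (ir_id_comm (ir_unit_l2 P V).symm)⟩
  hom_inv_id := Center.ext _ _ (RCen.ext _ _ (Category.id_comp _))
  inv_hom_id := Center.ext _ _ (RCen.ext _ _ (Category.id_comp _))

theorem ir_tensor_l1 (X Y : P.FullSubcategory) (U : C) (hU : P U) :
    (((irFun P).obj (X ⊗ Y)).1.2.β U hU).hom =
    (((irFun P).obj X ⊗ (irFun P).obj Y).1.2.β U hU).hom := by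
  change (β_ (X.obj ⊗ Y.obj) U).hom = (α_ X.obj Y.obj U).hom ≫ X.obj ◁ (β_ Y.obj U).hom ≫
    (α_ X.obj U Y.obj).inv ≫ (β_ X.obj U).hom ▷ Y.obj ≫ (α_ U X.obj Y.obj).hom
  simp

theorem ir_tensor_l2 (X Y : P.FullSubcategory) (V : RCen P) :
    ((((irFun P).obj (X ⊗ Y)).2.β V).hom).f =
    ((((irFun P).obj X ⊗ (irFun P).obj Y).2.β V).hom).f := by
  rw [irFun_β, cen_tensor_β, irFun_β, irFun_β]
  exact ir_tensor_inv P V X.property Y.property _

/-- The tensor isomorphism. -/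
def irTensor (X Y : P.FullSubcategory) :
    (irFun P).obj X ⊗ (irFun P).obj Y ≅ (irFun P).obj (X ⊗ Y) where
  hom := ⟨⟨𝟙 _, fun U hU => ir_id_comm (ir_tensor_l1 P X Y U hU)⟩,
    fun V => RCen.ext _ _ (ir_id_comm (ir_tensor_l2 P X Y V))⟩
  inv := ⟨⟨𝟙 _, fun U hU => ir_id_comm (ir_tensor_l1 P X Y U hU).symm⟩,
    fun V => RCen.ext _ _ (ir_id_comm (ir_tensor_l2 P X Y V).symm)⟩
  hom_inv_id := Center.ext _ _ (RCen.ext _ _ (Category.id_comp _))
  inv_hom_id := Center.ext _ _ (RCen.ext _ _ (Category.id_comp _))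

instance irFunMonoidal : (irFun P).Monoidal :=
  Functor.CoreMonoidal.toMonoidal
    { εIso := irUnit P
      μIso := irTensor P
      μIso_hom_natural_left := fun {X Y} f Z => by
        refine Center.ext _ _ (RCen.ext _ _ ?_)
        change f.hom ▷ Z.obj ≫ 𝟙 _ = 𝟙 _ ≫ f.hom ▷ Z.obj
        simp
      μIso_hom_natural_right := fun {X Y} Z f => by
        refine Center.ext _ _ (RCen.ext _ _ ?_)
        change Z.obj ◁ f.hom ≫ 𝟙 _ = 𝟙 _ ≫ Z.obj ◁ f.hom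
        simp
      associativity := fun X Y Z => by
        refine Center.ext _ _ (RCen.ext _ _ ?_)
        change (𝟙 _ ▷ Z.obj) ≫ 𝟙 _ ≫ (α_ X.obj Y.obj Z.obj).hom =
          (α_ X.obj Y.obj Z.obj).hom ≫ X.obj ◁ 𝟙 _ ≫ 𝟙 _
        simp
      left_unitality := fun X => by
        refine Center.ext _ _ (RCen.ext _ _ ?_)
        change (λ_ X.obj).hom = (𝟙 _ ▷ X.obj) ≫ 𝟙 _ ≫ (λ_ X.obj).hom
        simp
      right_unitality := fun X => by
        refine Center.ext _ _ (RCen.ext _ _ ?_)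
        change (ρ_ X.obj).hom = (X.obj ◁ 𝟙 _) ≫ 𝟙 _ ≫ (ρ_ X.obj).hom
        simp }

end Pool.Agent.RC40
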