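import Pool.Agent.MUG.Conv

/-!
# FGC passes to retracts (MP_388894, row RET, helper64)
-/

open CategoryTheory MonoidalCategory Limits Abelian

universe w w' v v' u u'

set_option linter.unusedSectionVars false

namespace Pool.Agent.RC40

open Pool.Agent.MUG Pool.Agent.MUG.Tr

section ret

variable {k : Type*} [Field k]
  {P : Type u} [Category.{v} P] [Abelian P] [Linear k P] [MonoidalCategory P]
  [MonoidalPreadditive P] [MonoidalLinear k P] [RigidCategory P] [HasExt.{w} P]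
  [EnoughProjectives P]
  {D : Type u'} [Category.{v'} D] [Abelian D] [Linear k D] [MonoidalCategory D]
  [MonoidalPreadditive D] [MonoidalLinear k D] [RigidCategory D] [HasExt.{w'} D]
  [EnoughProjectives D]
  (i : P ⥤ D) [i.Additive] [PreservesFiniteLimits i] [PreservesFiniteColimits i]
  (r : D ⥤ P) [r.Additive] [PreservesFiniteLimits r] [PreservesFiniteColimits r]
  (e : i ⋙ r ≅ 𝟭 P)

/-- the retraction on `Ext` -/
noncomputable def ret {X Y : P} {n : ℕ} (γ : Ext.{w'} (i.obj X) (i.obj Y) n) :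
    Ext.{w} X Y n :=
  pre (Y := r.obj (i.obj X)) (e.inv.app X)
    (post (Y := r.obj (i.obj Y)) (γ.mapExactFunctor r) (e.hom.app Y))

theorem ret_map {X Y : P} {n : ℕ} (β : Ext.{w} X Y n) :
    ret i r e (β.mapExactFunctor i : Ext.{w'} (i.obj X) (i.obj Y) n) = β := by
  have h1 : post (β.mapExactFunctor (i ⋙ r) : Ext.{w} _ _ n) (e.hom.app Y) =
      pre (e.hom.app X) β := by
    have h2 := nat' (F := i ⋙ r) (G := 𝟭 P) e.hom β
    rw [h2]
    exact congrArg (fun z => pre (e.hom.app X) z) (MUE79.map_id β)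
  have h3 : ((β.mapExactFunctor i : Ext.{w'} (i.obj X) (i.obj Y) n).mapExactFunctor r :
      Ext.{w} _ _ n) = β.mapExactFunctor (i ⋙ r) := (MUE79.map_comp i r β).symm
  unfold ret
  rw [h3]
  change pre (e.inv.app X) (post (β.mapExactFunctor (i ⋙ r) : Ext.{w} _ _ n) (e.hom.app Y)) = β
  rw [h1, pre_pre, Iso.inv_hom_id_app]
  exact pre_id β

/-- the retraction as a linear map -/
noncomputable def retL (k : Type*) [Field k] [Linear k P] [Linear k D] [r.Linear k]
    (X Y : P) (n : ℕ) :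
    Ext.{w'} (i.obj X) (i.obj Y) n →ₗ[k] Ext.{w} X Y n where
  toFun γ := ret i r e γ
  map_add' β γ := by
    unfold ret pre post
    rw [Ext.mapExactFunctor_add, Ext.add_comp, Ext.comp_add]
  map_smul' c β := by
    unfold ret pre post
    rw [Functor.mapExactFunctor_smul, Ext.smul_comp, Ext.comp_smul]
    rfl

theorem ret_act [r.Monoidal] {X Y : P} {m n c : ℕ} (h : m + n = c)
    (ζ : Ext.{w'} (𝟙_ D) (𝟙_ D) m) (γ : Ext.{w'} (i.obj X) (i.obj Y) n) :
    ret i r e ((act (i.obj X) ζ).comp γ h) =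
      (act X (hat r ζ : Ext.{w} (𝟙_ P) (𝟙_ P) m)).comp (ret i r e γ) h := by
  unfold ret
  rw [Ext.mapExactFunctor_comp, map_act']
  have h1 : post (((act (r.obj (i.obj X)) (hat r ζ : Ext.{w} (𝟙_ P) (𝟙_ P) m)).comp
      (γ.mapExactFunctor r) h : Ext.{w} (r.obj (i.obj X)) (r.obj (i.obj Y)) c))
        (e.hom.app Y) =
      (act (r.obj (i.obj X)) (hat r ζ : Ext.{w} (𝟙_ P) (𝟙_ P) m)).comp
        (post (Y := r.obj (i.obj Y)) (γ.mapExactFunctor r) (e.hom.app Y)) h :=
    comp_post (Y := r.obj (i.obj X)) (Z := r.obj (i.obj Y)) _ _ (e.hom.app Y) h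
  rw [h1, pre_comp (Y := r.obj (i.obj X))]
  have h2 : pre (Y := r.obj (i.obj X)) (e.inv.app X)
      (act (r.obj (i.obj X)) (hat r ζ : Ext.{w} (𝟙_ P) (𝟙_ P) m)) =
      post (act X (hat r ζ : Ext.{w} (𝟙_ P) (𝟙_ P) m)) (e.inv.app X) := by
    have h3 := act_central (Ext.mk₀ (e.inv.app X) : Ext.{w} X (r.obj (i.obj X)) 0)
      (hat r ζ : Ext.{w} (𝟙_ P) (𝟙_ P) m) (add_zero m) (zero_add m)
    rw [zero_mul, pow_zero, one_smul] at h3
    exact h3.symm
  rw [h2, post_comp]

theorem hat_hat [i.Monoidal] [r.Monoidal]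
    (he : e.hom.app (𝟙_ P) = r.map (Functor.OplaxMonoidal.η i) ≫ Functor.OplaxMonoidal.η r)
    {n : ℕ} (z : Ext.{w} (𝟙_ P) (𝟙_ P) n) :
    (hat r (hat i z : Ext.{w'} (𝟙_ D) (𝟙_ D) n) : Ext.{w} (𝟙_ P) (𝟙_ P) n) = z := by
  have h1 : e.inv.app (𝟙_ P) = Functor.LaxMonoidal.ε r ≫ r.map (Functor.LaxMonoidal.ε i) := by
    rw [← cancel_mono (e.hom.app (𝟙_ P)), Iso.inv_hom_id_app, he, Category.assoc,
      ← r.map_comp_assoc, Functor.Monoidal.ε_η, r.map_id, Category.id_comp,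
      Functor.Monoidal.ε_η]
    rfl
  have h2 := ret_map i r e z
  unfold ret at h2
  rw [h1, he] at h2
  conv_rhs => rw [← h2]
  unfold hat
  rw [map_pre, map_post, ← pre_pre, ← post_post, ← pre_post]

include e in
/-- **FGC passes to retracts.** -/
theorem fgc_retract [i.Monoidal] [r.Monoidal] [r.Linear k]
    (he : e.hom.app (𝟙_ P) = r.map (Functor.OplaxMonoidal.η i) ≫ Functor.OplaxMonoidal.η r)
    (hF : FGC.{w'} k D) : FGC.{w} k P := by
  constructor
  · obtain ⟨s, d, x, hx⟩ := hF.alg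
    refine ⟨s, d, fun j => hat r (x j), ?_⟩
    intro B h1 h2 h3 n
    have h4 := hx (fun n => (B n).comap (hatL (k := k) r n)) ?_ ?_ ?_ n
    · refine eq_top_iff.2 fun z _ => ?_
      have h5 : (hat i z : Ext.{w'} (𝟙_ D) (𝟙_ D) n) ∈ (B n).comap (hatL (k := k) r n) := by
        rw [h4]; trivial
      have h6 : hat r (hat i z : Ext.{w'} (𝟙_ D) (𝟙_ D) n) ∈ B n := h5
      rwa [hat_hat i r e he] at h6
    · change hat r _ ∈ B 0
      rw [hat_one]
      exact h1
    · exact fun j => h2 j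
    · intro m n a b ha hb'
      change hat r _ ∈ B (m + n)
      rw [hat_comp]
      exact h3 m n _ _ ha hb'
  · intro X Y
    obtain ⟨s, d, y, hy⟩ := hF.mod (i.obj X) (i.obj Y)
    refine ⟨s, d, fun j => ret i r e (y j), ?_⟩
    intro B h2 h3 n
    have h4 := hy (fun n => (B n).comap (retL i r e k X Y n)) ?_ ?_ n
    · refine eq_top_iff.2 fun z _ => ?_
      have h5 : (z.mapExactFunctor i : Ext.{w'} _ _ n) ∈ (B n).comap (retL i r e k X Y n) := by
        rw [h4]; trivial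
      have h6 : ret i r e (z.mapExactFunctor i : Ext.{w'} _ _ n) ∈ B n := h5
      rwa [ret_map] at h6
    · exact fun j => h2 j
    · intro m n ζ b hb'
      change ret i r e _ ∈ B (m + n)
      rw [ret_act]
      exact h3 m n _ _ hb'

end ret

section final

variable {k : Type*} [Field k] {X : Type u} [Category.{v} X] [Abelian X] [Linear k X]
  [MonoidalCategory X] [MonoidalPreadditive X] [MonoidalLinear k X] [RigidCategory X]
  {R : Type u'} [Category.{v'} R] [Abelian R] [Linear k R]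
  [MonoidalCategory R] [MonoidalPreadditive R] [MonoidalLinear k R] [RigidCategory R]

/-- Row RET (file RC40/RET.lean). -/
theorem fgc_of_retract [HasExt.{w} X] [HasExt.{w'} R] [EnoughProjectives X]
    [EnoughProjectives R] (i : R ⥤ X) (r : X ⥤ R)
    [i.Additive] [i.Linear k] [i.Monoidal] [PreservesFiniteLimits i] [PreservesFiniteColimits i]
    [r.Additive] [r.Linear k] [r.Monoidal] [PreservesFiniteLimits r] [PreservesFiniteColimits r]
    (e : i ⋙ r ≅ 𝟭 R) [NatTrans.IsMonoidal e.hom] (hF : FGC.{w} k X) : FGC.{w'} k R := by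
  refine fgc_retract i r e ?_ hF
  have h1 : Functor.LaxMonoidal.ε (i ⋙ r) ≫ e.hom.app (𝟙_ R) = Functor.LaxMonoidal.ε (𝟭 R) :=
    NatTrans.IsMonoidal.unit
  have h2 : (Functor.LaxMonoidal.ε r ≫ r.map (Functor.LaxMonoidal.ε i)) ≫ e.hom.app (𝟙_ R) =
      𝟙 (𝟙_ R) := h1
  have h3 : (r.map (Functor.OplaxMonoidal.η i) ≫ Functor.OplaxMonoidal.η r) ≫
      (Functor.LaxMonoidal.ε r ≫ r.map (Functor.LaxMonoidal.ε i)) = 𝟙 _ := by
    rw [Category.assoc, Functor.Monoidal.η_ε_assoc, ← r.map_comp, Functor.Monoidal.η_ε,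
      r.map_id]
  calc e.hom.app (𝟙_ R) = 𝟙 _ ≫ e.hom.app (𝟙_ R) := (Category.id_comp _).symm
    _ = ((r.map (Functor.OplaxMonoidal.η i) ≫ Functor.OplaxMonoidal.η r) ≫
      (Functor.LaxMonoidal.ε r ≫ r.map (Functor.LaxMonoidal.ε i))) ≫ e.hom.app (𝟙_ R) := by
        rw [h3]; rfl
    _ = (r.map (Functor.OplaxMonoidal.η i) ≫ Functor.OplaxMonoidal.η r) ≫ 𝟙 (𝟙_ R) := by
        rw [Category.assoc, h2]
    _ = _ := Category.comp_id _

end final

end Pool.Agent.RC40
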