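import Pool.Agent.RC40.IRa
import Pool.Agent.RC40.AB
import Pool.Agent.RC40.RIG
import Pool.Agent.RC40.RET
import Pool.Agent.MUG.FG
import Pool.Agent.MUG.C4
import Pool.Agent.MUG.CenRig

/-!
# Row IR, part 2 (helper31): FGC of a tensor subcategory of the center of the relative center
which contains the objects `((X, c), h⁻¹)`, `X ∈ P`
-/

open CategoryTheory MonoidalCategory Limits Abelian

universe w v u

set_option backward.isDefEq.respectTransparency.types false
set_option linter.unusedSectionVars false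

noncomputable section

namespace Pool.Agent.RC40

open Pool.Agent.MUG

section

variable {k : Type*} [Field k] {C : Type u} [Category.{v} C] [Abelian C] [Linear k C]
  [MonoidalCategory C] [MonoidalPreadditive C] [MonoidalLinear k C] [RigidCategory C]
  [BraidedCategory C] (P : ObjectProperty C) [hP : TensorSub P]
  (D : ObjectProperty (Center (RCen P))) [hD : TensorSub D]

/-- The forgetful functor. -/
def irForget : D.FullSubcategory ⥤ C := D.ι ⋙ Center.forget (RCen P) ⋙ RCen.forget P

instance irForgetPFL : PreservesFiniteLimits (irForget P D) := by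
  have h1 : PreservesFiniteLimits (Center.forget (RCen P) ⋙ RCen.forget P) :=
    comp_preservesFiniteLimits _ _
  exact comp_preservesFiniteLimits _ _

instance irForgetPFC : PreservesFiniteColimits (irForget P D) := by
  have h1 : PreservesFiniteColimits (Center.forget (RCen P) ⋙ RCen.forget P) :=
    comp_preservesFiniteColimits _ _
  exact comp_preservesFiniteColimits _ _

instance irForgetRefl : (irForget P D).ReflectsIsomorphisms := by
  have h1 : (Center.forget (RCen P) ⋙ RCen.forget P).ReflectsIsomorphisms := inferInstance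
  exact inferInstanceAs ((D.ι ⋙ (Center.forget (RCen P) ⋙ RCen.forget P)).ReflectsIsomorphisms)

variable {D}

/-- The embedding. -/
def irI (h1 : ∀ (X : C) (hX : P X), D (irCen P hX)) : P.FullSubcategory ⥤ D.FullSubcategory :=
  D.lift (irFun P) (fun X => h1 X.obj X.property)

/-- The retraction. -/
def irR (h2 : ∀ N : Center (RCen P), D N → P N.1.1) : D.FullSubcategory ⥤ P.FullSubcategory :=
  P.lift (irForget P D) (fun N => h2 N.obj N.property)

section I

variable (h1 : ∀ (X : C) (hX : P X), D (irCen P hX))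

instance irIAdd : (irI P h1).Additive where
  map_add {X Y f g} := by
    refine ObjectProperty.hom_ext _ (Center.ext _ _ (RCen.ext _ _ ?_))
    rfl

instance irILin : (irI P h1).Linear k where
  map_smul {X Y} f c := by
    refine ObjectProperty.hom_ext _ (Center.ext _ _ (RCen.ext _ _ ?_))
    rfl

instance irIPFL : PreservesFiniteLimits (irI P h1) := by
  have h3 : PreservesFiniteLimits (irI P h1 ⋙ irForget P D) :=
    inferInstanceAs (PreservesFiniteLimits P.ι)
  have h4 : ReflectsFiniteLimits (irForget P D) :=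
    reflectsFiniteLimits_of_reflectsIsomorphisms _
  exact preservesFiniteLimits_of_reflects_of_preserves (irI P h1) (irForget P D)

instance irIPFC : PreservesFiniteColimits (irI P h1) := by
  have h3 : PreservesFiniteColimits (irI P h1 ⋙ irForget P D) :=
    inferInstanceAs (PreservesFiniteColimits P.ι)
  have h4 : ReflectsFiniteColimits (irForget P D) :=
    { reflects := fun _ _ _ => reflectsColimitsOfShape_of_reflectsIsomorphisms }
  exact preservesFiniteColimits_of_reflects_of_preserves (irI P h1) (irForget P D)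

instance irIMonoidal : (irI P h1).Monoidal :=
  Functor.CoreMonoidal.toMonoidal
    { εIso := D.isoMk (irUnit P)
      μIso := fun X Y => D.isoMk (irTensor P X Y)
      μIso_hom_natural_left := fun {X Y} f Z => by
        refine ObjectProperty.hom_ext _ (Center.ext _ _ (RCen.ext _ _ ?_))
        change f.hom ▷ Z.obj ≫ 𝟙 _ = 𝟙 _ ≫ f.hom ▷ Z.obj
        simp
      μIso_hom_natural_right := fun {X Y} Z f => by
        refine ObjectProperty.hom_ext _ (Center.ext _ _ (RCen.ext _ _ ?_))
        change Z.obj ◁ f.hom ≫ 𝟙 _ = 𝟙 _ ≫ Z.obj ◁ f.hom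
        simp
      associativity := fun X Y Z => by
        refine ObjectProperty.hom_ext _ (Center.ext _ _ (RCen.ext _ _ ?_))
        change (𝟙 _ ▷ Z.obj) ≫ 𝟙 _ ≫ (α_ X.obj Y.obj Z.obj).hom =
          (α_ X.obj Y.obj Z.obj).hom ≫ X.obj ◁ 𝟙 _ ≫ 𝟙 _
        simp
      left_unitality := fun X => by
        refine ObjectProperty.hom_ext _ (Center.ext _ _ (RCen.ext _ _ ?_))
        change (λ_ X.obj).hom = (𝟙 _ ▷ X.obj) ≫ 𝟙 _ ≫ (λ_ X.obj).hom
        simp
      right_unitality := fun X => by
        refine ObjectProperty.hom_ext _ (Center.ext _ _ (RCen.ext _ _ ?_))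
        change (ρ_ X.obj).hom = (X.obj ◁ 𝟙 _) ≫ 𝟙 _ ≫ (ρ_ X.obj).hom
        simp }

end I

section R

variable (h2 : ∀ N : Center (RCen P), D N → P N.1.1)

instance irRAdd : (irR P h2).Additive where
  map_add {X Y f g} := by
    refine ObjectProperty.hom_ext _ ?_
    rfl

instance irRLin : (irR P h2).Linear k where
  map_smul {X Y} f c := by
    refine ObjectProperty.hom_ext _ ?_
    rfl

instance irRPFL : PreservesFiniteLimits (irR P h2) := by
  have h3 : PreservesFiniteLimits (irR P h2 ⋙ P.ι) :=
    inferInstanceAs (PreservesFiniteLimits (irForget P D))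
  exact preservesFiniteLimits_of_reflects_of_preserves (irR P h2) P.ι

instance irRPFC : PreservesFiniteColimits (irR P h2) := by
  have h3 : PreservesFiniteColimits (irR P h2 ⋙ P.ι) :=
    inferInstanceAs (PreservesFiniteColimits (irForget P D))
  exact preservesFiniteColimits_of_reflects_of_preserves (irR P h2) P.ι

instance irRMonoidal : (irR P h2).Monoidal :=
  Functor.CoreMonoidal.toMonoidal
    { εIso := P.isoMk (Iso.refl (𝟙_ C))
      μIso := fun X Y => P.isoMk (Iso.refl (X.obj.1.1 ⊗ Y.obj.1.1))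
      μIso_hom_natural_left := fun {X Y} f Z => by
        refine ObjectProperty.hom_ext _ ?_
        change f.hom.f.f ▷ Z.obj.1.1 ≫ 𝟙 _ = 𝟙 _ ≫ f.hom.f.f ▷ Z.obj.1.1
        simp
      μIso_hom_natural_right := fun {X Y} Z f => by
        refine ObjectProperty.hom_ext _ ?_
        change Z.obj.1.1 ◁ f.hom.f.f ≫ 𝟙 _ = 𝟙 _ ≫ Z.obj.1.1 ◁ f.hom.f.f
        simp
      associativity := fun X Y Z => by
        refine ObjectProperty.hom_ext _ ?_
        change (𝟙 _ ▷ Z.obj.1.1) ≫ 𝟙 _ ≫ (α_ X.obj.1.1 Y.obj.1.1 Z.obj.1.1).hom =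
          (α_ X.obj.1.1 Y.obj.1.1 Z.obj.1.1).hom ≫ X.obj.1.1 ◁ 𝟙 _ ≫ 𝟙 _
        simp
      left_unitality := fun X => by
        refine ObjectProperty.hom_ext _ ?_
        change (λ_ X.obj.1.1).hom = (𝟙 _ ▷ X.obj.1.1) ≫ 𝟙 _ ≫ (λ_ X.obj.1.1).hom
        simp
      right_unitality := fun X => by
        refine ObjectProperty.hom_ext _ ?_
        change (ρ_ X.obj.1.1).hom = (X.obj.1.1 ◁ 𝟙 _) ≫ 𝟙 _ ≫ (ρ_ X.obj.1.1).hom
        simp }

end R

/-- The isomorphism `r i ≅ id`. -/
def irE (h1 : ∀ (X : C) (hX : P X), D (irCen P hX))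
    (h2 : ∀ N : Center (RCen P), D N → P N.1.1) : irI P h1 ⋙ irR P h2 ≅ 𝟭 _ :=
  NatIso.ofComponents (fun X => P.isoMk (Iso.refl X.obj)) (fun {X Y} f => by
    refine ObjectProperty.hom_ext _ ?_
    change f.hom ≫ 𝟙 _ = 𝟙 _ ≫ f.hom
    simp)

/-- FGC of `P` from FGC of `D`. -/
theorem fg_of_sub (h1 : ∀ (X : C) (hX : P X), D (irCen P hX))
    (h2 : ∀ N : Center (RCen P), D N → P N.1.1) (hC : IsFinite k C)
    (hZ : IsFinite k (Center (RCen P))) (hF : FG k D hD) : FG k P hP := by
  have hE1 : EnoughProjectives P.FullSubcategory := (finite_sub hC P).enough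
  have hE2 : EnoughProjectives D.FullSubcategory := (finite_sub hZ D).enough
  have hX1 : HasExt.{max u v} P.FullSubcategory := HasExt.standard _
  have hX2 : HasExt.{max u v} D.FullSubcategory := HasExt.standard _
  refine fgc_retract (irI P h1) (irR P h2) (irE P h1 h2) ?_ hF
  refine ObjectProperty.hom_ext _ ?_
  change 𝟙 (𝟙_ C) = 𝟙 (𝟙_ C) ≫ 𝟙 (𝟙_ C)
  simp

end

end Pool.Agent.RC40
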