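import Pool.Agent.RC40.Def
import Mathlib.CategoryTheory.Monoidal.Braided.Basic

/-! # The embedding of the center of `P` in the center of the relative center
(row KF, first part, helper54) -/

open CategoryTheory MonoidalCategory

universe v u

set_option backward.isDefEq.respectTransparency.types false
set_option linter.unusedSectionVars false

noncomputable section

namespace Pool.Agent.RC40

variable {C : Type u} [Category.{v} C] [MonoidalCategory C] {P : ObjectProperty C}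
  [P.IsMonoidal]

/-- The half-braiding with the unit. -/
theorem kf_unit (V : RCen P) (h : P (𝟙_ C)) :
    (V.2.β (𝟙_ C) h).hom = (ρ_ V.1).hom ≫ (λ_ V.1).inv := by
  have h2 : P (𝟙_ C ⊗ 𝟙_ C) := ObjectProperty.prop_tensor h h
  have e1 := V.2.naturality h2 h (λ_ (𝟙_ C)).hom
  rw [V.2.monoidal _ _ h h h2] at e1
  have e2 : (ρ_ V.1).hom ▷ (𝟙_ C) ≫ (V.2.β (𝟙_ C) h).hom =
      ((V.2.β (𝟙_ C) h).hom ≫ (λ_ V.1).hom) ▷ (𝟙_ C) ≫ (V.2.β (𝟙_ C) h).hom := by
    rw [← cancel_epi (α_ V.1 (𝟙_ C) (𝟙_ C)).inv]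
    calc _ = V.1 ◁ (λ_ (𝟙_ C)).hom ≫ (V.2.β (𝟙_ C) h).hom := by
          rw [← Category.assoc]; congr 1; monoidal
      _ = _ := e1
      _ = (α_ _ _ _).inv ≫ ((V.2.β (𝟙_ C) h).hom ▷ (𝟙_ C)) ≫ (α_ _ _ _).hom ≫
          ((𝟙_ C) ◁ (V.2.β (𝟙_ C) h).hom) ≫ (λ_ _).hom := by monoidal
      _ = _ := by
          rw [leftUnitor_naturality]
          monoidal
  rw [cancel_mono] at e2
  have e3 : (ρ_ V.1).hom = (V.2.β (𝟙_ C) h).hom ≫ (λ_ V.1).hom := by
    exact (MonoidalCategory.whiskerRight_iff _ _).1 e2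
  rw [e3, Category.assoc, Iso.hom_inv_id, Category.comp_id]

theorem kf_unit_inv (V : RCen P) (h : P (𝟙_ C)) :
    (V.2.β (𝟙_ C) h).inv = (λ_ V.1).hom ≫ (ρ_ V.1).inv := by
  rw [← cancel_epi (V.2.β (𝟙_ C) h).hom, Iso.hom_inv_id, kf_unit]
  simp

theorem kf_inv_nat (V : RCen P) {U U' : C} (hU : P U) (hU' : P U') (f : U ⟶ U') :
    f ▷ V.1 ≫ (V.2.β U' hU').inv = (V.2.β U hU).inv ≫ V.1 ◁ f := by
  rw [← cancel_mono (V.2.β U' hU').hom, Category.assoc, Iso.inv_hom_id, Category.comp_id,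
    Category.assoc, V.2.naturality hU hU' f, Iso.inv_hom_id_assoc]

/-! ### From the center of `P` to the relative center -/

/-- The relative half-braiding of an object of the center of `P`. -/
def kHB (A : Center P.FullSubcategory) : RHB P A.1.obj where
  β U hU := P.ι.mapIso (A.2.β ⟨U, hU⟩)
  monoidal U U' hU hU' _ := congrArg (fun f => f.hom) (A.2.monoidal ⟨U, hU⟩ ⟨U', hU'⟩)
  naturality {U U'} hU hU' f := congrArg (fun f => f.hom)
    (A.2.naturality (ObjectProperty.homMk f : (⟨U, hU⟩ : P.FullSubcategory) ⟶ ⟨U', hU'⟩))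

/-- An object of the center of `P` as an object of the relative center. -/
def kObj (A : Center P.FullSubcategory) : RCen P := ⟨A.1.obj, kHB A⟩

@[simp] theorem kObj_fst (A : Center P.FullSubcategory) : (kObj A).1 = A.1.obj := rfl

theorem kObj_β (A : Center P.FullSubcategory) (U : C) (hU : P U) :
    ((kObj A).2.β U hU).hom = (A.2.β ⟨U, hU⟩).hom.hom := rfl

/-- A morphism of the center of `P` as a morphism of the relative center. -/
def kMap {A B : Center P.FullSubcategory} (f : A ⟶ B) : kObj A ⟶ kObj B where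
  f := f.f.hom
  comm U hU := congrArg (fun f => f.hom) (f.comm ⟨U, hU⟩)

/-- The half-braiding on an object of the relative center which lies in `P`. -/
def rHB (Y : RCen P) (h : P Y.1) : HalfBraiding (⟨Y.1, h⟩ : P.FullSubcategory) where
  β U := P.isoMk (Y.2.β U.obj U.property)
  monoidal U U' := by
    ext
    exact Y.2.monoidal U.obj U'.obj U.property U'.property _
  naturality {U U'} f := by
    ext
    exact Y.2.naturality U.property U'.property f.hom

/-- An object of the relative center which lies in `P` as an object of the center of `P`. -/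
def rObj (Y : RCen P) (h : P Y.1) : Center P.FullSubcategory := ⟨⟨Y.1, h⟩, rHB Y h⟩

theorem rObj_β (Y : RCen P) (h : P Y.1) (U : P.FullSubcategory) :
    ((rObj Y h).2.β U).hom.hom = (Y.2.β U.obj U.property).hom := rfl

theorem kObj_rObj (Y : RCen P) (h : P Y.1) : kObj (rObj Y h) = Y := rfl

/-! ### The inverse half-braiding -/

theorem inv_comm (Y : RCen P) (h : P Y.1) (V : RCen P) (U : C) (hU : P U) :
    (V.2.β Y.1 h).inv ▷ U ≫ ((V ⊗ Y).2.β U hU).hom =
      ((Y ⊗ V).2.β U hU).hom ≫ U ◁ (V.2.β Y.1 h).inv := by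
  rw [RCen.tensor_β, RCen.tensor_β]
  have hYU : P (Y.1 ⊗ U) := ObjectProperty.prop_tensor h hU
  have hUY : P (U ⊗ Y.1) := ObjectProperty.prop_tensor hU h
  have e1 := V.2.naturality hYU hUY (Y.2.β U hU).hom
  rw [V.2.monoidal _ _ h hU hYU, V.2.monoidal _ _ hU h hUY] at e1
  rw [← cancel_epi ((V.2.β Y.1 h).hom ▷ U), ← cancel_mono (U ◁ (V.2.β Y.1 h).hom)]
  have e2 : (V.2.β Y.1 h).hom ▷ U ≫ (V.2.β Y.1 h).inv ▷ U = 𝟙 _ := by
    rw [← MonoidalCategory.comp_whiskerRight, Iso.hom_inv_id, MonoidalCategory.id_whiskerRight]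
  have e3 : U ◁ (V.2.β Y.1 h).inv ≫ U ◁ (V.2.β Y.1 h).hom = 𝟙 _ := by
    rw [← MonoidalCategory.whiskerLeft_comp, Iso.inv_hom_id, MonoidalCategory.whiskerLeft_id]
  calc _ = ((V.2.β Y.1 h).hom ▷ U ≫ (V.2.β Y.1 h).inv ▷ U) ≫
        ((α_ _ _ _).hom ≫ V.1 ◁ (Y.2.β U hU).hom ≫ (α_ _ _ _).inv ≫
          (V.2.β U hU).hom ▷ Y.1 ≫ (α_ _ _ _).hom) ≫ U ◁ (V.2.β Y.1 h).hom := by
        simp only [Category.assoc]
    _ = (α_ _ _ _).hom ≫ (V.1 ◁ (Y.2.β U hU).hom ≫ ((α_ _ _ _).inv ≫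
          (V.2.β U hU).hom ▷ Y.1 ≫ (α_ _ _ _).hom ≫ U ◁ (V.2.β Y.1 h).hom ≫
            (α_ _ _ _).inv)) ≫ (α_ _ _ _).hom := by
        rw [e2, Category.id_comp]; simp only [Category.assoc, Iso.inv_hom_id, Category.comp_id]
    _ = (α_ _ _ _).hom ≫ (((α_ _ _ _).inv ≫ (V.2.β Y.1 h).hom ▷ U ≫ (α_ _ _ _).hom ≫
          Y.1 ◁ (V.2.β U hU).hom ≫ (α_ _ _ _).inv) ≫ (Y.2.β U hU).hom ▷ V.1) ≫
            (α_ _ _ _).hom := by
        rw [e1]
    _ = (V.2.β Y.1 h).hom ▷ U ≫ ((α_ _ _ _).hom ≫ Y.1 ◁ (V.2.β U hU).hom ≫ (α_ _ _ _).inv ≫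
          (Y.2.β U hU).hom ▷ V.1 ≫ (α_ _ _ _).hom) ≫
            (U ◁ (V.2.β Y.1 h).inv ≫ U ◁ (V.2.β Y.1 h).hom) := by
        rw [e3, Category.comp_id]; simp only [Category.assoc, Iso.hom_inv_id_assoc]
    _ = _ := by simp only [Category.assoc]

/-- The inverse of the half-braiding of `V` with `Y`, as a morphism of the relative center. -/
def invHom (Y : RCen P) (h : P Y.1) (V : RCen P) : Y ⊗ V ⟶ V ⊗ Y where
  f := (V.2.β Y.1 h).inv
  comm U hU := inv_comm Y h V U hU

instance invHom_f_isIso (Y : RCen P) (h : P Y.1) (V : RCen P) :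
    IsIso (invHom Y h V).f := inferInstanceAs (IsIso (V.2.β Y.1 h).inv)

theorem tensor_β_inv (U : C) (h : P U) (V V' : RCen P) :
    ((V ⊗ V').2.β U h).inv = (α_ _ _ _).inv ≫ ((V.2.β U h).inv ▷ V'.1) ≫
      (α_ _ _ _).hom ≫ (V.1 ◁ (V'.2.β U h).inv) ≫ (α_ _ _ _).inv := by
  rw [← cancel_epi ((V ⊗ V').2.β U h).hom, Iso.hom_inv_id, RCen.tensor_β]
  simp only [Category.assoc, Iso.hom_inv_id_assoc]
  rw [← MonoidalCategory.comp_whiskerRight_assoc, Iso.hom_inv_id,
    MonoidalCategory.id_whiskerRight, Category.id_comp, Iso.inv_hom_id_assoc,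
    ← MonoidalCategory.whiskerLeft_comp_assoc, Iso.hom_inv_id,
    MonoidalCategory.whiskerLeft_id, Category.id_comp, Iso.hom_inv_id]

/-- The inverse half-braiding, an object of the center of the relative center. -/
def invHB (Y : RCen P) (h : P Y.1) : HalfBraiding Y where
  β V := RCen.isoMk (invHom Y h V)
  monoidal V V' := by
    ext
    simp only [RCen.comp_f, RCen.associator_inv_f, RCen.associator_hom_f, RCen.whiskerLeft_f,
      RCen.whiskerRight_f]
    exact tensor_β_inv Y.1 h V V'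
  naturality {V V'} g := by
    ext
    change Y.1 ◁ g.f ≫ (V'.2.β Y.1 h).inv = (V.2.β Y.1 h).inv ≫ g.f ▷ Y.1
    rw [← cancel_mono (V'.2.β Y.1 h).hom, Category.assoc, Iso.inv_hom_id, Category.comp_id,
      Category.assoc, g.comm, Iso.inv_hom_id_assoc]

/-- An object of the relative center which lies in `P`, as an object of the center of the
relative center. -/
def iObj (Y : RCen P) (h : P Y.1) : Center (RCen P) := ⟨Y, invHB Y h⟩

@[simp] theorem iObj_fst (Y : RCen P) (h : P Y.1) : (iObj Y h).1 = Y := rfl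

theorem iObj_β (Y : RCen P) (h : P Y.1) (V : RCen P) :
    ((iObj Y h).2.β V).hom.f = (V.2.β Y.1 h).inv := rfl

/-- A morphism of objects of `P` in the relative center, in the center of the relative
center. -/
def iMap {Y Y' : RCen P} (h : P Y.1) (h' : P Y'.1) (f : Y ⟶ Y') : iObj Y h ⟶ iObj Y' h' where
  f := f
  comm V := by
    ext
    change f.f ▷ V.1 ≫ (V.2.β Y'.1 h').inv = (V.2.β Y.1 h).inv ≫ V.1 ◁ f.f
    exact kf_inv_nat V h h' f.f

variable (P)

/-- The embedding of the center of `P` in the center of the relative center. -/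
def kFun : Center P.FullSubcategory ⥤ Center (RCen P) where
  obj A := iObj (kObj A) A.1.property
  map {A B} f := iMap A.1.property B.1.property (kMap f)

theorem kFun_fst (A : Center P.FullSubcategory) : ((kFun P).obj A).1 = kObj A := rfl

theorem kFun_β (A : Center P.FullSubcategory) (V : RCen P) :
    (((kFun P).obj A).2.β V).hom.f = (V.2.β A.1.obj A.1.property).inv := rfl

theorem kFun_map_f_f {A B : Center P.FullSubcategory} (f : A ⟶ B) :
    ((kFun P).map f).f.f = f.f.hom := rfl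

variable {P}

/-- The identity as a morphism to an object of the center of the relative center whose
half-braiding is inverse to the half-braidings. -/
def isoKHom (N : Center (RCen P)) (h : P N.1.1)
    (hN : ∀ V : RCen P, (N.2.β V).hom.f ≫ (V.2.β N.1.1 h).hom = 𝟙 (N.1.1 ⊗ V.1)) :
    (kFun P).obj (rObj N.1 h) ⟶ N where
  f := 𝟙 N.1
  comm V := by
    ext
    change 𝟙 N.1.1 ▷ V.1 ≫ (N.2.β V).hom.f = (V.2.β N.1.1 h).inv ≫ V.1 ◁ 𝟙 N.1.1
    rw [MonoidalCategory.id_whiskerRight, Category.id_comp, MonoidalCategory.whiskerLeft_id,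
      Category.comp_id, ← cancel_mono (V.2.β N.1.1 h).hom, hN V, Iso.inv_hom_id]
    rfl

instance isoKHom_isIso (N : Center (RCen P)) (h : P N.1.1)
    (hN : ∀ V : RCen P, (N.2.β V).hom.f ≫ (V.2.β N.1.1 h).hom = 𝟙 (N.1.1 ⊗ V.1)) :
    IsIso (isoKHom N h hN).f := inferInstanceAs (IsIso (𝟙 N.1))

/-- An object of the center of the relative center whose half-braiding is inverse to the
half-braidings comes from the center of `P`. -/
def isoKFun (N : Center (RCen P)) (h : P N.1.1)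
    (hN : ∀ V : RCen P, (N.2.β V).hom.f ≫ (V.2.β N.1.1 h).hom = 𝟙 (N.1.1 ⊗ V.1)) :
    (kFun P).obj (rObj N.1 h) ≅ N :=
  Center.isoMk (isoKHom N h hN)

variable (P) in
/-- The identity of the unit. -/
def unitKHom : (kFun P).obj (𝟙_ (Center P.FullSubcategory)) ⟶ 𝟙_ (Center (RCen P)) where
  f := 𝟙 (𝟙_ (RCen P))
  comm V := by
    ext
    have h1 : ((𝟙_ (Center (RCen P))).2.β V).hom.f = (λ_ V.1).hom ≫ (ρ_ V.1).inv := by
      rw [← RCen.rightUnitor_inv_f]
      rfl
    change 𝟙 (𝟙_ C) ▷ V.1 ≫ ((𝟙_ (Center (RCen P))).2.β V).hom.f =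
      (V.2.β (𝟙_ C) P.prop_unit).inv ≫ V.1 ◁ 𝟙 (𝟙_ C)
    rw [h1, MonoidalCategory.id_whiskerRight, Category.id_comp,
      MonoidalCategory.whiskerLeft_id, Category.comp_id, kf_unit_inv]

instance unitKHom_isIso : IsIso (unitKHom P).f := inferInstanceAs (IsIso (𝟙 (𝟙_ (RCen P))))

variable (P) in
/-- The embedding preserves the unit. -/
def unitKFun : (kFun P).obj (𝟙_ (Center P.FullSubcategory)) ≅ 𝟙_ (Center (RCen P)) :=
  Center.isoMk (unitKHom P)

theorem comp_of_inv_comp {X Y : C} (a : X ≅ Y) (b : Y ≅ X) (h : a.inv ≫ b.inv = 𝟙 Y) :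
    b.hom ≫ a.hom = 𝟙 Y := by
  have h3 : a.inv = b.hom := by
    rw [← cancel_mono b.inv, h, Iso.hom_inv_id]
  rw [← h3, Iso.inv_hom_id]

/-- Transparency in the center of `P`, in terms of inverse half-braidings. -/
theorem comm_of_inv (Y : RCen P) (h : P Y.1) (A : Center P.FullSubcategory)
    (h1 : ((kObj A).2.β Y.1 h).inv ≫ (Y.2.β A.1.obj A.1.property).inv = 𝟙 (Y.1 ⊗ A.1.obj)) :
    (β_ (rObj Y h) A).hom ≫ (β_ A (rObj Y h)).hom = 𝟙 (rObj Y h ⊗ A) := by
  have h2 : (Y.2.β A.1.obj A.1.property).hom ≫ ((kObj A).2.β Y.1 h).hom =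
      𝟙 (Y.1 ⊗ A.1.obj) := comp_of_inv_comp _ _ h1
  apply Center.ext
  apply ObjectProperty.hom_ext
  exact h2

/-- Objects of the two kinds centralize each other exactly when the objects of the center of
`P` do. -/
theorem comm_of_comm (Y : RCen P) (h : P Y.1) (A : Center P.FullSubcategory)
    (hc : (β_ (iObj Y h) ((kFun P).obj A)).hom ≫ (β_ ((kFun P).obj A) (iObj Y h)).hom =
      𝟙 (iObj Y h ⊗ (kFun P).obj A)) :
    (β_ (rObj Y h) A).hom ≫ (β_ A (rObj Y h)).hom = 𝟙 (rObj Y h ⊗ A) :=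
  comm_of_inv Y h A (congrArg (fun f => f.f.f) hc)

end Pool.Agent.RC40
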