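import Pool.Agent.RC40.KF0
import Pool.Agent.RC40.DP
import Pool.Agent.NDC.NDC
import Pool.Agent.MUG.JB
import Pool.Agent.MUP.DCF

/-! # The copy of the center of `P` has a trivial Mueger center (row KF, helper54) -/

open CategoryTheory MonoidalCategory Limits Abelian

universe w v u

set_option backward.isDefEq.respectTransparency.types false
set_option linter.unusedSectionVars false

attribute [local instance] CategoryTheory.Abelian.hasFiniteBiproducts

noncomputable section

namespace Pool.Agent.RC40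

open Pool.Agent.MUG Pool.Agent.NDC

section KF

variable {k : Type*} [Field k] {C : Type u} [Category.{v} C] [Abelian C]
  [Linear k C] [MonoidalCategory C] [MonoidalPreadditive C] [MonoidalLinear k C]
  [RigidCategory C] (P : ObjectProperty C) [hP : TensorSub P]

instance kFun_additive : (kFun P).Additive where
  map_add {A B f g} := by
    apply Center.ext
    apply RCen.ext
    rw [cen_add_f, rc_add_f]
    rfl

theorem dProp_kFun (A : Center P.FullSubcategory) : dProp P ((kFun P).obj A) :=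
  ⟨A.1.property, fun V => (V.2.β A.1.obj A.1.property).inv_hom_id⟩

/-- The embedding of the center of `P`. -/
theorem dProp_trivial [IsAlgClosed k] (hC : IsFinite k C) (N : Center (RCen P)) (h : dProp P N)
    (hc : centralizer (dProp P) N) :
    ∃ n : ℕ, Nonempty (N ≅ ⨁ (fun _ : Fin n => 𝟙_ (Center (RCen P)))) := by
  obtain ⟨h1, h2⟩ := h
  have h3 : ∀ A : Center P.FullSubcategory, Comm (rObj N.1 h1) A := by
    intro A
    apply comm_of_inv
    have h4 : (N.2.β (kObj A)).hom.f ≫ (N.1.2.β A.1.obj A.1.property).inv =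
        𝟙 (N.1.1 ⊗ A.1.obj) := congrArg (fun f => f.f.f) (hc _ (dProp_kFun P A))
    have h5 : (N.2.β (kObj A)).hom.f = ((kObj A).2.β N.1.1 h1).inv := by
      rw [← cancel_mono ((kObj A).2.β N.1.1 h1).hom, Iso.inv_hom_id]
      exact h2 (kObj A)
    rw [h5] at h4
    exact h4
  obtain ⟨n, ⟨φ⟩⟩ := center_nondegenerate (k := k) (finite_sub hC P) _ h3
  exact ⟨n, ⟨(isoKFun N h1 h2).symm ≪≫ (kFun P).mapIso φ ≪≫ (kFun P).mapBiproduct _ ≪≫
    biproduct.mapIso (fun _ => unitKFun P)⟩⟩

/-- An epimorphism between sums of units splits. -/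
theorem splits_units [IsAlgClosed k] {Z : Type*} [Category Z] [Abelian Z] [Linear k Z]
    [MonoidalCategory Z] [MonoidalPreadditive Z] [MonoidalLinear k Z] [RigidCategory Z]
    (hZ : IsFinite k Z) {A B : Z} {n m : ℕ} (a : A ≅ ⨁ (fun _ : Fin n => 𝟙_ Z))
    (b : B ≅ ⨁ (fun _ : Fin m => 𝟙_ Z)) (p : A ⟶ B) [Epi p] : ∃ s, s ≫ p = 𝟙 B := by
  have h1 : Simple (𝟙_ Z) := hZ.unit
  have := hZ.hom_finite (𝟙_ Z) (𝟙_ Z)
  have := hZ.hom_finite (𝟙_ Z) A
  have := hZ.hom_finite (𝟙_ Z) B
  let φ : (𝟙_ Z ⟶ A) →ₗ[k] (𝟙_ Z ⟶ B) := Linear.rightComp k (𝟙_ Z) p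
  have hφ : ∀ u, φ u = u ≫ p := fun _ => rfl
  have hsurj : LinearMap.range φ = ⊤ := by
    by_contra hne
    obtain ⟨ℓ, hℓ, hz⟩ := Submodule.exists_dual_map_eq_bot_of_lt_top (lt_top_iff_ne_top.2 hne)
      inferInstance
    have hz' : ∀ u : 𝟙_ Z ⟶ A, ℓ (u ≫ p) = 0 := by
      intro u
      have : ℓ (u ≫ p) ∈ Submodule.map ℓ (LinearMap.range φ) := ⟨u ≫ p, ⟨u, rfl⟩, rfl⟩
      rw [hz] at this
      exact this
    let g : B ⟶ 𝟙_ Z := ∑ j : Fin m, ℓ (biproduct.ι (fun _ : Fin m => 𝟙_ Z) j ≫ b.inv) •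
      (b.hom ≫ biproduct.π (fun _ : Fin m => 𝟙_ Z) j)
    have hg : ∀ u : 𝟙_ Z ⟶ B, u ≫ g = ℓ u • 𝟙 (𝟙_ Z) := by
      intro u
      have hc : ∀ j : Fin m, ∃ c : k, c • 𝟙 (𝟙_ Z) =
          u ≫ b.hom ≫ biproduct.π (fun _ : Fin m => 𝟙_ Z) j :=
        fun j => endomorphism_simple_eq_smul_id k _
      choose c hc using hc
      have hu : u = ∑ j : Fin m, c j • (biproduct.ι (fun _ : Fin m => 𝟙_ Z) j ≫ b.inv) := by
        calc u = u ≫ b.hom ≫ 𝟙 _ ≫ b.inv := by simp
          _ = _ := by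
            rw [← biproduct.total, Preadditive.sum_comp, Preadditive.comp_sum,
              Preadditive.comp_sum]
            refine Finset.sum_congr rfl fun j _ => ?_
            have := congrArg (fun t => t ≫ biproduct.ι (fun _ : Fin m => 𝟙_ Z) j ≫ b.inv) (hc j)
            simp only [Linear.smul_comp, Category.id_comp, Category.assoc] at this
            rw [this, Category.assoc]
      have hu2 : ℓ u = ∑ j : Fin m, c j * ℓ (biproduct.ι (fun _ : Fin m => 𝟙_ Z) j ≫ b.inv) := by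
        conv_lhs => rw [hu]
        rw [map_sum]
        refine Finset.sum_congr rfl fun j _ => ?_
        rw [map_smul, smul_eq_mul]
      rw [hu2, Finset.sum_smul, Preadditive.comp_sum]
      refine Finset.sum_congr rfl fun j _ => ?_
      rw [Linear.comp_smul, ← hc j, smul_smul, mul_comm]
    have hg0 : g = 0 := by
      rw [← cancel_epi p, comp_zero, ← cancel_epi a.inv, comp_zero]
      refine biproduct.hom_ext' _ _ fun i => ?_
      rw [comp_zero, ← Category.assoc, ← Category.assoc, hg, Category.assoc]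
      rw [← Category.assoc, hz', zero_smul]
    apply hℓ
    ext u
    have h2 := hg u
    rw [hg0, comp_zero] at h2
    have h3 : 𝟙 (𝟙_ Z) ≠ 0 := id_nonzero _
    rcases smul_eq_zero.1 h2.symm with h | h
    · exact h
    · exact absurd h h3
  have hl : ∀ j : Fin m, ∃ u : 𝟙_ Z ⟶ A, u ≫ p =
      biproduct.ι (fun _ : Fin m => 𝟙_ Z) j ≫ b.inv := by
    intro j
    have : biproduct.ι (fun _ : Fin m => 𝟙_ Z) j ≫ b.inv ∈ LinearMap.range φ := by
      rw [hsurj]; trivial
    obtain ⟨u, hu⟩ := this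
    exact ⟨u, hu⟩
  choose u hu using hl
  refine ⟨b.hom ≫ biproduct.desc u, ?_⟩
  rw [Category.assoc, ← cancel_epi b.inv, Iso.inv_hom_id_assoc, Category.comp_id]
  refine biproduct.hom_ext' _ _ fun j => ?_
  rw [← Category.assoc, biproduct.ι_desc, hu]

/-- Theorem N for `dProp`, given the finiteness of the relative center. -/
theorem fg_dProp_of [IsAlgClosed k] [HasExt.{w} (Center (RCen P))] (hC : IsFinite k C)
    (hR : IsFinite k (RCen P)) (hF : FGC.{w} k (Center (RCen P))) :
    FG k (dProp P) (dProp_tensorSub P) := by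
  have hZ : IsFinite k (Center (RCen P)) := center_isFinite_gen hR
  refine baseJ_trivial hZ hF (dProp P) ?_ ?_ (joinProj hZ (dProp P))
  · intro A B hA hB p hp
    obtain ⟨n, ⟨a⟩⟩ := dProp_trivial P hC A hA.1 hA.2
    obtain ⟨m, ⟨b⟩⟩ := dProp_trivial P hC B hB.1 hB.2
    exact splits_units hZ a b p
  · intro T hT h
    obtain ⟨n, ⟨a⟩⟩ := dProp_trivial P hC T h.1 h.2
    exact Pool.Agent.MUP.iso_unit_of_simple hZ.unit hT a

end KF

end Pool.Agent.RC40
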