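import Pool.Agent.KUN.K6
import Pool.Agent.MUG.ThmJ
import Pool.Agent.MUG.JK
import Pool.Agent.MUG.CFN
import Pool.Agent.MUP.K

/-!
# Row L1: FGC of the center of a braided category (helper65)

`C` braided, `J, K : C ⥤ Center C`.  If `K Q ⊗ J P` is projective for all projectives `Q`, `P`
then FGC passes from `C` to `Center C`.
-/

open CategoryTheory MonoidalCategory Limits Abelian

universe w w' v u

set_option linter.unusedSectionVars false
set_option backward.isDefEq.respectTransparency.types false

attribute [local instance] CategoryTheory.Abelian.hasFiniteBiproducts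

noncomputable section

namespace Pool.Agent.RC40

open Pool.Agent.MUG

section L1

variable {k : Type*} [Field k] {C : Type u} [Category.{v} C] [Abelian C] [Linear k C]
  [MonoidalCategory C] [MonoidalPreadditive C] [MonoidalLinear k C] [RigidCategory C]
  [BraidedCategory C]

instance : (jFun (C := C)).Additive where
  map_add {_ _ _ _} := Center.ext _ _ rfl

instance : (kFun (C := C)).Additive where
  map_add {_ _ _ _} := Center.ext _ _ rfl

instance : (jFun (C := C)).Linear k where
  map_smul {_ _} _ _ := Center.ext _ _ rfl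

instance : (kFun (C := C)).Linear k where
  map_smul {_ _} _ _ := Center.ext _ _ rfl

instance : (jFun (C := C)).Monoidal :=
  inferInstanceAs (Center.ofBraided C).Monoidal

instance : (kFun (C := C)).Monoidal :=
  @Center.instMonoidalOfBraided C _ _ (reverseBraiding C)

theorem cen_shortExact (S : ShortComplex (Center C)) (h : (S.map (Center.forget C)).ShortExact) :
    S.ShortExact where
  exact := (ShortComplex.exact_map_iff_of_faithful S (Center.forget C)).1 h.exact
  mono_f := (Center.forget C).mono_of_mono_map h.mono_f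
  epi_g := (Center.forget C).epi_of_epi_map h.epi_g

theorem jFun_shortExact (S : ShortComplex C) (h : S.ShortExact) : (S.map jFun).ShortExact :=
  cen_shortExact _ h

theorem kFun_shortExact (S : ShortComplex C) (h : S.ShortExact) : (S.map kFun).ShortExact :=
  cen_shortExact _ h

theorem jFun_preserves :
    PreservesFiniteLimits (jFun (C := C)) ∧ PreservesFiniteColimits (jFun (C := C)) :=
  ((Functor.exact_tfae (jFun (C := C))).out 0 3).1 jFun_shortExact

theorem kFun_preserves :
    PreservesFiniteLimits (kFun (C := C)) ∧ PreservesFiniteColimits (kFun (C := C)) :=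
  ((Functor.exact_tfae (kFun (C := C))).out 0 3).1 kFun_shortExact

instance : PreservesFiniteLimits (jFun (C := C)) := jFun_preserves.1

instance : PreservesFiniteColimits (jFun (C := C)) := jFun_preserves.2

instance : PreservesFiniteLimits (kFun (C := C)) := kFun_preserves.1

instance : PreservesFiniteColimits (kFun (C := C)) := kFun_preserves.2

/-- FGC passes from `C` to `Center C` if the products of projective objects of the two copies of
`C` in `Center C` are projective. -/
theorem fgc_center_of_proj [HasExt.{w} C] [HasExt.{w'} (Center C)] (hC : IsFinite k C)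
    (hproj : ∀ Q P : C, Projective Q → Projective P → Projective (kObj Q ⊗ jObj P))
    (hF : FGC.{w} k C) : FGC.{w'} k (Center C) :=
  KUN.fgc_kunneth (jFun (C := C)) (kFun (C := C)) (center_isFinite_gen hC) hC hC hF hF hproj

/-- Morphisms of `C` between objects in the image of `J` are morphisms of the center. -/
def jHom {N N' : Center C} (h : jProp N) (h' : jProp N') (s : N.1 ⟶ N'.1) : N ⟶ N' :=
  ⟨s, fun U => by
    rw [(jProp_iff N).1 h U, (jProp_iff N').1 h' U]
    exact BraidedCategory.braiding_naturality_left s U⟩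

def kHom {N N' : Center C} (h : kProp N) (h' : kProp N') (s : N.1 ⟶ N'.1) : N ⟶ N' :=
  ⟨s, fun U => by
    rw [(kProp_iff N).1 h U, (kProp_iff N').1 h' U]
    exact BraidedCategory.braiding_inv_naturality_left s U⟩

theorem centralizer_kProp : centralizer (kProp (C := C)) = jProp := by
  funext N
  apply propext
  constructor
  · rintro h _ ⟨X, rfl⟩
    exact h _ (kProp_kObj X)
  · intro h Y hY
    refine (cen_double_iff _ _).2 ?_
    rw [(jProp_iff N).1 h, (kProp_iff Y).1 hY, Iso.hom_inv_id]

theorem projIn_jObj (P : C) (hP : Projective P) : ProjIn jProp (jObj P) := by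
  refine ⟨jProp_jObj P, fun {Y Y'} f hf hY hY' g => ?_⟩
  have hf' : Epi f.f := inferInstanceAs (Epi ((Center.forget C).map f))
  refine ⟨jHom (jProp_jObj P) hY (Projective.factorThru (P := P) g.f f.f), ?_⟩
  exact Center.ext _ _ (Projective.factorThru_comp (P := P) g.f f.f)

theorem projIn_kObj (P : C) (hP : Projective P) : ProjIn kProp (kObj P) := by
  refine ⟨kProp_kObj P, fun {Y Y'} f hf hY hY' g => ?_⟩
  have hf' : Epi f.f := inferInstanceAs (Epi ((Center.forget C).map f))
  refine ⟨kHom (kProp_kObj P) hY (Projective.factorThru (P := P) g.f f.f), ?_⟩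
  exact Center.ext _ _ (Projective.factorThru_comp (P := P) g.f f.f)

/-- The products are projective in the centralizer of the Müger center of `C`. -/
theorem projIn_kj (hC : IsFinite k C) (Q P : C) (hQ : Projective Q) (hP : Projective P) :
    ProjIn (centralizer (kProp (C := C) ⊓ jProp)) (kObj Q ⊗ jObj P) := by
  have h := joinProj (center_isFinite_gen hC) (kProp (C := C)) (kObj Q) (jObj P)
    (projIn_kObj Q hQ)
  rw [centralizer_kProp] at h
  exact h (projIn_jObj P hP)

/-- The objects in both images are transparent. -/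
theorem transparent_of_kj {N : Center C} (h : (kProp (C := C) ⊓ jProp) N) (Y : C) :
    Comm N.1 Y := by
  have h1 := (kProp_iff N).1 h.1 Y
  have h2 := (jProp_iff N).1 h.2 Y
  rw [h2] at h1
  change (β_ N.1 Y).hom ≫ (β_ Y N.1).hom = 𝟙 _
  rw [h1, Iso.inv_hom_id]

theorem sym_kj : (kProp (C := C) ⊓ jProp) ≤ centralizer (kProp (C := C) ⊓ jProp) := by
  intro N hN Y hY
  have h : centralizer (kProp (C := C)) N := by
    rw [centralizer_kProp]
    exact hN.2
  exact h Y hY.1

theorem semisimp_kj (hss : ∀ ⦃X Y : C⦄ (f : X ⟶ Y), (∀ U, Comm X U) → Epi f →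
    ∃ s, s ≫ f = 𝟙 Y) : MUP.Semisimp (kProp (C := C) ⊓ jProp) := by
  intro N N' f hN hf
  have hT : TensorSub (kProp (C := C) ⊓ jProp) := tensorSub_inf _ _
  have hN' : (kProp (C := C) ⊓ jProp) N' := hT.quot f hN
  have hf' : Epi f.f := inferInstanceAs (Epi ((Center.forget C).map f))
  obtain ⟨s, hs⟩ := hss f.f (transparent_of_kj hN) hf'
  exact ⟨jHom hN'.2 hN.2 s, Center.ext _ _ hs⟩

/-- If every transparent object of `C` is a sum of copies of the unit, the intersection of the
two copies of `C` centralizes everything. -/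
theorem centralizer_kj_of_nondeg
    (hnd : ∀ X : C, (∀ Y, Comm X Y) → ∃ n : ℕ, Nonempty (X ≅ ⨁ fun _ : Fin n => 𝟙_ C))
    (M : Center C) : centralizer (kProp (C := C) ⊓ jProp) M := by
  intro N hN
  obtain ⟨n, ⟨e⟩⟩ := hnd N.1 (transparent_of_kj hN)
  have hu : jProp (𝟙_ (Center C)) := (tensorSub_jProp (C := C)).unit
  let p : Fin n → (N ⟶ 𝟙_ (Center C)) := fun i =>
    jHom hN.2 hu (e.hom ≫ biproduct.π (fun _ : Fin n => 𝟙_ C) i)
  let q : Fin n → (𝟙_ (Center C) ⟶ N) := fun i =>
    jHom hu hN.2 (biproduct.ι (fun _ : Fin n => 𝟙_ C) i ≫ e.inv)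
  have h4 : ∑ i, (e.hom ≫ biproduct.π (fun _ : Fin n => 𝟙_ C) i) ≫
      (biproduct.ι (fun _ : Fin n => 𝟙_ C) i ≫ e.inv) = 𝟙 N.1 := by
    have h2 : ∀ i, (e.hom ≫ biproduct.π (fun _ : Fin n => 𝟙_ C) i) ≫
        (biproduct.ι (fun _ : Fin n => 𝟙_ C) i ≫ e.inv) =
        e.hom ≫ (biproduct.π (fun _ : Fin n => 𝟙_ C) i ≫
            biproduct.ι (fun _ : Fin n => 𝟙_ C) i) ≫ e.inv := fun i => by
      simp only [Category.assoc]
    simp only [h2]
    rw [← Preadditive.comp_sum, ← Preadditive.sum_comp, biproduct.total, Category.id_comp,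
      e.hom_inv_id]
  have hpq : ∑ i, p i ≫ q i = 𝟙 N :=
    (Center.forget C).map_injective (((Center.forget C).map_sum _ _).trans h4)
  have hun : cc M (𝟙_ (Center C)) = 𝟙 _ := comm_swap (B0.comm_unit M)
  have h3 : cc M N = 𝟙 (M ⊗ N) := by
    calc cc M N = cc M N ≫ M ◁ (∑ i, p i ≫ q i) := by
          rw [hpq, MonoidalCategory.whiskerLeft_id, Category.comp_id]
      _ = ∑ i, M ◁ p i ≫ cc M (𝟙_ (Center C)) ≫ M ◁ q i := by
          rw [whiskerLeft_sum, Preadditive.comp_sum]
          refine Finset.sum_congr rfl fun i _ => ?_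
          rw [MonoidalCategory.whiskerLeft_comp, ← Category.assoc, ← cc_nat_right,
            Category.assoc]
      _ = M ◁ (∑ i, p i ≫ q i) := by
          rw [whiskerLeft_sum]
          refine Finset.sum_congr rfl fun i _ => ?_
          rw [hun, Category.id_comp, MonoidalCategory.whiskerLeft_comp]
      _ = 𝟙 (M ⊗ N) := by rw [hpq, MonoidalCategory.whiskerLeft_id]
  exact h3

/-- If the only transparent objects of `C` are the sums of copies of the unit, then FGC passes
from `C` to `Center C`, in any characteristic. -/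
theorem fgc_center_of_nondeg [HasExt.{w} C] [HasExt.{w'} (Center C)] (hC : IsFinite k C)
    (hnd : ∀ X : C, (∀ Y, Comm X Y) → ∃ n : ℕ, Nonempty (X ≅ ⨁ fun _ : Fin n => 𝟙_ C))
    (hF : FGC.{w} k C) : FGC.{w'} k (Center C) := by
  refine fgc_center_of_proj hC (fun Q P hQ hP => ?_) hF
  have h := projIn_kj hC Q P hQ hP
  refine ⟨fun {E X} f e he => ?_⟩
  exact h.2 e he (centralizer_kj_of_nondeg hnd _) (centralizer_kj_of_nondeg hnd _) f

/-- If the transparent objects of `C` form a semisimple category and the characteristic is `0`,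
then FGC passes from `C` to `Center C`. -/
theorem fgc_center_of_ss [IsAlgClosed k] [CharZero k] [HasExt.{w} C] [HasExt.{w'} (Center C)]
    (hC : IsFinite k C) (hss : ∀ ⦃X Y : C⦄ (f : X ⟶ Y), (∀ U, Comm X U) → Epi f →
    ∃ s, s ≫ f = 𝟙 Y) (hF : FGC.{w} k C) : FGC.{w'} k (Center C) := by
  have hT : TensorSub (kProp (C := C) ⊓ jProp) := tensorSub_inf _ _
  exact fgc_center_of_proj hC (fun Q P hQ hP =>
    MUP.projective_of_projIn_cent (center_isFinite_gen hC) (kProp (C := C) ⊓ jProp)
      (semisimp_kj hss) sym_kj (projIn_kj hC Q P hQ hP)) hF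

end L1

end Pool.Agent.RC40
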