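import Pool.Agent.RC40.SURJ1

/-! # Row SURJ, part 3: killed morphisms and tensor products (helper78) -/

open CategoryTheory MonoidalCategory Limits Abelian

universe v u

set_option backward.isDefEq.respectTransparency.types false
set_option linter.unusedSectionVars false

attribute [local instance] CategoryTheory.Abelian.hasFiniteBiproducts

noncomputable section

namespace Pool.Agent.RC40

open Pool.Agent.MUG Pool.Agent.NDC

namespace SJ

variable {k : Type*} [Field k] {C : Type u} [Category.{v} C] [Abelian C]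
  [Linear k C] [MonoidalCategory C] [MonoidalPreadditive C] [MonoidalLinear k C]
  [RigidCategory C] {P : ObjectProperty C} [hP : TensorSub P]

/-- The exact pairing of the underlying objects. -/
@[instance_reducible] def pairF (D M : RCen P) [ExactPairing D M] : ExactPairing D.1 M.1 where
  coevaluation' := (η_ D M).f
  evaluation' := (ε_ D M).f
  coevaluation_evaluation' := by
    have h := congrArg RCen.Hom.f (ExactPairing.coevaluation_evaluation D M)
    simp only [RCen.comp_f, RCen.whiskerLeft_f, RCen.associator_inv_f, RCen.whiskerRight_f,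
      RCen.rightUnitor_hom_f, RCen.leftUnitor_inv_f] at h
    exact h
  evaluation_coevaluation' := by
    have h := congrArg RCen.Hom.f (ExactPairing.evaluation_coevaluation D M)
    simp only [RCen.comp_f, RCen.whiskerLeft_f, RCen.associator_hom_f, RCen.whiskerRight_f,
      RCen.rightUnitor_inv_f, RCen.leftUnitor_hom_f] at h
    exact h

/-- Evaluation of the last factor. -/
def evR (G M D : RCen P) [ExactPairing D M] : (G ⊗ M) ⊗ D ⟶ G :=
  (α_ G M D).hom ≫ (G ◁ ε_ D M) ≫ (ρ_ G).hom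

theorem evR_f (G M D : RCen P) [ExactPairing D M] : (evR G M D).f =
    (α_ G.1 M.1 D.1).hom ≫ (G.1 ◁ (ε_ D M).f) ≫ (ρ_ G.1).hom := rfl

theorem kill_aux {A B B' D V : C} (y : A ⟶ B) (b : D ⊗ V ⟶ V ⊗ D) (g : B ⊗ V ⟶ V ⊗ B)
    (w : B ⟶ B') (h : (y ▷ V) ≫ g ≫ (V ◁ w) = 0) :
    (y ▷ D ▷ V) ≫ ((α_ B D V).hom ≫ B ◁ b ≫ (α_ B V D).inv ≫ g ▷ D ≫ (α_ V B D).hom) ≫
      V ◁ (w ▷ D) = 0 := by
  have h1 : (y ▷ D ▷ V) ≫ ((α_ B D V).hom ≫ B ◁ b ≫ (α_ B V D).inv ≫ g ▷ D ≫
      (α_ V B D).hom) ≫ V ◁ (w ▷ D) = (α_ A D V).hom ≫ A ◁ b ≫ (α_ A V D).inv ≫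
      ((y ▷ V) ≫ g ≫ (V ◁ w)) ▷ D ≫ (α_ V B' D).hom := by
    simp only [Category.assoc, MonoidalCategory.comp_whiskerRight]
    rw [associator_naturality_left_assoc, ← whisker_exchange_assoc,
      associator_inv_naturality_left_assoc, ← associator_naturality_middle]
  rw [h1, h]
  simp

theorem kill_tensor (G M : RCen P) {W : C} (ω : G.1 ⟶ W)
    (hG : ∀ {A : C} (y : A ⟶ G.1), (∀ V hV, Kill G y ω V hV) → y = 0) {A : C}
    (y : A ⟶ G.1 ⊗ M.1) (hy : ∀ V hV, Kill (G ⊗ M) y (ω ▷ M.1) V hV) : y = 0 := by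
  let D : RCen P := ᘁM
  let _i : ExactPairing D.1 M.1 := pairF D M
  have key : (y ▷ D.1) ≫ (evR G M D).f = 0 := by
    refine hG _ fun V hV => ?_
    have h1 := hy V hV
    rw [Kill] at h1 ⊢
    have h2 := (evR G M D).comm V hV
    have h3 : (evR G M D).f ≫ ω = ((ω ▷ M.1) ▷ D.1) ≫ (α_ W M.1 D.1).hom ≫
        (W ◁ (ε_ D M).f) ≫ (ρ_ W).hom := by
      rw [evR_f, associator_naturality_left_assoc, ← whisker_exchange_assoc]
      have h7 : (ρ_ G.1).hom ≫ ω = ω ▷ (𝟙_ C) ≫ (ρ_ W).hom := (rightUnitor_naturality ω).symm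
      simp only [Category.assoc]
      rw [h7]
      rfl
    have h4 : (((G ⊗ M) ⊗ D : RCen P).2.β V hV).hom =
      (α_ _ _ _).hom ≫ (G.1 ⊗ M.1) ◁ (D.2.β V hV).hom ≫ (α_ _ _ _).inv ≫
        ((G ⊗ M : RCen P).2.β V hV).hom ▷ D.1 ≫ (α_ _ _ _).hom := rfl
    rw [comp_whiskerRight, Category.assoc, reassoc_of% h2, ← MonoidalCategory.whiskerLeft_comp,
      h3, h4, MonoidalCategory.whiskerLeft_comp]
    have h5 := kill_aux (D := D.1) y (D.2.β V hV).hom ((G ⊗ M : RCen P).2.β V hV).hom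
      (ω ▷ M.1) h1
    rw [← Category.assoc, ← Category.assoc, Category.assoc (y ▷ D.1 ▷ V)]
    erw [h5]
    rw [zero_comp]
  have h6 : (tensorRightHomEquiv A D.1 M.1 G.1).symm y = 0 := key
  rw [← (tensorRightHomEquiv A D.1 M.1 G.1).apply_symm_apply y, h6]
  apply (tensorRightHomEquiv A D.1 M.1 G.1).symm.injective
  rw [Equiv.symm_apply_apply]
  change _ = ((0 : _ ⟶ _) ▷ D.1) ≫ _
  rw [MonoidalPreadditive.zero_whiskerRight, zero_comp]

end SJ

end Pool.Agent.RC40
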