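import Pool.Agent.RC40.AB
import Pool.Agent.RC40.RIG
import Pool.Agent.MUG.Join
import Pool.Agent.MUG.CenRig

/-!
# The last step of row SURJ (MP_388894, helper45)
-/

open CategoryTheory MonoidalCategory Limits

universe v u

set_option backward.isDefEq.respectTransparency.types false
set_option linter.unusedSectionVars false

noncomputable section

namespace Pool.Agent.RC40.S5

open Pool.Agent.MUG

variable {k : Type*} [Field k] {C : Type u} [Category.{v} C] [Abelian C]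
  [Linear k C] [MonoidalCategory C] [MonoidalPreadditive C] [MonoidalLinear k C]
  [RigidCategory C] {P : ObjectProperty C} [hP : TensorSub P]

variable (P) in
/-- The restriction functor preserves dual pairs. -/
@[instance_reducible]
def pairU (N : Center C) :
    ExactPairing ((RCen.ofCenter P).obj N) ((RCen.ofCenter P).obj (Nᘁ)) where
  coevaluation' := ⟨(η_ N (Nᘁ)).f, fun U _ => (η_ N (Nᘁ)).comm U⟩
  evaluation' := ⟨(ε_ N (Nᘁ)).f, fun U _ => (ε_ N (Nᘁ)).comm U⟩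
  coevaluation_evaluation' := by
    ext
    exact congrArg Center.Hom.f (ExactPairing.coevaluation_evaluation N (Nᘁ))
  evaluation_coevaluation' := by
    ext
    exact congrArg Center.Hom.f (ExactPairing.evaluation_coevaluation N (Nᘁ))

variable (P) in
/-- The right dual of a restricted object. -/
def dualU (N : Center C) :
    ((RCen.ofCenter P).obj N)ᘁ ≅ (RCen.ofCenter P).obj (Nᘁ) :=
  rightDualIso inferInstance (pairU P N)

variable (P) in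
/-- The restriction functor is strict. -/
def tensorU (N N' : Center C) :
    (RCen.ofCenter P).obj N ⊗ (RCen.ofCenter P).obj N' ≅ (RCen.ofCenter P).obj (N ⊗ N') :=
  Functor.Monoidal.μIso (RCen.ofCenter P) N N'

/-- A nonzero map from the unit is not killed by the evaluation. -/
theorem ev_ne_zero (G : RCen P) (ψ : 𝟙_ C ⟶ G.1) (hψ : ψ ≠ 0) :
    (Gᘁ).1 ◁ ψ ≫ (ε_ G (Gᘁ)).f ≠ 0 := by
  intro h0
  apply hψ
  have h1 := congrArg RCen.Hom.f (ExactPairing.evaluation_coevaluation G (Gᘁ))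
  have h2 : (η_ G (Gᘁ)).f ▷ G.1 ≫ (α_ G.1 (Gᘁ).1 G.1).hom ≫ G.1 ◁ (ε_ G (Gᘁ)).f =
      (λ_ G.1).hom ≫ (ρ_ G.1).inv := by
    rw [← RCen.leftUnitor_hom_f, ← RCen.rightUnitor_inv_f, ← RCen.comp_f, ← h1]
    rfl
  have h3 : (𝟙_ C) ◁ ψ ≫ (λ_ G.1).hom ≫ (ρ_ G.1).inv = 0 := by
    rw [← h2]
    calc (𝟙_ C) ◁ ψ ≫ (η_ G (Gᘁ)).f ▷ G.1 ≫ (α_ G.1 (Gᘁ).1 G.1).hom ≫
          G.1 ◁ (ε_ G (Gᘁ)).f
        = (η_ G (Gᘁ)).f ▷ (𝟙_ C) ≫ (α_ G.1 (Gᘁ).1 (𝟙_ C)).hom ≫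
          G.1 ◁ ((Gᘁ).1 ◁ ψ ≫ (ε_ G (Gᘁ)).f) := by
          rw [whisker_exchange_assoc, MonoidalCategory.whiskerLeft_comp]
          congr 1
          exact associator_naturality_right_assoc _ _ _ _
      _ = 0 := by
          rw [h0, MonoidalPreadditive.whiskerLeft_zero, comp_zero, comp_zero]
  have h4 : (𝟙_ C) ◁ ψ ≫ (λ_ G.1).hom = (λ_ (𝟙_ C)).hom ≫ ψ := leftUnitor_naturality ψ
  rw [← Category.assoc, h4] at h3
  have h5 : (λ_ (𝟙_ C)).hom ≫ ψ = 0 := by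
    rw [← cancel_mono (ρ_ G.1).inv, h3, zero_comp]
  rw [← cancel_epi (λ_ (𝟙_ C)).hom, h5, comp_zero]

/-- The evaluation map `Gᘁ ⊗ Γ ⟶ M`. -/
def evM {G Γ M : RCen P} (p : Γ ⟶ G ⊗ M) : (Gᘁ : RCen P) ⊗ Γ ⟶ M :=
  (Gᘁ : RCen P) ◁ p ≫ (α_ _ _ _).inv ≫ ε_ G (Gᘁ) ▷ M ≫ (λ_ M).hom

theorem epi_evM (h1 : Simple (𝟙_ C)) {G Γ M : RCen P} (p : Γ ⟶ G ⊗ M) (ψ : 𝟙_ C ⟶ G.1)
    (hψ : ψ ≠ 0) (s : M.1 ⟶ Γ.1) (hs : s ≫ p.f = (λ_ M.1).inv ≫ ψ ▷ M.1) : Epi (evM p) := by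
  apply rc_epi_of
  set t := (Gᘁ).1 ◁ ψ ≫ (ε_ G (Gᘁ)).f with ht
  have ht0 : t ≠ 0 := ev_ne_zero G ψ hψ
  have hte : Epi t := epi_of_nonzero_to_simple ht0
  have hte' : Epi (t ▷ M.1) := inferInstanceAs (Epi ((tensorRight M.1).map t))
  have h2 : (Gᘁ).1 ◁ s ≫ (evM p).f =
      ((Gᘁ).1 ◁ (λ_ M.1).inv ≫ (α_ _ _ _).inv) ≫ t ▷ M.1 ≫ (λ_ M.1).hom := by
    have h3 : (evM p).f = (Gᘁ).1 ◁ p.f ≫ (α_ _ _ _).inv ≫ (ε_ G (Gᘁ)).f ▷ M.1 ≫
        (λ_ M.1).hom := by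
      simp [evM]
    rw [h3, ← Category.assoc, ← MonoidalCategory.whiskerLeft_comp, hs, ht]
    simp only [MonoidalCategory.whiskerLeft_comp, MonoidalCategory.comp_whiskerRight,
      Category.assoc]
    congr 1
    exact associator_inv_naturality_middle_assoc _ _ _ _
  have h4 : Epi ((Gᘁ).1 ◁ s ≫ (evM p).f) := by
    rw [h2]
    infer_instance
  exact epi_of_epi ((Gᘁ).1 ◁ s) (evM p).f

/-- **The last step.** -/
theorem final (h1 : Simple (𝟙_ C)) (N1 N : Center C) {G Γ M : RCen P}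
    (π : (RCen.ofCenter P).obj N1 ⟶ G) [Epi π] (q : Γ ⟶ (RCen.ofCenter P).obj N) [Mono q]
    (p : Γ ⟶ G ⊗ M) (ψ : 𝟙_ C ⟶ G.1) (hψ : ψ ≠ 0) (s : M.1 ⟶ Γ.1)
    (hs : s ≫ p.f = (λ_ M.1).inv ≫ ψ ▷ M.1) :
    ∃ N' : Center C, IsSubquotient M ((RCen.ofCenter P).obj N') := by
  refine ⟨(N1ᘁ : Center C) ⊗ N, ?_⟩
  have := epi_evM h1 p ψ hψ s hs
  have h2 : IsSubquotient M ((Gᘁ : RCen P) ⊗ Γ) := IsSubquotient.of_epi (evM p)
  have h3 : IsSubquotient (Gᘁ : RCen P) ((RCen.ofCenter P).obj (N1ᘁ)) :=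
    ((IsSubquotient.of_epi π).rdual).trans (IsSubquotient.of_mono (dualU P N1).hom)
  have h4 : IsSubquotient Γ ((RCen.ofCenter P).obj N) := IsSubquotient.of_mono q
  exact (h2.trans (h3.tensor h4)).trans (IsSubquotient.of_mono (tensorU P (N1ᘁ) N).hom)

end Pool.Agent.RC40.S5
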