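import Pool.Agent.RC40.AB
import Pool.Agent.RC40.RIG
import Pool.Agent.NDC.NDC
import Pool.Agent.MUG.JB

/-! # Row SURJ, part 1: kernels in the relative center (helper40) -/

open CategoryTheory MonoidalCategory Limits Abelian

universe v u

set_option backward.isDefEq.respectTransparency.types false
set_option linter.unusedSectionVars false

attribute [local instance] CategoryTheory.Abelian.hasFiniteBiproducts

noncomputable section

namespace Pool.Agent.RC40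

open Pool.Agent.MUG Pool.Agent.NDC

namespace SJ

variable {k : Type*} [Field k] {C : Type u} [Category.{v} C] [Abelian C]
  [Linear k C] [MonoidalCategory C] [MonoidalPreadditive C] [MonoidalLinear k C]
  [RigidCategory C] {P : ObjectProperty C} [hP : TensorSub P]

/-- `Q` separates the morphisms out of objects of `P`. -/
def SepP (P : ObjectProperty C) (Q : C) : Prop :=
  ∀ {V W : C}, P V → ∀ (g : V ⟶ W), (∀ f : Q ⟶ V, f ≫ g = 0) → g = 0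

theorem exists_sepP (hC : IsFinite k C) (P : ObjectProperty C) [hP : TensorSub P] :
    ∃ Q : C, P Q ∧ SepP P Q := by
  obtain ⟨Q, -, hQ⟩ := Gen.exists_separator (finite_sub hC P).finCat
  refine ⟨Q.obj, Q.property, fun {V W} hV g hg => ?_⟩
  let p := Abelian.factorThruImage g
  let V' : P.FullSubcategory := ⟨V, hV⟩
  let I' : P.FullSubcategory := ⟨Abelian.image g, hP.quot p hV⟩
  let p' : V' ⟶ I' := ObjectProperty.homMk p
  have h1 : p' = 0 := by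
    refine hQ p' fun f => ?_
    apply P.ι.map_injective
    change f.hom ≫ p = 0
    rw [← cancel_mono (Abelian.image.ι g), zero_comp, Category.assoc, Abelian.image.fac]
    exact hg f.hom
  have h2 : p = 0 := congrArg (fun t => t.hom) h1
  rw [← Abelian.image.fac g]
  change p ≫ _ = 0
  rw [h2, zero_comp]

theorem lk_zero {Q : C} (hQ : SepP P Q) {V Y W : C} (hV : P V) (F : Y ⊗ V ⟶ W)
    (h : ∀ f : Q ⟶ V, (Y ◁ f) ≫ F = 0) : F = 0 := by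
  have h0 : ∀ {V : C}, (tensorLeftHomEquiv V (ᘁY : C) Y W).symm 0 = 0 := by
    intro V
    change (Y ◁ (0 : V ⟶ (ᘁY : C) ⊗ W)) ≫ _ = 0
    rw [MonoidalPreadditive.whiskerLeft_zero, zero_comp]
  have h1 : tensorLeftHomEquiv V (ᘁY : C) Y W F = 0 := by
    refine hQ hV _ fun f => ?_
    apply (tensorLeftHomEquiv Q (ᘁY : C) Y W).symm.injective
    rw [tensorLeftHomEquiv_symm_naturality, Equiv.symm_apply_apply, h f, h0]
  apply (tensorLeftHomEquiv V (ᘁY : C) Y W).injective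
  rw [h1]
  apply (tensorLeftHomEquiv V (ᘁY : C) Y W).symm.injective
  rw [h0, Equiv.symm_apply_apply]

/-- `h` kills the translates of `y` by `V`. -/
def Kill (N : RCen P) {Y W : C} (y : Y ⟶ N.1) (h : N.1 ⟶ W) (V : C) (hV : P V) : Prop :=
  (y ▷ V) ≫ (N.2.β V hV).hom ≫ (V ◁ h) = 0

theorem kill_of_sep {Q : C} (hPQ : P Q) (hQ : SepP P Q)
    {N : RCen P} {Y W : C} {y : Y ⟶ N.1} {h : N.1 ⟶ W} (hk : Kill N y h Q hPQ) (V : C)
    (hV : P V) : Kill N y h V hV := by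
  refine lk_zero hQ hV _ fun f => ?_
  have h1 : (Y ◁ f) ≫ (y ▷ V) ≫ (N.2.β V hV).hom ≫ (V ◁ h) =
      ((y ▷ Q) ≫ (N.2.β Q hPQ).hom ≫ (Q ◁ h)) ≫ (f ▷ W) := by
    have h2 := N.2.naturality hPQ hV f
    rw [whisker_exchange_assoc, ← Category.assoc (N.fst ◁ f), h2, Category.assoc,
      ← whisker_exchange, Category.assoc, Category.assoc]
  rw [h1]
  have h3 : (y ▷ Q) ≫ (N.2.β Q hPQ).hom ≫ (Q ◁ h) = 0 := hk
  rw [h3, zero_comp]

/-- The half-braiding at the unit object. -/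
theorem hb_unit (N : RCen P) (h : P (𝟙_ C)) :
    (N.2.β (𝟙_ C) h).hom = (ρ_ N.1).hom ≫ (λ_ N.1).inv := by
  have h11 : P (𝟙_ C ⊗ 𝟙_ C) := hP.tensor h h
  have h1 := N.2.monoidal (𝟙_ C) (𝟙_ C) h h h11
  have h2 := N.2.naturality h11 h (λ_ (𝟙_ C)).hom
  let e : N.1 ≅ N.1 := (ρ_ N.1).symm ≪≫ N.2.β (𝟙_ C) h ≪≫ λ_ N.1
  have he : (N.2.β (𝟙_ C) h).hom = (ρ_ N.1).hom ≫ e.hom ≫ (λ_ N.1).inv := by
    simp [e]
  have h3 : e.hom ≫ e.hom = e.hom := by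
    rw [h1, he] at h2
    have h5 : (α_ N.1 (𝟙_ C) (𝟙_ C)).inv ≫ (ρ_ (N.1 ⊗ 𝟙_ C)).hom =
        N.1 ◁ (λ_ (𝟙_ C)).hom := by monoidal
    simp at h2
    rw [reassoc_of% h5] at h2
    have h6 := (cancel_epi (N.1 ◁ (λ_ (𝟙_ C)).hom ≫ (ρ_ N.1).hom)).1 (by
      simpa only [Category.assoc] using h2)
    have h7 : e.hom = e.hom ≫ e.hom := by
      rw [← cancel_mono (λ_ N.1).inv]
      simpa only [Category.assoc] using h6
    exact h7.symm
  have h4 : e.hom = 𝟙 _ := by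
    rw [← cancel_epi e.hom, h3, Category.comp_id]
  rw [he, h4, Category.id_comp]

theorem kill_unit {N : RCen P} {Y W : C} {y : Y ⟶ N.1} {h : N.1 ⟶ W}
    (hk : Kill N y h (𝟙_ C) hP.unit) : y ≫ h = 0 := by
  rw [Kill, hb_unit] at hk
  have h1 : (y ▷ (𝟙_ C)) ≫ ((ρ_ N.1).hom ≫ (λ_ N.1).inv) ≫ ((𝟙_ C) ◁ h) =
      (ρ_ Y).hom ≫ (y ≫ h) ≫ (λ_ W).inv := by
    simp
  rw [h1] at hk
  calc y ≫ h = (ρ_ Y).inv ≫ ((ρ_ Y).hom ≫ (y ≫ h) ≫ (λ_ W).inv) ≫ (λ_ W).hom := by simp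
    _ = 0 := by rw [hk, zero_comp, comp_zero]

/-- Stability. -/
theorem kill_stable {N : RCen P} {Y W : C} {y : Y ⟶ N.1} {q : N.1 ⟶ W}
    (hq : ∀ V hV, Kill N y q V hV) (U V : C) (hU : P U) (hV : P V) :
    Kill N y (tensorRightHomEquiv N.1 U (Uᘁ) (U ⊗ W) ((N.2.β U hU).hom ≫ (U ◁ q))) V hV := by
  have h1 := hq (V ⊗ U) (hP.tensor hV hU)
  rw [Kill, N.2.monoidal V U hV hU] at h1
  have h2 : (((y ▷ V) ≫ (N.2.β V hV).hom) ▷ U) ≫ (α_ V N.1 U).hom ≫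
      (V ◁ ((N.2.β U hU).hom ≫ (U ◁ q))) = 0 := by
    have h5 : (α_ Y V U).inv ≫ ((((y ▷ V) ≫ (N.2.β V hV).hom) ▷ U) ≫ (α_ V N.1 U).hom ≫
          (V ◁ ((N.2.β U hU).hom ≫ (U ◁ q)))) ≫ (α_ V U W).inv = 0 := by
      rw [← h1]
      simp
    rw [← cancel_epi (α_ Y V U).inv, ← cancel_mono (α_ V U W).inv, Category.assoc, h5, comp_zero,
      zero_comp]
  have h7 : ((y ▷ V) ≫ (N.2.β V hV).hom) ≫ ((V ◁ (tensorRightHomEquiv N.1 U (Uᘁ) (U ⊗ W)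
      ((N.2.β U hU).hom ≫ (U ◁ q)))) ≫ (α_ V (U ⊗ W) (Uᘁ)).inv) = 0 := by
    rw [Gen.right_whisker]
    apply (tensorRightHomEquiv (Y ⊗ V) U (Uᘁ) (V ⊗ (U ⊗ W))).symm.injective
    rw [tensorRightHomEquiv_symm_naturality, Equiv.symm_apply_apply, h2]
    change _ = ((0 : _ ⟶ _) ▷ U) ≫ _
    rw [MonoidalPreadditive.zero_whiskerRight, zero_comp]
  rw [Kill, ← cancel_mono (α_ V (U ⊗ W) (Uᘁ)).inv, zero_comp, Category.assoc, Category.assoc]
  simpa only [Category.assoc] using h7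

/-- A subobject stable under the half-braiding. -/
theorem exists_sub (N : RCen P) {K : C} (ι : K ⟶ N.1) [Mono ι]
    (h : ∀ U (hU : P U), ∃ γ : K ⊗ U ⟶ U ⊗ K, γ ≫ (U ◁ ι) = (ι ▷ U) ≫ (N.2.β U hU).hom) :
    ∃ (b : RHB P K), ∀ U hU, (ι ▷ U) ≫ (N.2.β U hU).hom = (b.β U hU).hom ≫ (U ◁ ι) := by
  choose γ hγ using h
  have mon : ∀ U U' (hU : P U) (hU' : P U') (hUU : P (U ⊗ U')), γ (U ⊗ U') hUU =
      (α_ _ _ _).inv ≫ (γ U hU ▷ U') ≫ (α_ _ _ _).hom ≫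
      (U ◁ γ U' hU') ≫ (α_ _ _ _).inv := by
    intro U U' hU hU' hUU
    rw [← cancel_mono ((U ⊗ U') ◁ ι), hγ, N.2.monoidal U U' hU hU' hUU]
    calc ι ▷ (U ⊗ U') ≫ (α_ _ _ _).inv ≫ ((N.2.β U hU).hom ▷ U') ≫ (α_ _ _ _).hom ≫
          (U ◁ (N.2.β U' hU').hom) ≫ (α_ _ _ _).inv
        = 𝟙 _ ⊗≫ (ι ▷ U ≫ (N.2.β U hU).hom) ▷ U' ⊗≫ U ◁ (N.2.β U' hU').hom ⊗≫ 𝟙 _ := by
          monoidal
      _ = 𝟙 _ ⊗≫ γ U hU ▷ U' ⊗≫ U ◁ (ι ▷ U' ≫ (N.2.β U' hU').hom) ⊗≫ 𝟙 _ := by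
          rw [← hγ U hU]; monoidal
      _ = _ := by rw [← hγ U' hU']; monoidal
  have nat : ∀ {U U' : C} (hU : P U) (hU' : P U') (f : U ⟶ U'),
      K ◁ f ≫ γ U' hU' = γ U hU ≫ f ▷ K := by
    intro U U' hU hU' f
    rw [← cancel_mono (U' ◁ ι), Category.assoc, hγ U' hU', whisker_exchange_assoc,
      N.2.naturality hU hU', ← Category.assoc, ← hγ U hU, Category.assoc, Category.assoc,
      whisker_exchange]
  have one : γ (𝟙_ C) hP.unit = (ρ_ K).hom ≫ (λ_ K).inv := by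
    rw [← cancel_mono ((𝟙_ C) ◁ ι), hγ, hb_unit]
    simp
  have hiso : ∀ U (hU : P U), IsIso (γ U hU) := fun U hU =>
    rc_lax_iso P γ nat mon one U hU
  exact ⟨{ β := fun U hU => haveI := hiso U hU; asIso (γ U hU)
           monoidal := mon
           naturality := nat }, fun U hU => (hγ U hU).symm⟩

/-- The largest subobject inside a kernel. -/
theorem exists_kerSub (hC : IsFinite k C) (M : RCen P) {W : C} (h : M.1 ⟶ W) :
    ∃ (K : RCen P) (i : K ⟶ M), Mono i.f ∧ i.f ≫ h = 0 ∧ ∀ {A : C} (y : A ⟶ M.1),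
      (∀ V hV, Kill M y h V hV) → ∃ y' : A ⟶ K.1, y' ≫ i.f = y := by
  obtain ⟨Q, hPQ, hQ⟩ := exists_sepP hC P
  let m : M.1 ⟶ (Q ⊗ W) ⊗ (Qᘁ) :=
    tensorRightHomEquiv M.1 Q (Qᘁ) (Q ⊗ W) ((M.2.β Q hPQ).hom ≫ (Q ◁ h))
  have key : ∀ {A : C} (y : A ⟶ M.1), y ≫ m = 0 ↔ ∀ V hV, Kill M y h V hV := by
    intro A y
    have h1 : y ≫ m = tensorRightHomEquiv A Q (Qᘁ) (Q ⊗ W)
        (y ▷ Q ≫ (M.2.β Q hPQ).hom ≫ (Q ◁ h)) := by
      apply (tensorRightHomEquiv A Q (Qᘁ) (Q ⊗ W)).symm.injective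
      rw [tensorRightHomEquiv_symm_naturality, Equiv.symm_apply_apply, Equiv.symm_apply_apply]
    rw [h1, Gen.right_zero_iff]
    exact ⟨fun hk V hV => kill_of_sep hPQ hQ hk V hV, fun hk => hk Q hPQ⟩
  let ι := kernel.ι m
  have hι : ∀ V hV, Kill M ι h V hV := (key ι).1 (kernel.condition m)
  have hst : ∀ U (hU : P U), ∃ γ : kernel m ⊗ U ⟶ U ⊗ kernel m,
      γ ≫ (U ◁ ι) = (ι ▷ U) ≫ (M.2.β U hU).hom := by
    intro U hU
    have h1 : (ι ▷ U ≫ (M.2.β U hU).hom) ≫ U ◁ m = 0 := by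
      rw [Category.assoc]
      exact kill_stable hι Q U hPQ hU
    have hex : (ShortComplex.mk ι m (kernel.condition m)).Exact := ShortComplex.exact_kernel m
    have h2 : ((ShortComplex.mk ι m (kernel.condition m)).map (tensorLeft U)).Exact :=
      hex.map (tensorLeft U)
    have h3 : Mono ((ShortComplex.mk ι m (kernel.condition m)).map (tensorLeft U)).f :=
      inferInstanceAs (Mono (U ◁ ι))
    exact ⟨h2.lift _ h1, h2.lift_f _ h1⟩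
  obtain ⟨b, hb⟩ := exists_sub M ι hst
  refine ⟨⟨kernel m, b⟩, ⟨ι, fun U hU => hb U hU⟩, inferInstanceAs (Mono ι),
    kill_unit (hι _ _), fun {A} y hy => ?_⟩
  exact ⟨kernel.lift m y ((key y).2 hy), kernel.lift_ι _ _ _⟩

end SJ

end Pool.Agent.RC40
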