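import Pool.Agent.RC40.SURJ1
import Pool.Agent.MUG.Join

/-! # Row SURJ, part 2: quotients, graphs, the main step (helper40) -/

open CategoryTheory MonoidalCategory Limits Abelian

universe v u

set_option backward.isDefEq.respectTransparency.types false
set_option linter.unusedSectionVars false

attribute [local instance] CategoryTheory.Abelian.hasFiniteBiproducts

noncomputable section

namespace Pool.Agent.RC40

open Pool.Agent.MUG Pool.Agent.NDC

namespace SJ

variable {k : Type*} [Field k] {C : Type u} [Category.{v} C] [Abelian C]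
  [Linear k C] [MonoidalCategory C] [MonoidalPreadditive C] [MonoidalLinear k C]
  [RigidCategory C] {P : ObjectProperty C} [hP : TensorSub P]

theorem trans_map {N N' : RCen P} (g : N ⟶ N') {Y W : C} (y : Y ⟶ N.1) (h : N'.1 ⟶ W) (V : C)
    (hV : P V) : (y ≫ g.f) ▷ V ≫ (N'.2.β V hV).hom ≫ V ◁ h =
      y ▷ V ≫ (N.2.β V hV).hom ≫ V ◁ (g.f ≫ h) := by
  rw [MonoidalCategory.comp_whiskerRight, Category.assoc, RCen.Hom.comm_assoc,
    MonoidalCategory.whiskerLeft_comp]

theorem exists_quot (hC : IsFinite k C) (M : RCen P) {W : C} (h : M.1 ⟶ W) :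
    ∃ (Q : RCen P) (q : M ⟶ Q) (h' : Q.1 ⟶ W), Epi q ∧ q.f ≫ h' = h ∧
      ∀ {A : C} (y : A ⟶ Q.1), (∀ V hV, Kill Q y h' V hV) → y = 0 := by
  obtain ⟨K, i, hi, hih, hK⟩ := exists_kerSub hC M h
  refine ⟨rcCoker i, rcCokerπ i, cokernel.desc i.f h hih,
    rc_epi_of P (rcCokerπ i) (inferInstanceAs (Epi (cokernel.π i.f))), cokernel.π_desc _ _ _, ?_⟩
  intro A y hy
  let y0 : A ⟶ cokernel i.f := y
  let y1 : pullback (cokernel.π i.f) y0 ⟶ M.1 := pullback.fst _ _
  let e : pullback (cokernel.π i.f) y0 ⟶ A := pullback.snd _ _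
  have hc : y1 ≫ cokernel.π i.f = e ≫ y0 := pullback.condition
  have he : Epi e := inferInstanceAs (Epi (pullback.snd (cokernel.π i.f) y0))
  have hk : ∀ V hV, Kill M y1 h V hV := by
    intro V hV
    have h1 := trans_map (rcCokerπ i) y1 (cokernel.desc i.f h hih) V hV
    have h2 : (rcCokerπ i).f ≫ cokernel.desc i.f h hih = h := cokernel.π_desc _ _ _
    rw [h2] at h1
    have h3 : y1 ≫ (rcCokerπ i).f = e ≫ y := hc
    rw [h3] at h1
    change y1 ▷ V ≫ (M.2.β V hV).hom ≫ V ◁ h = 0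
    have h4 : y ▷ V ≫ ((rcCoker i).2.β V hV).hom ≫ V ◁ cokernel.desc i.f h hih = 0 := hy V hV
    rw [← h1, MonoidalCategory.comp_whiskerRight, Category.assoc, h4, comp_zero]
  obtain ⟨y', hy'⟩ := hK y1 hk
  have h5 : e ≫ y0 = 0 := by
    rw [← hc, ← hy', Category.assoc, cokernel.condition, comp_zero]
  have h6 : y0 = 0 := by
    rw [← cancel_epi e, h5, comp_zero]
  exact h6

theorem exists_graph (hC : IsFinite k C) (N T : RCen P) {W : C} (ω : N.1 ⟶ W) (τ : T.1 ⟶ W)
    (hT : ∀ {A : C} (y : A ⟶ T.1), (∀ V hV, Kill T y τ V hV) → y = 0)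
    {A : C} (a : A ⟶ N.1) (b : A ⟶ T.1)
    (hab : ∀ V hV, a ▷ V ≫ (N.2.β V hV).hom ≫ V ◁ ω = b ▷ V ≫ (T.2.β V hV).hom ≫ V ◁ τ) :
    ∃ (K : RCen P) (p : K ⟶ N) (q : K ⟶ T) (z : A ⟶ K.1),
      Mono p ∧ z ≫ p.f = a ∧ z ≫ q.f = b := by
  let fs : N ⊞ T ⟶ N := biprod.fst
  let sn : N ⊞ T ⟶ T := biprod.snd
  let il : N ⟶ N ⊞ T := biprod.inl
  let ir : T ⟶ N ⊞ T := biprod.inr
  have e1 : il.f ≫ fs.f = 𝟙 N.1 := congrArg (fun t => t.f) (biprod.inl_fst : il ≫ fs = 𝟙 N)
  have e2 : il.f ≫ sn.f = 0 := congrArg (fun t => t.f) (biprod.inl_snd : il ≫ sn = 0)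
  have e3 : ir.f ≫ fs.f = 0 := congrArg (fun t => t.f) (biprod.inr_fst : ir ≫ fs = 0)
  have e4 : ir.f ≫ sn.f = 𝟙 T.1 := congrArg (fun t => t.f) (biprod.inr_snd : ir ≫ sn = 𝟙 T)
  let h : (N ⊞ T).1 ⟶ W := fs.f ≫ ω - sn.f ≫ τ
  have hl : il.f ≫ h = ω := by
    rw [Preadditive.comp_sub, ← Category.assoc, e1, ← Category.assoc, e2, zero_comp, sub_zero,
      Category.id_comp]
  have hr : ir.f ≫ h = -τ := by
    rw [Preadditive.comp_sub, ← Category.assoc, e3, ← Category.assoc, e4, zero_comp, zero_sub,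
      Category.id_comp]
  obtain ⟨K, i, hi, hih, hK⟩ := exists_kerSub hC (N ⊞ T) h
  have hz : ∀ V hV, Kill (N ⊞ T) (a ≫ il.f + b ≫ ir.f) h V hV := by
    intro V hV
    have h1 := trans_map il a h V hV
    have h2 := trans_map ir b h V hV
    have h3 : V ◁ (-τ) = - (V ◁ τ) := (tensorLeft V).map_neg
    rw [hl] at h1
    rw [hr, h3] at h2
    rw [Kill, MonoidalPreadditive.add_whiskerRight, Preadditive.add_comp, h1, h2, hab V hV,
      Preadditive.comp_neg, Preadditive.comp_neg, add_neg_cancel]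
  obtain ⟨z, hz'⟩ := hK _ hz
  refine ⟨K, i ≫ fs, i ≫ sn, z, ?_, ?_, ?_⟩
  · refine Preadditive.mono_of_cancel_zero _ fun {L} v hv => ?_
    have hv1 : (v.f ≫ i.f) ≫ fs.f = 0 := by
      have := congrArg (fun t => t.f) hv
      rw [Category.assoc]
      exact this
    have hv2 : (v.f ≫ i.f) ≫ sn.f = 0 := by
      refine hT _ fun V hV => ?_
      have h1 := trans_map sn (v.f ≫ i.f) τ V hV
      have h2 := trans_map fs (v.f ≫ i.f) ω V hV
      have h3 := trans_map i v.f h V hV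
      rw [hih, MonoidalPreadditive.whiskerLeft_zero, comp_zero, comp_zero] at h3
      have h4 : V ◁ h = V ◁ (fs.f ≫ ω) - V ◁ (sn.f ≫ τ) := (tensorLeft V).map_sub
      rw [h4, Preadditive.comp_sub, Preadditive.comp_sub, ← h1, ← h2, hv1,
        MonoidalPreadditive.zero_whiskerRight, zero_comp, zero_sub, neg_eq_zero] at h3
      exact h3
    have hid : fs.f ≫ il.f + sn.f ≫ ir.f = 𝟙 (N ⊞ T).1 := by
      have := congrArg (fun t => t.f) (biprod.total : fs ≫ il + sn ≫ ir = 𝟙 (N ⊞ T))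
      rw [rc_add_f] at this
      exact this
    have hv3 : v.f ≫ i.f = 0 := by
      rw [← Category.comp_id (v.f ≫ i.f), ← hid, Preadditive.comp_add, ← Category.assoc, hv1,
        ← Category.assoc, hv2, zero_comp, zero_comp, add_zero]
    apply RCen.ext
    rw [← cancel_mono i.f, hv3, rc_zero_f, zero_comp]
  · change z ≫ i.f ≫ fs.f = a
    rw [← Category.assoc, hz', Preadditive.add_comp, Category.assoc, e1, Category.assoc, e3,
      comp_zero, add_zero, Category.comp_id]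
  · change z ≫ i.f ≫ sn.f = b
    rw [← Category.assoc, hz', Preadditive.add_comp, Category.assoc, e2, Category.assoc, e4,
      comp_zero, zero_add, Category.comp_id]

end SJ

end Pool.Agent.RC40
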