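import Pool.Agent.RC40.SURJ2
import Pool.Agent.RC40.S3

/-! # Row SURJ, part 3: the main step (helper40) -/

open CategoryTheory MonoidalCategory Limits Abelian

universe v u

set_option backward.isDefEq.respectTransparency.types false
set_option linter.unusedSectionVars false

attribute [local instance] CategoryTheory.Abelian.hasFiniteBiproducts

noncomputable section

namespace Pool.Agent.RC40

open Pool.Agent.MUG Pool.Agent.NDC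

namespace SJ

variable {k : Type*} [Field k] {C : Type u} [Category.{v} C] [Abelian C]
  [Linear k C] [MonoidalCategory C] [MonoidalPreadditive C] [MonoidalLinear k C]
  [RigidCategory C] {P : ObjectProperty C} [hP : TensorSub P]

/-- The exact pairing under the forgetful functor. -/
@[implicit_reducible]
def forgetPair (X Y : RCen P) [ExactPairing X Y] : ExactPairing X.1 Y.1 where
  coevaluation' := (η_ X Y).f
  evaluation' := (ε_ X Y).f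
  coevaluation_evaluation' := by
    have h := congrArg (fun t => t.f) (ExactPairing.coevaluation_evaluation X Y)
    simp only [RCen.comp_f, RCen.whiskerLeft_f, RCen.whiskerRight_f, RCen.associator_inv_f,
      RCen.rightUnitor_hom_f, RCen.leftUnitor_inv_f] at h
    exact h
  evaluation_coevaluation' := by
    have h := congrArg (fun t => t.f) (ExactPairing.evaluation_coevaluation X Y)
    simp only [RCen.comp_f, RCen.whiskerLeft_f, RCen.whiskerRight_f, RCen.associator_hom_f,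
      RCen.leftUnitor_hom_f, RCen.rightUnitor_inv_f] at h
    exact h

/-- The image of the dual of an object of the center. -/
@[implicit_reducible]
def cenPair (N : Center C) :
    ExactPairing ((RCen.ofCenter P).obj N) ((RCen.ofCenter P).obj (Nᘁ)) where
  coevaluation' := ⟨(η_ N (Nᘁ)).f, fun U _ => (η_ N (Nᘁ)).comm U⟩
  evaluation' := ⟨(ε_ N (Nᘁ)).f, fun U _ => (ε_ N (Nᘁ)).comm U⟩
  coevaluation_evaluation' := by
    have h := congrArg (fun t => t.f) (ExactPairing.coevaluation_evaluation N (Nᘁ))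
    simp only [Center.comp_f, Center.whiskerLeft_f, Center.whiskerRight_f,
      Center.associator_inv_f, Center.rightUnitor_hom_f, Center.leftUnitor_inv_f] at h
    apply RCen.ext
    simp only [RCen.comp_f, RCen.whiskerLeft_f, RCen.whiskerRight_f, RCen.associator_inv_f,
      RCen.rightUnitor_hom_f, RCen.leftUnitor_inv_f]
    exact h
  evaluation_coevaluation' := by
    have h := congrArg (fun t => t.f) (ExactPairing.evaluation_coevaluation N (Nᘁ))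
    simp only [Center.comp_f, Center.whiskerLeft_f, Center.whiskerRight_f,
      Center.associator_hom_f, Center.leftUnitor_hom_f, Center.rightUnitor_inv_f] at h
    apply RCen.ext
    simp only [RCen.comp_f, RCen.whiskerLeft_f, RCen.whiskerRight_f, RCen.associator_hom_f,
      RCen.leftUnitor_hom_f, RCen.rightUnitor_inv_f]
    exact h

theorem pair_zero {X Y A B : C} [ExactPairing X Y] {ψ : A ⟶ X ⊗ B}
    (h : Y ◁ ψ ≫ (α_ Y X B).inv ≫ ε_ X Y ▷ B = 0) : ψ = 0 := by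
  have h1 : η_ X Y ▷ A ≫ (α_ X Y A).hom ≫ X ◁ (Y ◁ ψ ≫ (α_ Y X B).inv ≫ ε_ X Y ▷ B) =
      (𝟙_ C) ◁ ψ ≫ (λ_ (X ⊗ B)).hom ≫ X ◁ (λ_ B).inv := by
    calc η_ X Y ▷ A ≫ (α_ X Y A).hom ≫ X ◁ (Y ◁ ψ ≫ (α_ Y X B).inv ≫ ε_ X Y ▷ B)
        = 𝟙 _ ⊗≫ (η_ X Y ▷ A ≫ (X ⊗ Y) ◁ ψ) ⊗≫ X ◁ (ε_ X Y ▷ B) ⊗≫ 𝟙 _ := by monoidal
      _ = 𝟙 _ ⊗≫ (𝟙_ C) ◁ ψ ⊗≫ (η_ X Y ▷ X ≫ (α_ X Y X).hom ≫ X ◁ ε_ X Y) ▷ B ⊗≫ 𝟙 _ := by
        rw [← whisker_exchange]; monoidal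
      _ = _ := by rw [ExactPairing.evaluation_coevaluation]; monoidal
  rw [h, MonoidalPreadditive.whiskerLeft_zero, comp_zero, comp_zero] at h1
  apply unit_whisker_eq_zero
  rw [← cancel_mono ((λ_ (X ⊗ B)).hom ≫ X ◁ (λ_ B).inv), ← h1, zero_comp]

/-- A nonzero map from the unit to `G` gives an epimorphism from the dual of `G` to the unit. -/
theorem epi_of_unit (h1 : Simple (𝟙_ C)) (G : RCen P) (ψ : 𝟙_ C ⟶ G.1) (hψ : ψ ≠ 0) :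
    Epi ((Gᘁ : RCen P).1 ◁ ψ ≫ (ε_ G (Gᘁ)).f) := by
  letI := forgetPair G (Gᘁ)
  have h2 : (Gᘁ : RCen P).1 ◁ ψ ≫ (ε_ G (Gᘁ)).f ≠ 0 := by
    intro h0
    apply hψ
    have h3 : ψ ≫ (ρ_ G.1).inv = 0 := by
      apply pair_zero (Y := (Gᘁ : RCen P).1)
      have h4 : (Gᘁ : RCen P).1 ◁ (ψ ≫ (ρ_ G.1).inv) ≫ (α_ _ _ _).inv ≫
          ε_ G.1 (Gᘁ : RCen P).1 ▷ (𝟙_ C) =
          ((Gᘁ : RCen P).1 ◁ ψ ≫ (ε_ G (Gᘁ)).f) ≫ (ρ_ _).inv := by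
        change (Gᘁ : RCen P).1 ◁ (ψ ≫ (ρ_ G.1).inv) ≫ (α_ _ _ _).inv ≫
          (ε_ G (Gᘁ)).f ▷ (𝟙_ C) = _
        simp
      rw [h4, h0, zero_comp]
    rw [← cancel_mono (ρ_ G.1).inv, h3, zero_comp]
  exact epi_of_nonzero_to_simple h2

/-- The main step. -/
theorem subq_main (hC : IsFinite k C) (M : RCen P) {W1 : C} (Ψ : NatFam (𝟙_ C) W1)
    (F : NatFam M.1 (W1 ⊗ M.1)) (hΨ : Ψ.f (𝟙_ C) ≠ 0)
    (hF : ∀ V (hV : P V), F.f V = (M.2.β V hV).hom ≫ ((λ_ V).inv ≫ Ψ.f V) ▷ M.1 ≫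
      (α_ V W1 M.1).hom) :
    ∃ N : Center C, IsSubquotient M ((RCen.ofCenter P).obj N) := by
  obtain ⟨N1, ω1, h1⟩ := exists_cofree hC.finCat W1
  obtain ⟨ψ, hψ, -⟩ := h1 _ Ψ
  obtain ⟨N, ω, h2⟩ := exists_cofree hC.finCat (W1 ⊗ M.1)
  obtain ⟨y, hy, -⟩ := h2 _ F
  obtain ⟨G, q, ω', hq, hqω, hG⟩ := exists_quot hC ((RCen.ofCenter P).obj N1) ω1
  let ψ' : 𝟙_ C ⟶ G.1 := ψ ≫ q.f
  have hψ' : ψ' ≠ 0 := by
    intro h0
    apply hΨ
    have h3 : ψ ≫ ω1 = 0 := by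
      have h4 : ψ ≫ ω1 = ψ' ≫ ω' :=
        (congrArg (fun t : N1.1 ⟶ W1 => ψ ≫ t) hqω.symm).trans (Category.assoc _ _ _).symm
      rw [h4, h0, zero_comp]
    rw [hψ (𝟙_ C), Pool.Agent.MUG.hb_unit]
    have h6 : ψ ▷ (𝟙_ C) ≫ ((ρ_ N1.1).hom ≫ (λ_ N1.1).inv) ≫ (𝟙_ C) ◁ ω1 =
        (ρ_ (𝟙_ C)).hom ≫ (ψ ≫ ω1) ≫ (λ_ W1).inv := by simp
    rw [h6, h3, zero_comp, comp_zero]
  have hab : ∀ V hV, y ▷ V ≫ (((RCen.ofCenter P).obj N).2.β V hV).hom ≫ V ◁ ω =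
      ((λ_ M.1).inv ≫ ψ' ▷ M.1) ▷ V ≫ ((G ⊗ M).2.β V hV).hom ≫ V ◁ (ω' ▷ M.1) := by
    intro V hV
    have h3 : y ▷ V ≫ (((RCen.ofCenter P).obj N).2.β V hV).hom ≫ V ◁ ω = F.f V := (hy V).symm
    have h4 : Ψ.f V = ψ' ▷ V ≫ (G.2.β V hV).hom ≫ V ◁ ω' := by
      have t := trans_map q ψ ω' V hV
      rw [hqω] at t
      exact (hψ V).trans t.symm
    rw [h3, hF V hV, h4, RCen.tensor_β]
    calc (M.2.β V hV).hom ≫ ((λ_ V).inv ≫ ψ' ▷ V ≫ (G.2.β V hV).hom ≫ V ◁ ω') ▷ M.1 ≫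
          (α_ V W1 M.1).hom
        = 𝟙 _ ⊗≫ ((𝟙_ C) ◁ (M.2.β V hV).hom ≫ ψ' ▷ (V ⊗ M.1)) ⊗≫
            ((G.2.β V hV).hom ≫ V ◁ ω') ▷ M.1 ⊗≫ 𝟙 _ := by monoidal
      _ = _ := by rw [whisker_exchange]; monoidal
  obtain ⟨K, p, r, z, hp, hz1, hz2⟩ := exists_graph hC ((RCen.ofCenter P).obj N) (G ⊗ M) ω
    (ω' ▷ M.1) (fun {A} y hy => kill_tensor G M ω' hG y hy) y _ hab
  let s : (Gᘁ : RCen P) ⊗ K ⟶ M :=
    (Gᘁ : RCen P) ◁ r ≫ (α_ _ _ _).inv ≫ ε_ G (Gᘁ) ▷ M ≫ (λ_ M).hom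
  have hs : Epi s := by
    have h3 : (Gᘁ : RCen P).1 ◁ z ≫ s.f = (Gᘁ : RCen P).1 ◁ (λ_ M.1).inv ≫
        (α_ _ _ _).inv ≫ ((Gᘁ : RCen P).1 ◁ ψ' ≫ (ε_ G (Gᘁ)).f) ▷ M.1 ≫ (λ_ M.1).hom := by
      have h4 : s.f = (Gᘁ : RCen P).1 ◁ r.f ≫ (α_ _ _ _).inv ≫ (ε_ G (Gᘁ)).f ▷ M.1 ≫
          (λ_ M.1).hom := by
        simp only [s, RCen.comp_f, RCen.whiskerLeft_f, RCen.whiskerRight_f,
          RCen.associator_inv_f, RCen.leftUnitor_hom_f]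
      rw [h4, ← MonoidalCategory.whiskerLeft_comp_assoc, hz2]
      simp
    have h5 := epi_of_unit hC.unit G ψ' hψ'
    have h6 : Epi ((Gᘁ : RCen P).1 ◁ z ≫ s.f) := by
      rw [h3]
      infer_instance
    exact rc_epi_of P s (epi_of_epi ((Gᘁ : RCen P).1 ◁ z) s.f)
  let e : (((RCen.ofCenter P).obj N1)ᘁ : RCen P) ⊗ (RCen.ofCenter P).obj N ≅
      (RCen.ofCenter P).obj (N1ᘁ ⊗ N) :=
    whiskerRightIso (rightDualIso HasRightDual.exact (cenPair N1)) _ ≪≫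
      Functor.Monoidal.μIso (RCen.ofCenter P) (N1ᘁ) N
  exact ⟨N1ᘁ ⊗ N, (IsSubquotient.of_epi s).trans
    ((((IsSubquotient.of_epi q).rdual).tensor (IsSubquotient.of_mono p)).trans
      (IsSubquotient.of_mono e.hom))⟩

end SJ

end Pool.Agent.RC40
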