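import Pool.Agent.MUG.Conv

/-!
# FGC passes along a tensor functor with an exact right adjoint (core of row TRF, helper78)
-/

open CategoryTheory MonoidalCategory Limits Abelian

universe w w' v v' u u'

set_option linter.unusedSectionVars false

namespace Pool.Agent.RC40

open Pool.Agent.MUG Pool.Agent.MUG.Tr
open Pool.Agent.MUE79 (adjTo adjFrom adjFrom_adjTo adjTo_adjFrom adjTo_comp adjTo_map_comp)

section TRF

variable {k : Type*} [Field k]
  {A : Type u} [Category.{v} A] [Abelian A] [Linear k A] [MonoidalCategory A]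
  [MonoidalPreadditive A] [MonoidalLinear k A] [RigidCategory A] [HasExt.{w} A]
  {T : Type u'} [Category.{v'} T] [Abelian T] [Linear k T] [MonoidalCategory T]
  [MonoidalPreadditive T] [MonoidalLinear k T] [RigidCategory T] [HasExt.{w'} T]
  [EnoughProjectives A] [EnoughProjectives T]
  (i : T ⥤ A) [i.Additive] [i.Linear k] [PreservesFiniteLimits i] [PreservesFiniteColimits i]
  [i.Monoidal] (ρ : A ⥤ T) [ρ.Additive] [ρ.Linear k] [PreservesFiniteLimits ρ]
  [PreservesFiniteColimits ρ] (adj : i ⊣ ρ)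

/-- `Ext(1, M) → Ext(1, ρ M)`. -/
noncomputable def thA (k : Type*) [Field k] [Linear k A] [Linear k T] [i.Linear k] [ρ.Linear k]
    (M : A) (n : ℕ) : Ext.{w} (𝟙_ A) M n →ₗ[k] Ext.{w'} (𝟙_ T) (ρ.obj M) n where
  toFun x := adjTo adj (X := 𝟙_ T) (pre (Functor.OplaxMonoidal.η i) x)
  map_add' x y := by
    unfold adjTo pre
    rw [Ext.comp_add, Ext.mapExactFunctor_add, Ext.comp_add]
  map_smul' c x := by
    unfold adjTo pre
    rw [Ext.comp_smul, Functor.mapExactFunctor_smul, Ext.comp_smul]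
    rfl

theorem thA_apply (M : A) (n : ℕ) (x : Ext.{w} (𝟙_ A) M n) :
    thA i ρ adj k M n x = adjTo adj (X := 𝟙_ T) (pre (Functor.OplaxMonoidal.η i) x) := rfl

theorem thA_injective (M : A) (n : ℕ) (x y : Ext.{w} (𝟙_ A) M n)
    (h : thA i ρ adj k M n x = thA i ρ adj k M n y) : x = y := by
  have h1 : ∀ x : Ext.{w} (𝟙_ A) M n, x = pre (Functor.LaxMonoidal.ε i)
      (adjFrom adj (X := 𝟙_ T) (Y := M) (thA i ρ adj k M n x)) := by
    intro x
    rw [thA_apply, adjFrom_adjTo, pre_pre, Functor.Monoidal.ε_η, pre_id]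
  rw [h1 x, h, ← h1 y]

theorem thA_surjective (M : A) (n : ℕ) (z : Ext.{w'} (𝟙_ T) (ρ.obj M) n) :
    ∃ x : Ext.{w} (𝟙_ A) M n, thA i ρ adj k M n x = z := by
  refine ⟨pre (Functor.LaxMonoidal.ε i) (adjFrom adj (X := 𝟙_ T) (Y := M) z), ?_⟩
  rw [thA_apply, pre_pre, Functor.Monoidal.η_ε, pre_id, adjTo_adjFrom]

theorem thA_hat (M : A) {m n c : ℕ} (h : m + n = c) (z : Ext.{w'} (𝟙_ T) (𝟙_ T) m)
    (x : Ext.{w} (𝟙_ A) M n) :
    thA i ρ adj k M c ((hat i z : Ext.{w} (𝟙_ A) (𝟙_ A) m).comp x h) =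
      z.comp (thA i ρ adj k M n x) h := by
  rw [thA_apply, thA_apply, ← adjTo_map_comp]
  congr 1
  unfold hat
  rw [← pre_comp, pre_pre, Functor.Monoidal.η_ε, pre_id, post_comp]

include adj in
/-- The generation statement. -/
theorem trf_gen (hF : FGC.{w'} k T) (M : A) :
    ∃ (r : ℕ) (d : Fin r → ℕ) (y : ∀ a, Ext.{w} (𝟙_ A) M (d a)),
      ∀ B : ∀ n, Submodule k (Ext.{w} (𝟙_ A) M n), (∀ a, y a ∈ B (d a)) →
        (∀ m n (z : Ext.{w'} (𝟙_ T) (𝟙_ T) m) (x : Ext.{w} (𝟙_ A) M n), x ∈ B n →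
          (hat i z : Ext.{w} (𝟙_ A) (𝟙_ A) m).comp x rfl ∈ B (m + n)) → ∀ n, B n = ⊤ := by
  obtain ⟨r, d, y, hy⟩ := hF.mod (𝟙_ T) (ρ.obj M)
  choose g hg using fun a => thA_surjective (k := k) i ρ adj M (d a) (y a)
  refine ⟨r, d, g, ?_⟩
  intro B h1 h2 n
  have h3 := hy (fun n => (B n).map (thA i ρ adj k M n)) ?_ ?_ n
  · rw [eq_top_iff]
    intro x _
    have h4 : thA i ρ adj k M n x ∈ (B n).map (thA i ρ adj k M n) := by
      have h5 : (B n).map (thA i ρ adj k M n) = ⊤ := h3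
      rw [h5]
      trivial
    obtain ⟨x', hx', he⟩ := Submodule.mem_map.1 h4
    rw [thA_injective (k := k) i ρ adj M n _ _ he] at hx'
    exact hx'
  · intro a
    exact Submodule.mem_map.2 ⟨g a, h1 a, hg a⟩
  · intro m n z x hx
    obtain ⟨x', hx', rfl⟩ := Submodule.mem_map.1 hx
    rw [act_unit]
    exact Submodule.mem_map.2 ⟨_, h2 m n z x' hx', thA_hat i ρ adj M rfl z x'⟩

include adj in
/-- Row TRF. -/
theorem fgc_of_adj (hF : FGC.{w'} k T) : FGC.{w} k A := by
  constructor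
  · obtain ⟨r, d, x, hx⟩ := hF.alg
    obtain ⟨R, D, G, hG⟩ := trf_gen (k := k) i ρ adj hF (𝟙_ A)
    obtain ⟨s, d', y, hy⟩ := exists_fin (ι := Fin r ⊕ Fin R)
      (M := fun n => Ext.{w} (𝟙_ A) (𝟙_ A) n) (Sum.elim d D)
      (fun p => match p with
        | Sum.inl l => hat i (x l)
        | Sum.inr a => G a)
    refine ⟨s, d', y, ?_⟩
    intro B h1 h2 h3
    have h4 := hy (fun n x => x ∈ B n) h2
    have h5 : ∀ n, (B n).comap (hatL (k := k) i n) = ⊤ := by
      refine hx (fun n => (B n).comap (hatL (k := k) i n)) ?_ ?_ ?_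
      · change hat i _ ∈ B 0
        rw [hat_one]
        exact h1
      · intro l
        exact h4 (Sum.inl l)
      · intro m n a c ha hc
        change hat i _ ∈ B (m + n)
        rw [hat_comp]
        exact h3 m n _ _ ha hc
    refine hG B ?_ ?_
    · intro a
      exact h4 (Sum.inr a)
    · intro m n z x hx
      have h6 : z ∈ (B m).comap (hatL (k := k) i m) := by
        rw [h5]
        trivial
      exact h3 m n _ _ h6 hx
  · intro X Y
    obtain ⟨R, D, G, hG⟩ := trf_gen (k := k) i ρ adj hF (Y ⊗ Xᘁ)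
    have hsurj : ∀ a, ∃ y : Ext.{w} X Y (D a), psi k X Y (D a) y = G a := by
      intro a
      refine ⟨pre (λ_ X).inv
        (adjFrom (tensorRightAdjunction X (Xᘁ)) (X := 𝟙_ A) (Y := Y) (G a)), ?_⟩
      rw [psi_apply]
      have h1 : pre (X := (tensorRight X).obj (𝟙_ A)) (λ_ X).hom (pre (λ_ X).inv
          (adjFrom (tensorRightAdjunction X (Xᘁ)) (X := 𝟙_ A) (Y := Y) (G a))) =
          adjFrom (tensorRightAdjunction X (Xᘁ)) (X := 𝟙_ A) (Y := Y) (G a) := by
        rw [pre_pre, Iso.hom_inv_id]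
        exact pre_id _
      rw [h1]
      exact Pool.Agent.MUE79.adjTo_adjFrom _ _
    choose y hy using hsurj
    refine ⟨R, D, y, ?_⟩
    intro B h1 h2 n
    have h3 := hG (fun n => (B n).map (psi k X Y n)) ?_ ?_ n
    · rw [eq_top_iff]
      intro β _
      have h4 : psi k X Y n β ∈ (B n).map (psi k X Y n) := by
        have h5 : (B n).map (psi k X Y n) = ⊤ := h3
        rw [h5]
        trivial
      obtain ⟨β', hβ', he⟩ := Submodule.mem_map.1 h4
      rw [psi_injective (k := k) X Y n _ _ he] at hβ'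
      exact hβ'
    · intro a
      exact Submodule.mem_map.2 ⟨y a, h1 a, hy a⟩
    · intro m n z β hβ
      obtain ⟨β', hβ', rfl⟩ := Submodule.mem_map.1 hβ
      exact Submodule.mem_map.2 ⟨_, h2 m n (hat i z) β' hβ', psi_act X Y rfl _ _⟩

end TRF

end Pool.Agent.RC40
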